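import Mathlib
import Pool.Agent.H704R3.Es

set_option autoImplicit false
set_option linter.unusedVariables false
set_option linter.unusedSectionVars false

namespace Pool.Agent.TH963
open Finset Pool.Agent.H704R3

noncomputable def mx (z : ℂ) : ℝ := max 1 ‖z‖

lemma one_le_mx (z : ℂ) : 1 ≤ mx z := le_max_left _ _
lemma mx_pos (z : ℂ) : 0 < mx z := lt_of_lt_of_le one_pos (one_le_mx z)
lemma norm_le_mx (z : ℂ) : ‖z‖ ≤ mx z := le_max_right _ _
lemma mx_cases (z : ℂ) : (mx z = 1 ∧ ‖z‖ ≤ 1) ∨ (mx z = ‖z‖ ∧ 1 < ‖z‖) := by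
  unfold mx
  rcases le_or_gt ‖z‖ 1 with h | h
  · left; exact ⟨max_eq_left h, h⟩
  · right; exact ⟨max_eq_right h.le, h⟩

lemma mx_continuous : Continuous mx := by unfold mx; fun_prop

/-- chordal distance with maximum normalisation -/
noncomputable def ch (z w : ℂ) : ℝ := ‖z - w‖ / (mx z * mx w)

lemma ch_nonneg (z w : ℂ) : 0 ≤ ch z w :=
  div_nonneg (norm_nonneg _) (mul_pos (mx_pos _) (mx_pos _)).le

lemma ch_symm (z w : ℂ) : ch z w = ch w z := by
  unfold ch; rw [norm_sub_rev, mul_comm]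

lemma ch_self (z : ℂ) : ch z z = 0 := by simp [ch]

lemma ch_mul (z w : ℂ) : ch z w * (mx z * mx w) = ‖z - w‖ := by
  unfold ch
  rw [div_mul_cancel₀]
  exact (mul_pos (mx_pos _) (mx_pos _)).ne'

lemma ch_eq_zero {z w : ℂ} : ch z w = 0 ↔ z = w := by
  constructor
  · intro h
    have := ch_mul z w
    rw [h, zero_mul] at this
    exact sub_eq_zero.mp (norm_eq_zero.mp this.symm)
  · rintro rfl; exact ch_self _

lemma ch_le_two (z w : ℂ) : ch z w ≤ 2 := by
  unfold ch
  rw [div_le_iff₀ (mul_pos (mx_pos _) (mx_pos _))]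
  have h1 := norm_sub_le z w
  have h2 := norm_le_mx z
  have h3 := norm_le_mx w
  have h4 := one_le_mx z
  have h5 := one_le_mx w
  nlinarith

lemma ch_continuous : Continuous (fun p : ℂ × ℂ => ch p.1 p.2) := by
  unfold ch
  apply Continuous.div
  · fun_prop
  · exact (mx_continuous.comp continuous_fst).mul (mx_continuous.comp continuous_snd)
  · intro p; exact (mul_pos (mx_pos _) (mx_pos _)).ne'

lemma ch_triangle (x y z : ℂ) : ch x z ≤ ch x y + ch y z := by
  have hx := mx_pos x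
  have hy := mx_pos y
  have hz := mx_pos z
  have hx' := norm_le_mx x
  have hy' := norm_le_mx y
  have hz' := norm_le_mx z
  have h1x := one_le_mx x
  have h1z := one_le_mx z
  have key : ‖x - z‖ * mx y ≤ ‖x - y‖ * mx z + ‖y - z‖ * mx x := by
    rcases mx_cases y with ⟨h, _⟩ | ⟨h, _⟩
    · rw [h]
      have := norm_sub_le_norm_sub_add_norm_sub x y z
      have a1 := norm_nonneg (x - y)
      have a2 := norm_nonneg (y - z)
      nlinarith
    · rw [h]
      have e : (x - z) * y = (x - y) * z + (y - z) * x := by ring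
      calc ‖x - z‖ * ‖y‖ = ‖(x - y) * z + (y - z) * x‖ := by rw [← e, norm_mul]
        _ ≤ ‖x - y‖ * ‖z‖ + ‖y - z‖ * ‖x‖ := by
            refine (norm_add_le _ _).trans ?_
            rw [norm_mul, norm_mul]
        _ ≤ _ := by gcongr
  unfold ch
  rw [div_add_div _ _ (mul_pos hx hy).ne' (mul_pos hy hz).ne', div_le_div_iff₀ (mul_pos hx hz)
    (mul_pos (mul_pos hx hy) (mul_pos hy hz))]
  nlinarith [mul_pos hx hz, mul_pos (mul_pos hx hz) hy]

section
variable {ι : Type*} [DecidableEq ι]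

/-- normalised modulus of an elementary symmetric polynomial -/
noncomputable def VV (x : ι → ℂ) (S : Finset ι) (k : ℕ) : ℝ := ‖es S k x‖ / ∏ i ∈ S, mx (x i)

noncomputable def PM (x : ι → ℂ) (S : Finset ι) : ℝ := ∏ i ∈ S, mx (x i)

noncomputable def KK (x : ι → ℂ) (S : Finset ι) : ℝ := ∏ i ∈ S, ((1 + ‖x i‖) / mx (x i))

lemma PM_pos (x : ι → ℂ) (S : Finset ι) : 0 < PM x S := prod_pos (fun i _ => mx_pos _)

lemma one_le_PM (x : ι → ℂ) (S : Finset ι) : 1 ≤ PM x S := by
  unfold PM
  induction S using Finset.induction_on with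
  | empty => simp
  | insert a S ha ih =>
    rw [prod_insert ha]
    have := one_le_mx (x a)
    nlinarith

lemma VV_eq (x : ι → ℂ) (S : Finset ι) (k : ℕ) : VV x S k = ‖es S k x‖ / PM x S := rfl

lemma VV_nonneg (x : ι → ℂ) (S : Finset ι) (k : ℕ) : 0 ≤ VV x S k :=
  div_nonneg (norm_nonneg _) (PM_pos _ _).le

lemma VV_mul (x : ι → ℂ) (S : Finset ι) (k : ℕ) : VV x S k * PM x S = ‖es S k x‖ := by
  rw [VV_eq, div_mul_cancel₀ _ (PM_pos _ _).ne']

lemma fac_ge_one (z : ℂ) : 1 ≤ (1 + ‖z‖) / mx z := by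
  rw [le_div_iff₀ (mx_pos z)]
  unfold mx
  have := norm_nonneg z
  rcases le_total 1 ‖z‖ with h | h
  · rw [max_eq_right h]; linarith
  · rw [max_eq_left h]; linarith

lemma one_le_KK (x : ι → ℂ) (S : Finset ι) : 1 ≤ KK x S := by
  unfold KK
  induction S using Finset.induction_on with
  | empty => simp
  | insert a S ha ih =>
    rw [prod_insert ha]
    have := fac_ge_one (x a)
    nlinarith

lemma KK_mono (x : ι → ℂ) {S T : Finset ι} (h : S ⊆ T) : KK x S ≤ KK x T := by
  unfold KK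
  rw [← prod_sdiff h]
  have h1 : 1 ≤ ∏ i ∈ T \ S, ((1 + ‖x i‖) / mx (x i)) := one_le_KK x (T \ S)
  have h2 : 1 ≤ ∏ i ∈ S, ((1 + ‖x i‖) / mx (x i)) := one_le_KK x S
  nlinarith

lemma es_norm_le' (x : ι → ℂ) (S : Finset ι) : ∀ k : ℕ, ‖es S k x‖ ≤ ∏ i ∈ S, (1 + ‖x i‖) := by
  induction S using Finset.induction_on with
  | empty =>
    intro k
    cases k with
    | zero => simp
    | succ k => rw [es_empty]; simp
  | insert a S ha ih =>
    intro k
    rw [prod_insert ha]
    have hp : 0 ≤ ∏ i ∈ S, (1 + ‖x i‖) := prod_nonneg (fun i _ => by positivity)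
    cases k with
    | zero =>
      have := ih 0
      rw [es_zero] at this ⊢
      have h2 := norm_nonneg (x a)
      nlinarith
    | succ k =>
      rw [es_insert ha]
      calc _ ≤ ‖es S (k+1) x‖ + ‖x a‖ * ‖es S k x‖ := by
            refine (norm_add_le _ _).trans ?_
            rw [norm_mul]
        _ ≤ ∏ i ∈ S, (1 + ‖x i‖) + ‖x a‖ * ∏ i ∈ S, (1 + ‖x i‖) := by
            gcongr
            · exact ih _
            · exact ih _
        _ = _ := by ring

lemma VV_le_KK (x : ι → ℂ) (S : Finset ι) (k : ℕ) : VV x S k ≤ KK x S := by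
  rw [VV_eq, KK, prod_div_distrib]
  exact div_le_div_of_nonneg_right (es_norm_le' x S k) (PM_pos x S).le

lemma PM_insert (x : ι → ℂ) {S : Finset ι} {i : ι} (h : i ∉ S) :
    PM x (insert i S) = mx (x i) * PM x S := by
  unfold PM; rw [prod_insert h]

lemma PM_erase (x : ι → ℂ) {S : Finset ι} {i : ι} (h : i ∈ S) :
    mx (x i) * PM x (S.erase i) = PM x S := by
  unfold PM; rw [mul_prod_erase S (fun i => mx (x i)) h]

/-- moving one point -/
lemma VV_transfer (x : ι → ℂ) (T : Finset ι) (i j : ι) (hi : i ∉ T) (hj : j ∉ T) (k : ℕ) :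
    VV x (insert j T) (k+1) ≤ VV x (insert i T) (k+1) + KK x T * ch (x i) (x j) := by
  rw [VV_eq, VV_eq, PM_insert x hj, PM_insert x hi, es_insert hj, es_insert hi]
  set p := es T (k+1) x
  set p' := es T k x
  have hP := PM_pos x T
  have hmi := mx_pos (x i)
  have hmj := mx_pos (x j)
  have hK : 0 < KK x T := lt_of_lt_of_le one_pos (one_le_KK x T)
  have hp : ‖p‖ ≤ KK x T * PM x T := by
    have := VV_le_KK x T (k+1)
    rw [VV_eq, div_le_iff₀ hP] at this
    exact this
  have hp' : ‖p'‖ ≤ KK x T * PM x T := by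
    have := VV_le_KK x T k
    rw [VV_eq, div_le_iff₀ hP] at this
    exact this
  have hch := ch_mul (x i) (x j)
  rw [div_add' _ _ _ (mul_pos hmi hP).ne', div_le_div_iff₀ (mul_pos hmj hP) (mul_pos hmi hP)]
  have main : ‖p + x j * p'‖ * mx (x i) ≤ ‖p + x i * p'‖ * mx (x j)
      + KK x T * PM x T * ‖x i - x j‖ := by
    rcases mx_cases (x i) with ⟨h, h'⟩ | ⟨h, h'⟩
    · rw [h, mul_one]
      have e : p + x j * p' = (p + x i * p') - (x i - x j) * p' := by ring
      have h1 := one_le_mx (x j)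
      calc ‖p + x j * p'‖ ≤ ‖p + x i * p'‖ + ‖x i - x j‖ * ‖p'‖ := by
            rw [e]; refine (norm_sub_le _ _).trans ?_; rw [norm_mul]
        _ ≤ ‖p + x i * p'‖ * mx (x j) + ‖x i - x j‖ * (KK x T * PM x T) := by
            gcongr
            nlinarith [norm_nonneg (p + x i * p')]
        _ = _ := by ring
    · rw [h]
      have e : (p + x j * p') * x i = (p + x i * p') * x j + (x i - x j) * p := by ring
      calc ‖p + x j * p'‖ * ‖x i‖ = ‖(p + x i * p') * x j + (x i - x j) * p‖ := by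
            rw [← e, norm_mul]
        _ ≤ ‖p + x i * p'‖ * ‖x j‖ + ‖x i - x j‖ * ‖p‖ := by
            refine (norm_add_le _ _).trans ?_; rw [norm_mul, norm_mul]
        _ ≤ ‖p + x i * p'‖ * mx (x j) + ‖x i - x j‖ * (KK x T * PM x T) := by
            gcongr
            exact norm_le_mx _
        _ = _ := by ring
  have e2 : KK x T * ch (x i) (x j) * (mx (x i) * PM x T) * (mx (x j) * PM x T)
      = KK x T * PM x T * ‖x i - x j‖ * PM x T := by
    rw [← hch]; ring
  calc ‖p + x j * p'‖ * (mx (x i) * PM x T) = (‖p + x j * p'‖ * mx (x i)) * PM x T := by ring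
    _ ≤ (‖p + x i * p'‖ * mx (x j) + KK x T * PM x T * ‖x i - x j‖) * PM x T := by gcongr
    _ = _ := by rw [add_mul, add_mul, e2]; ring

/-- resonance uniqueness -/
lemma resonance (x x' : ι → ℂ) (S : Finset ι) (i : ι) (hi : i ∈ S) (k : ℕ)
    (hxx : ∀ j ∈ S.erase i, x j = x' j) (η1 η2 : ℝ) (h2 : 0 < η2)
    (h : VV x S (k+1) ≤ η1) (h' : VV x' S (k+1) ≤ η1)
    (hb : η2 < VV x (S.erase i) (k+1)) : ch (x i) (x' i) ≤ 2 * η1 / η2 := by
  have hPe : PM x' (S.erase i) = PM x (S.erase i) := by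
    unfold PM; exact prod_congr rfl (fun j hj => by rw [hxx j hj])
  have hes : ∀ m, es (S.erase i) m x' = es (S.erase i) m x := by
    intro m
    unfold es
    apply sum_congr rfl
    intro T hT
    apply prod_congr rfl
    intro j hj
    rw [hxx j ((mem_powersetCard.mp hT).1 hj)]
  have hP := PM_pos x (S.erase i)
  have hmi := mx_pos (x i)
  have hmi' := mx_pos (x' i)
  rw [VV_eq, ← PM_erase x hi, es_erase hi, div_le_iff₀ (mul_pos hmi hP)] at h
  rw [VV_eq, ← PM_erase x' hi, hPe, es_erase hi, hes, hes, div_le_iff₀ (mul_pos hmi' hP)] at h'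
  rw [VV_eq, lt_div_iff₀ hP] at hb
  set A := es (S.erase i) (k+1) x
  set B := es (S.erase i) k x
  set P := PM x (S.erase i)
  have key : ‖x i - x' i‖ * ‖A‖ ≤ 2 * η1 * (mx (x i) * mx (x' i)) * P := by
    have e : (x i - x' i) * A = x i * (A + x' i * B) - x' i * (A + x i * B) := by ring
    calc ‖x i - x' i‖ * ‖A‖ = ‖x i * (A + x' i * B) - x' i * (A + x i * B)‖ := by
          rw [← e, norm_mul]
      _ ≤ ‖x i‖ * ‖A + x' i * B‖ + ‖x' i‖ * ‖A + x i * B‖ := by
          refine (norm_sub_le _ _).trans ?_; rw [norm_mul, norm_mul]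
      _ ≤ mx (x i) * (η1 * (mx (x' i) * P)) + mx (x' i) * (η1 * (mx (x i) * P)) := by
          gcongr
          · exact norm_le_mx _
          · exact norm_le_mx _
      _ = _ := by ring
  have h0 : 0 ≤ ‖x i - x' i‖ := norm_nonneg _
  have h3 : ‖x i - x' i‖ * (η2 * P) ≤ 2 * η1 * (mx (x i) * mx (x' i)) * P := by
    refine le_trans ?_ key
    gcongr
  have h4 : ‖x i - x' i‖ * η2 ≤ 2 * η1 * (mx (x i) * mx (x' i)) := by
    by_contra hcon
    rw [not_le] at hcon
    have := mul_lt_mul_of_pos_right hcon hP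
    nlinarith
  unfold ch
  rw [div_le_div_iff₀ (mul_pos hmi hmi') h2]
  exact h4

/-- Euler identity, second form -/
lemma sum_es_erase (S : Finset ι) (x : ι → ℂ) (k : ℕ) :
    ∑ i ∈ S, es (S.erase i) k x = ((S.card : ℂ) - k) * es S k x := by
  cases k with
  | zero => simp [es_zero]
  | succ k =>
    have h1 : ∀ i ∈ S, es (S.erase i) (k+1) x = es S (k+1) x - x i * es (S.erase i) k x := by
      intro i hi; rw [es_erase hi]; ring
    rw [sum_congr rfl h1, sum_sub_distrib, sum_mul_es_erase]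
    simp
    ring

lemma pair_identity (S : Finset ι) (x : ι → ℂ) (k : ℕ) {a i : ι} (ha : a ∈ S) (hi : i ∈ S)
    (hai : a ≠ i) :
    x a * es (S.erase a) k x - x i * es (S.erase i) k x
      = (x a - x i) * es ((S.erase a).erase i) k x := by
  cases k with
  | zero => simp [es_zero]
  | succ k =>
    have h1 : i ∈ S.erase a := mem_erase.mpr ⟨hai.symm, hi⟩
    have h2 : a ∈ S.erase i := mem_erase.mpr ⟨hai, ha⟩
    have h3 : (S.erase i).erase a = (S.erase a).erase i := erase_right_comm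
    rw [es_erase h1, es_erase h2, h3]
    ring

lemma es_erase_eq_of_eq (S : Finset ι) (x : ι → ℂ) (k : ℕ) {a i : ι} (ha : a ∈ S) (hi : i ∈ S)
    (h : x a = x i) : es (S.erase a) k x = es (S.erase i) k x := by
  by_cases hai : a = i
  · rw [hai]
  · cases k with
    | zero => simp [es_zero]
    | succ k =>
      have h1 : i ∈ S.erase a := mem_erase.mpr ⟨Ne.symm hai, hi⟩
      have h2 : a ∈ S.erase i := mem_erase.mpr ⟨hai, ha⟩
      have h3 : (S.erase i).erase a = (S.erase a).erase i := erase_right_comm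
      rw [es_erase h1, es_erase h2, h3, h]

end
end Pool.Agent.TH963
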