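import Mathlib
import Pool.Agent.TH963.ED

set_option autoImplicit false
set_option linter.unusedVariables false
set_option linter.unusedSectionVars false

namespace Pool.Agent.TH963
open Finset Pool.Agent.H704R3 Polynomial

section
variable {ι : Type*} [DecidableEq ι]

/-- the polynomial `∑ e_{k-j} w^j` -/
noncomputable def qp (x : ι → ℂ) (S : Finset ι) (k : ℕ) : ℂ[X] :=
  ∑ j ∈ range (k+1), C (es S (k-j) x) * X ^ j

lemma qp_coeff (x : ι → ℂ) (S : Finset ι) (k j : ℕ) (hj : j ≤ k) :
    (qp x S k).coeff j = es S (k-j) x := by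
  unfold qp
  simp only [finsetSum_coeff, coeff_C_mul, coeff_X_pow]
  rw [sum_eq_single j]
  · simp
  · intro b _ hb; simp [hb.symm]
  · intro h; exact absurd (mem_range.mpr (by omega)) h

lemma qp_coeff_gt (x : ι → ℂ) (S : Finset ι) (k j : ℕ) (hj : k < j) :
    (qp x S k).coeff j = 0 := by
  unfold qp
  simp only [finsetSum_coeff, coeff_C_mul, coeff_X_pow]
  apply sum_eq_zero
  intro b hb
  have : j ≠ b := by have := mem_range.mp hb; omega
  simp [this]

lemma qp_natDegree (x : ι → ℂ) (S : Finset ι) (k : ℕ) : (qp x S k).natDegree = k := by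
  apply le_antisymm
  · rw [natDegree_le_iff_coeff_eq_zero]
    intro N hN
    exact qp_coeff_gt x S k N hN
  · apply le_natDegree_of_ne_zero
    rw [qp_coeff x S k k le_rfl]
    simp

lemma qp_ne_zero (x : ι → ℂ) (S : Finset ι) (k : ℕ) : qp x S k ≠ 0 := by
  intro h
  have := qp_coeff x S k k le_rfl
  rw [h] at this
  simp at this

lemma qp_eval (x : ι → ℂ) (S : Finset ι) (k : ℕ) (w : ℂ) :
    (qp x S k).eval w = ∑ j ∈ range (k+1), es S (k-j) x * w ^ j := by
  unfold qp
  simp [eval_finsetSum]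

lemma qp_deriv_eval (x : ι → ℂ) (S : Finset ι) (k : ℕ) (w : ℂ) :
    w * (derivative (qp x S k)).eval w = ∑ j ∈ range (k+1), (j:ℂ) * es S (k-j) x * w ^ j := by
  unfold qp
  rw [derivative_sum, eval_finsetSum, mul_sum]
  apply sum_congr rfl
  intro j _
  rw [derivative_C_mul_X_pow]
  cases j with
  | zero => simp
  | succ j =>
    simp
    ring

lemma q_div (x : ι → ℂ) (S : Finset ι) (i : ι) (hi : i ∈ S) (w : ℂ) : ∀ k : ℕ,
    ∑ j ∈ range (k+1), es S (k-j) x * w ^ j - es (S.erase i) k x
      = (w + x i) * ∑ a ∈ range k, w ^ a * es (S.erase i) (k-1-a) x := by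
  intro k
  have h1 : ∀ a ∈ range k, w ^ a * (x i * es (S.erase i) (k-1-a) x)
      = w ^ a * es S (k-a) x - w ^ a * es (S.erase i) (k-a) x := by
    intro a ha
    have ha' := mem_range.mp ha
    have e : k - a = (k-1-a)+1 := by omega
    rw [e, es_erase hi]; ring
  have h2 : (w + x i) * ∑ a ∈ range k, w ^ a * es (S.erase i) (k-1-a) x
      = ∑ a ∈ range k, w ^ (a+1) * es (S.erase i) (k-(a+1)) x
        + ∑ a ∈ range k, w ^ a * (x i * es (S.erase i) (k-1-a) x) := by
    rw [mul_sum, ← sum_add_distrib]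
    apply sum_congr rfl
    intro a ha
    have e : k - (a+1) = k-1-a := by omega
    rw [e]; ring
  rw [h2, sum_congr rfl h1, sum_sub_distrib]
  have h3 := sum_range_succ (fun a => w ^ a * es (S.erase i) (k-a) x) k
  have h4 := sum_range_succ' (fun a => w ^ a * es (S.erase i) (k-a) x) k
  have h5 := sum_range_succ (fun j => es S (k-j) x * w ^ j) k
  rw [h5]
  simp only [Nat.sub_self, es_zero, pow_zero, Nat.sub_zero, one_mul, mul_one] at h3 h4 h5 ⊢
  have h6 : ∑ a ∈ range k, w ^ a * es S (k-a) x = ∑ j ∈ range k, es S (k-j) x * w ^ j :=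
    sum_congr rfl (fun a _ => by ring)
  rw [h6]
  linear_combination h4 - h3

/-- the fundamental identity -/
theorem q_identity (x : ι → ℂ) (S : Finset ι) (k : ℕ) (w : ℂ) (hw : ∀ i ∈ S, w + x i ≠ 0) :
    w * (derivative (qp x S k)).eval w - ((k:ℂ) - ∑ i ∈ S, x i / (w + x i)) * (qp x S k).eval w
      = ∑ i ∈ S, x i * es (S.erase i) k x / (w + x i) := by
  have h1 : ∀ i ∈ S, x i / (w + x i) * (qp x S k).eval w
      = x i * es (S.erase i) k x / (w + x i)
        + ∑ a ∈ range k, w ^ a * (x i * es (S.erase i) (k-1-a) x) := by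
    intro i hi
    have h := q_div x S i hi w k
    rw [qp_eval]
    have hw' := hw i hi
    have e : ∑ j ∈ range (k+1), es S (k-j) x * w ^ j = es (S.erase i) k x
        + (w + x i) * ∑ a ∈ range k, w ^ a * es (S.erase i) (k-1-a) x := by
      rw [← h]; ring
    rw [e]
    have e2 : ∑ a ∈ range k, w ^ a * (x i * es (S.erase i) (k-1-a) x)
        = x i * ∑ a ∈ range k, w ^ a * es (S.erase i) (k-1-a) x := by
      rw [mul_sum]; exact sum_congr rfl (fun a _ => by ring)
    rw [e2]
    field_simp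
  have h2 : (∑ i ∈ S, x i / (w + x i)) * (qp x S k).eval w
      = ∑ i ∈ S, x i * es (S.erase i) k x / (w + x i)
        + ∑ a ∈ range k, w ^ a * (((k-a : ℕ):ℂ) * es S (k-a) x) := by
    rw [sum_mul, sum_congr rfl h1, sum_add_distrib, sum_comm]
    congr 1
    apply sum_congr rfl
    intro a ha
    have ha' := mem_range.mp ha
    rw [← mul_sum, sum_mul_es_erase]
    have e : k - a = (k-1-a)+1 := by omega
    rw [e]
    push_cast
    ring
  have h3 : (k:ℂ) * (qp x S k).eval w - w * (derivative (qp x S k)).eval w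
      = ∑ a ∈ range k, w ^ a * (((k-a : ℕ):ℂ) * es S (k-a) x) := by
    rw [qp_deriv_eval, qp_eval, mul_sum, ← sum_sub_distrib, sum_range_succ]
    simp only [Nat.sub_self, es_zero]
    have : ∀ a ∈ range k, (k:ℂ) * (es S (k-a) x * w ^ a) - (a:ℂ) * es S (k-a) x * w ^ a
        = w ^ a * (((k-a : ℕ):ℂ) * es S (k-a) x) := by
      intro a ha
      have ha' := mem_range.mp ha
      rw [Nat.cast_sub (by omega)]
      ring
    rw [sum_congr rfl this]
    ring
  linear_combination h2 - h3

end
end Pool.Agent.TH963
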