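import Mathlib
import Pool.Agent.TH761.J441
import Pool.Agent.TH761.J442
import Pool.Agent.TH461.J963.Circle
import Pool.Agent.TH461.J963.Coloring
import Pool.Agent.TH461.J963.Interp
import Pool.Agent.TH182.J446
import Pool.Agent.TH182.J447
set_option autoImplicit false
namespace Pool.Agent.TH963
open Finset Polynomial MeasureTheory
open scoped ENNReal

theorem radius_lemma {ι : Type*} [Fintype ι] (s : ι → ℝ) (t : Multiset ℝ) (r1 L : ℝ) (hL : 0 < L) :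
    ∃ ρ : ℝ, r1 ≤ ρ ∧ ρ ≤ r1 + L ∧
      (∀ i, L / (4 * ((t.card : ℝ) + 1) * ((Fintype.card ι : ℝ) + 1)) ≤ |ρ - s i|) ∧
      (L / 16) ^ t.card ≤ (t.map (fun u => |ρ - u|)).prod := 
  Pool.Agent.TH761.radius_lemma s t r1 L hL

theorem circle_lemma {ι : Type*} [Fintype ι] (x : ι → ℂ) (q : Polynomial ℂ) (k : ℕ) (ρ : ℝ)
    (hρ : 0 < ρ) (hx : ∀ i, ‖x i‖ ≠ ρ) (hroot : ∀ w : ℂ, ‖w‖ = ρ → q.eval w ≠ 0)
    (hL : k + 1 ≤ (univ.filter (fun i => ρ < ‖x i‖)).card) :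
    ∃ w : ℂ, ‖w‖ = ρ ∧
      ‖q.eval w‖ ≤ ‖w * (Polynomial.derivative q).eval w
        - ((k : ℂ) - ∑ i, x i / (w + x i)) * q.eval w‖ := 
  Pool.Agent.TH761.circle_lemma x q k ρ hρ hx hroot hL

theorem poly_circle_lower (q : Polynomial ℂ) (j : ℕ) (ρ : ℝ)
    (h0 : 0 ≤ ρ) (h1 : ρ ≤ 1 / 2) (w : ℂ) (hw : ‖w‖ = ρ) :
    ‖q.coeff j‖ * (1 / 4) ^ q.natDegree * (q.roots.map (fun z => |ρ - min 1 ‖z‖|)).prod
      ≤ ‖q.eval w‖ := 
  Pool.Agent.TH461.J963.poly_circle_lower q j ρ h0 h1 w hw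

theorem interp_identity {ι : Type*} [DecidableEq ι] (x : ι → ℂ) (S : Finset ι)
    (hS : Set.InjOn x S) (s m : ℕ) (hm : S.card = m + 1) (hs : s ≤ m) :
    (X ^ (m - s) : ℂ[X]) = ∑ l ∈ S, C ((-x l) ^ s / ∏ j ∈ S.erase l, (x j - x l)) *
      ∏ j ∈ S.erase l, (1 + C (x j) * X) := 
  Pool.Agent.TH461.J963.interp_identity x S hS s m hm hs

theorem coloring {α : Type*} [DecidableEq α] (F : Finset α) (W : α → α → ℝ)
    (hW0 : ∀ a b, 0 ≤ W a b) (hsymm : ∀ a b, W a b = W b a) (S : ℝ)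
    (hS : ∀ a ∈ F, ∑ b ∈ F.erase a, W a b ≤ S) (J : ℕ) (hJ : 0 < J) :
    ∃ G : Finset α, G ⊆ F ∧ F.card ≤ J * G.card ∧
      ∀ a ∈ G, ∑ b ∈ G.erase a, W a b ≤ S / J := 
  Pool.Agent.TH461.J963.coloring F W hW0 hsymm S hS J hJ

theorem lintegral_pi_le_update {ι : Type*} [Fintype ι] [DecidableEq ι] (μ : ι → Measure ℂ)
    [∀ i, IsProbabilityMeasure (μ i)] (i : ι) (f : (ι → ℂ) → ℝ≥0∞) (hf : Measurable f)
    (b : ℝ≥0∞) (h : ∀ x : ι → ℂ, ∫⁻ t, f (Function.update x i t) ∂μ i ≤ b) :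
    ∫⁻ x, f x ∂Measure.pi μ ≤ b := 
  Pool.Agent.TH182.J446.lintegral_pi_le_update μ i f hf b h

theorem lintegral_pi_le_update2 {ι : Type*} [Fintype ι] [DecidableEq ι] (μ : ι → Measure ℂ)
    [∀ i, IsProbabilityMeasure (μ i)] (a i : ι) (hai : a ≠ i) (f : (ι → ℂ) → ℝ≥0∞)
    (hf : Measurable f) (b : ℝ≥0∞)
    (h : ∀ x : ι → ℂ,
      ∫⁻ t, ∫⁻ s, f (Function.update (Function.update x a s) i t) ∂μ a ∂μ i ≤ b) :
    ∫⁻ x, f x ∂Measure.pi μ ≤ b := 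
  Pool.Agent.TH182.J446.lintegral_pi_le_update2 μ a i hai f hf b h

open Classical in
theorem count_lower {ι : Type*} [Fintype ι] (μ : ι → Measure ℂ)
    [∀ i, IsProbabilityMeasure (μ i)] (B : Set ℂ) (hB : MeasurableSet B)
    (hpos : 0 < ∑ i, (μ i B).toReal) :
    (Measure.pi μ) {x : ι → ℂ | ((univ.filter (fun i => x i ∈ B)).card : ℝ)
        < (∑ i, (μ i B).toReal) / 2} ≤ ENNReal.ofReal (4 / ∑ i, (μ i B).toReal) := 
  Pool.Agent.TH182.J447.count_lower μ B hB hpos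
end Pool.Agent.TH963
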