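import Mathlib
import Pool.Agent.TH963.EQ
import Pool.Agent.TH963.Stub

set_option autoImplicit false
set_option linter.unusedVariables false
set_option linter.unusedSectionVars false

namespace Pool.Agent.TH963
open Finset Pool.Agent.H704R3 Polynomial

section
variable {ι : Type*} [DecidableEq ι]

lemma es_coeff (x : ι → ℂ) (S : Finset ι) : ∀ k : ℕ,
    (∏ i ∈ S, (1 + C (x i) * X) : ℂ[X]).coeff k = es S k x := by
  induction S using Finset.induction_on with
  | empty =>
    intro k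
    cases k with
    | zero => simp
    | succ k => rw [es_empty]; simp [coeff_one]
  | insert a S ha ih =>
    intro k
    rw [prod_insert ha, add_mul, one_mul, coeff_add, mul_assoc, coeff_C_mul]
    cases k with
    | zero => simp [ih]
    | succ k => rw [coeff_X_mul, ih, ih, es_insert ha]

theorem interp_es (x : ι → ℂ) (U S : Finset ι) (hSU : S ⊆ U) (hinj : Set.InjOn x S) (s m : ℕ)
    (hm : S.card = m + 1) (hs : s ≤ m) (k : ℕ) :
    ∑ l ∈ S, ((-x l) ^ s / ∏ j ∈ S.erase l, (x j - x l)) * es (U.erase l) k x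
      = if m - s ≤ k then es (U \ S) (k - (m - s)) x else 0 := by
  have h := congrArg (fun p : ℂ[X] => (p * ∏ i ∈ U \ S, (1 + C (x i) * X)).coeff k)
    (interp_identity x S hinj s m hm hs)
  simp only [coeff_X_pow_mul', sum_mul, finsetSum_coeff, es_coeff] at h
  rw [h]
  apply sum_congr rfl
  intro l hl
  rw [mul_assoc, coeff_C_mul]
  congr 1
  rw [← prod_union, es_coeff]
  · congr 1
    ext j
    simp only [mem_erase, mem_union, mem_sdiff]
    constructor
    · rintro ⟨h1, h2⟩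
      by_cases h3 : j ∈ S
      · exact Or.inl ⟨h1, h3⟩
      · exact Or.inr ⟨h2, h3⟩
    · rintro (⟨h1, h2⟩ | ⟨h1, h2⟩)
      · exact ⟨h1, hSU h2⟩
      · exact ⟨fun h4 => h2 (h4 ▸ hl), h1⟩
  · rw [disjoint_left]
    intro j hj hj'
    exact (mem_sdiff.mp hj').2 (mem_of_mem_erase hj)

lemma es_norm_le_PM (x : ι → ℂ) (T U : Finset ι) (hT : T ⊆ U) (k : ℕ) :
    ‖es T k x‖ ≤ KK x U * PM x T := by
  rw [← VV_mul]
  have := VV_le_KK x T k
  have h2 := KK_mono x hT
  have h3 := PM_pos x T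
  gcongr
  linarith

theorem int_ineq (x : ι → ℂ) (U : Finset ι) (i : ι) (Gs : Finset ι) (hi : i ∈ U) (hG : Gs ⊆ U)
    (hiG : i ∉ Gs) (hinj : Set.InjOn x (insert i Gs : Finset ι)) (k : ℕ) :
    VV x (U.erase i) k ≤ KK x U * ∏ j ∈ Gs, ch (x i) (x j)
      + ∑ l ∈ Gs, VV x (U.erase l) k * ∏ j ∈ Gs.erase l, (ch (x i) (x j) / ch (x l) (x j)) := by
  classical
  set m := Gs.card with hm
  obtain ⟨s, hsm, hs⟩ : ∃ s : ℕ, s ≤ m ∧ ‖x i‖ ^ s = mx (x i) ^ m := by
    rcases mx_cases (x i) with ⟨h, _⟩ | ⟨h, _⟩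
    · exact ⟨0, Nat.zero_le _, by rw [h]; simp⟩
    · exact ⟨m, le_rfl, by rw [h]⟩
  have hcard : (insert i Gs).card = m + 1 := card_insert_of_notMem hiG
  have hSU : insert i Gs ⊆ U := insert_subset hi hG
  have key := interp_es x U (insert i Gs) hSU hinj s m hcard hsm k
  set E : ℂ := if m - s ≤ k then es (U \ insert i Gs) (k - (m - s)) x else 0 with hE
  have hKpos : 0 < KK x U := lt_of_lt_of_le one_pos (one_le_KK x U)
  have hEb : ‖E‖ ≤ KK x U * PM x (U \ insert i Gs) := by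
    rw [hE]
    split_ifs
    · exact es_norm_le_PM x _ U sdiff_subset _
    · rw [norm_zero]
      exact (mul_pos hKpos (PM_pos _ _)).le
  have hne : ∀ a ∈ insert i Gs, ∀ b ∈ insert i Gs, a ≠ b → x a - x b ≠ 0 := by
    intro a ha b hb hab h0
    exact hab (hinj (by exact_mod_cast ha) (by exact_mod_cast hb) (sub_eq_zero.mp h0))
  have hii : (insert i Gs).erase i = Gs := erase_insert hiG
  rw [sum_insert hiG, hii] at key
  set Q : ℂ := ∏ j ∈ Gs, (x j - x i) with hQ
  have hQ0 : Q ≠ 0 := by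
    rw [hQ, prod_ne_zero_iff]
    intro j hj
    exact hne j (mem_insert_of_mem hj) i (mem_insert_self _ _) (fun h => hiG (h ▸ hj))
  have hterm : ∀ l ∈ Gs, ((-x l) ^ s / ∏ j ∈ (insert i Gs).erase l, (x j - x l))
      * es (U.erase l) k x * Q
      = - ((-x l) ^ s * es (U.erase l) k x * ∏ j ∈ Gs.erase l, ((x j - x i) / (x j - x l))) := by
    intro l hl
    have hil : i ≠ l := fun h => hiG (h ▸ hl)
    have e1 : (insert i Gs).erase l = insert i (Gs.erase l) := erase_insert_of_ne hil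
    have hi' : i ∉ Gs.erase l := fun h => hiG (mem_of_mem_erase h)
    rw [e1, prod_insert hi', hQ, ← mul_prod_erase Gs _ hl, prod_div_distrib]
    have hn1 : x i - x l ≠ 0 := hne i (mem_insert_self _ _) l (mem_insert_of_mem hl) hil
    have hn2 : ∏ j ∈ Gs.erase l, (x j - x l) ≠ 0 := by
      rw [prod_ne_zero_iff]
      intro j hj
      exact hne j (mem_insert_of_mem (mem_of_mem_erase hj)) l (mem_insert_of_mem hl)
        (ne_of_mem_erase hj)
    have e2 : x l - x i = -(x i - x l) := by ring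
    rw [e2]
    field_simp
  have key2 : (-x i) ^ s * es (U.erase i) k x = Q * E
      + ∑ l ∈ Gs, (-x l) ^ s * es (U.erase l) k x * ∏ j ∈ Gs.erase l, ((x j - x i) / (x j - x l)) := by
    have h1 : (((-x i) ^ s / Q) * es (U.erase i) k x
      + ∑ l ∈ Gs, ((-x l) ^ s / ∏ j ∈ (insert i Gs).erase l, (x j - x l)) * es (U.erase l) k x) * Q
      = E * Q := by rw [key]
    rw [add_mul, sum_mul, sum_congr rfl hterm, sum_neg_distrib] at h1
    have h2 : (-x i) ^ s / Q * es (U.erase i) k x * Q = (-x i) ^ s * es (U.erase i) k x := by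
      field_simp
    rw [h2] at h1
    linear_combination h1
  have hPi := PM_pos x (U.erase i)
  have hmi := mx_pos (x i)
  -- norms
  have hPMi : PM x (U.erase i) = PM x Gs * PM x (U \ insert i Gs) := by
    unfold PM
    rw [← prod_union]
    · congr 1
      ext j
      simp only [mem_erase, mem_union, mem_sdiff, mem_insert, not_or]
      constructor
      · rintro ⟨h1, h2⟩
        by_cases h3 : j ∈ Gs
        · exact Or.inl h3
        · exact Or.inr ⟨h2, h1, h3⟩
      · rintro (h1 | ⟨h1, h2, _⟩)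
        · exact ⟨fun h => hiG (h ▸ h1), hG h1⟩
        · exact ⟨h2, h1⟩
    · rw [disjoint_left]
      intro j hj hj'
      exact (mem_sdiff.mp hj').2 (mem_insert_of_mem hj)
  have hfirst : ‖Q * E‖ ≤ mx (x i) ^ m * PM x (U.erase i) * (KK x U * ∏ j ∈ Gs, ch (x i) (x j)) := by
    have hQn : ‖Q‖ = mx (x i) ^ m * PM x Gs * ∏ j ∈ Gs, ch (x i) (x j) := by
      rw [hQ, norm_prod]
      have : ∀ j ∈ Gs, ‖x j - x i‖ = mx (x i) * mx (x j) * ch (x i) (x j) := by
        intro j _
        rw [norm_sub_rev, ← ch_mul (x i) (x j)]; ring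
      rw [prod_congr rfl this, prod_mul_distrib, prod_mul_distrib, prod_const, ← hm]
      rfl
    rw [norm_mul, hQn, hPMi]
    have hc : 0 ≤ ∏ j ∈ Gs, ch (x i) (x j) := prod_nonneg (fun _ _ => ch_nonneg _ _)
    have hP1 := PM_pos x Gs
    calc _ ≤ mx (x i) ^ m * PM x Gs * (∏ j ∈ Gs, ch (x i) (x j))
          * (KK x U * PM x (U \ insert i Gs)) := by gcongr
      _ = _ := by ring
  have hsecond : ∀ l ∈ Gs, ‖(-x l) ^ s * es (U.erase l) k x
      * ∏ j ∈ Gs.erase l, ((x j - x i) / (x j - x l))‖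
      ≤ mx (x i) ^ m * PM x (U.erase i)
        * (VV x (U.erase l) k * ∏ j ∈ Gs.erase l, (ch (x i) (x j) / ch (x l) (x j))) := by
    intro l hl
    have hml := mx_pos (x l)
    rw [norm_mul, norm_mul, norm_pow, norm_neg, norm_prod]
    have h1 : ∀ j ∈ Gs.erase l, ‖(x j - x i) / (x j - x l)‖
        = (mx (x i) / mx (x l)) * (ch (x i) (x j) / ch (x l) (x j)) := by
      intro j hj
      have hjl : x j - x l ≠ 0 := hne j (mem_insert_of_mem (mem_of_mem_erase hj)) l
        (mem_insert_of_mem hl) (ne_of_mem_erase hj)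
      have hc : ch (x l) (x j) ≠ 0 := by
        intro h0
        exact hjl (sub_eq_zero.mpr (ch_eq_zero.mp h0).symm)
      have hmj := mx_pos (x j)
      rw [norm_div, norm_sub_rev (x j) (x i), norm_sub_rev (x j) (x l), ← ch_mul (x i) (x j),
        ← ch_mul (x l) (x j)]
      field_simp
    rw [prod_congr rfl h1, prod_mul_distrib, prod_const, card_erase_of_mem hl, ← hm]
    have hmpos : 0 < m := by rw [hm]; exact card_pos.mpr ⟨l, hl⟩
    have h2 : ‖x l‖ ^ s ≤ mx (x l) ^ m := by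
      calc ‖x l‖ ^ s ≤ mx (x l) ^ s := by gcongr; exact norm_le_mx _
        _ ≤ mx (x l) ^ m := pow_le_pow_right₀ (one_le_mx _) hsm
    have h3 : ‖es (U.erase l) k x‖ * mx (x l) = VV x (U.erase l) k * (PM x (U.erase i) * mx (x i)) := by
      rw [← VV_mul, mul_assoc, mul_comm (PM x (U.erase l)), PM_erase x (hG hl),
        mul_comm (PM x (U.erase i)), PM_erase x hi]
    have hr : 0 ≤ ∏ j ∈ Gs.erase l, (ch (x i) (x j) / ch (x l) (x j)) :=
      prod_nonneg (fun _ _ => div_nonneg (ch_nonneg _ _) (ch_nonneg _ _))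
    obtain ⟨m', hm'⟩ : ∃ m', m = m' + 1 := ⟨m - 1, by omega⟩
    rw [hm'] at h2
    rw [hm', Nat.add_sub_cancel]
    set R := ∏ j ∈ Gs.erase l, (ch (x i) (x j) / ch (x l) (x j))
    calc ‖x l‖ ^ s * ‖es (U.erase l) k x‖ * ((mx (x i) / mx (x l)) ^ m' * R)
        ≤ mx (x l) ^ (m'+1) * ‖es (U.erase l) k x‖ * ((mx (x i) / mx (x l)) ^ m' * R) := by gcongr
      _ = (‖es (U.erase l) k x‖ * mx (x l)) * (mx (x l) ^ m' * (mx (x i) / mx (x l)) ^ m') * R := by
          ring
      _ = (‖es (U.erase l) k x‖ * mx (x l)) * (mx (x i) ^ m') * R := by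
          rw [← mul_pow, mul_div_cancel₀ _ hml.ne']
      _ = _ := by rw [h3]; ring
  have hnorm : mx (x i) ^ m * PM x (U.erase i) * VV x (U.erase i) k
      = ‖(-x i) ^ s * es (U.erase i) k x‖ := by
    rw [norm_mul, norm_pow, norm_neg, hs, ← VV_mul]; ring
  have hfin : mx (x i) ^ m * PM x (U.erase i) * VV x (U.erase i) k
      ≤ mx (x i) ^ m * PM x (U.erase i) * (KK x U * ∏ j ∈ Gs, ch (x i) (x j)
      + ∑ l ∈ Gs, VV x (U.erase l) k * ∏ j ∈ Gs.erase l, (ch (x i) (x j) / ch (x l) (x j))) := by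
    rw [hnorm, key2, mul_add, mul_sum]
    refine (norm_add_le _ _).trans (add_le_add hfirst ?_)
    exact (norm_sum_le _ _).trans (sum_le_sum hsecond)
  exact le_of_mul_le_mul_left hfin (by positivity)

end
end Pool.Agent.TH963
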