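import Mathlib
import Pool.Agent.TH963.EI

set_option autoImplicit false
set_option linter.unusedVariables false
set_option linter.unusedSectionVars false

namespace Pool.Agent.TH963
open Finset Pool.Agent.H704R3 Polynomial

section
variable {ι : Type*} [DecidableEq ι]

/-- `k+1` well conditioned good nodes force all low coefficients to be small -/
theorem nodes_small (x : ι → ℂ) (U G : Finset ι) (hG : G ⊆ U) (k : ℕ) (hc : G.card = k + 1)
    (η2 ηc : ℝ) (hη2 : 0 ≤ η2) (hηc : 0 < ηc)
    (hv : ∀ a ∈ G, VV x (U.erase a) k ≤ η2)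
    (hcond : ∀ a ∈ G, ηc ≤ ∏ b ∈ G.erase a, ch (x a) (x b)) (t : ℕ) (ht : t ≤ k) :
    VV x (U \ G) t ≤ ((k:ℝ)+1) * (η2 / ηc) := by
  classical
  have hinj : Set.InjOn x G := by
    intro a ha b hb hab
    by_contra hne
    have h1 := hcond a (by exact_mod_cast ha)
    have h2 : ∏ b ∈ G.erase a, ch (x a) (x b) = 0 := by
      apply prod_eq_zero (mem_erase.mpr ⟨Ne.symm hne, (by exact_mod_cast hb)⟩)
      rw [hab]; exact ch_self _
    rw [h2] at h1
    linarith
  have key := interp_es x U G hG hinj t k hc ht k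
  have hkt : k - (k - t) = t := by omega
  rw [if_pos (Nat.sub_le _ _), hkt] at key
  have hP := PM_pos x (U \ G)
  rw [VV_eq, div_le_iff₀ hP, ← key]
  have hterm : ∀ l ∈ G, ‖((-x l) ^ t / ∏ j ∈ G.erase l, (x j - x l)) * es (U.erase l) k x‖
      ≤ (η2 / ηc) * PM x (U \ G) := by
    intro l hl
    have hml := mx_pos (x l)
    have h1 : ‖∏ j ∈ G.erase l, (x j - x l)‖
        = mx (x l) ^ k * PM x (G.erase l) * ∏ j ∈ G.erase l, ch (x l) (x j) := by
      rw [norm_prod]
      have : ∀ j ∈ G.erase l, ‖x j - x l‖ = mx (x l) * mx (x j) * ch (x l) (x j) := by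
        intro j _
        rw [norm_sub_rev, ← ch_mul (x l) (x j)]; ring
      rw [prod_congr rfl this, prod_mul_distrib, prod_mul_distrib, prod_const,
        card_erase_of_mem hl, hc]
      rfl
    have h2 : PM x (U.erase l) = PM x (G.erase l) * PM x (U \ G) := by
      unfold PM
      rw [← prod_union]
      · congr 1
        ext j
        simp only [mem_erase, mem_union, mem_sdiff]
        constructor
        · rintro ⟨h1, h2⟩
          by_cases h3 : j ∈ G
          · exact Or.inl ⟨h1, h3⟩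
          · exact Or.inr ⟨h2, h3⟩
        · rintro (⟨h1, h2⟩ | ⟨h1, h2⟩)
          · exact ⟨h1, hG h2⟩
          · exact ⟨fun h4 => h2 (h4 ▸ hl), h1⟩
      · rw [disjoint_left]
        intro j hj hj'
        exact (mem_sdiff.mp hj').2 (mem_of_mem_erase hj)
    have hPl := PM_pos x (G.erase l)
    have hc1 := hcond l hl
    have hc2 : 0 < ∏ j ∈ G.erase l, ch (x l) (x j) := lt_of_lt_of_le hηc hc1
    rw [norm_mul, norm_div, h1, norm_pow, norm_neg, ← VV_mul, h2]
    have h3 : ‖x l‖ ^ t ≤ mx (x l) ^ k := by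
      calc ‖x l‖ ^ t ≤ mx (x l) ^ t := by gcongr; exact norm_le_mx _
        _ ≤ mx (x l) ^ k := pow_le_pow_right₀ (one_le_mx _) ht
    have h4 := hv l hl
    have h5 := VV_nonneg x (U.erase l) k
    calc ‖x l‖ ^ t / (mx (x l) ^ k * PM x (G.erase l) * ∏ j ∈ G.erase l, ch (x l) (x j))
          * (VV x (U.erase l) k * (PM x (G.erase l) * PM x (U \ G)))
        ≤ mx (x l) ^ k / (mx (x l) ^ k * PM x (G.erase l) * ∏ j ∈ G.erase l, ch (x l) (x j))
          * (η2 * (PM x (G.erase l) * PM x (U \ G))) := by gcongr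
      _ = (η2 / ∏ j ∈ G.erase l, ch (x l) (x j)) * PM x (U \ G) := by
          field_simp
      _ ≤ (η2 / ηc) * PM x (U \ G) := by gcongr
  calc ‖∑ l ∈ G, ((-x l) ^ t / ∏ j ∈ G.erase l, (x j - x l)) * es (U.erase l) k x‖
      ≤ ∑ l ∈ G, ‖((-x l) ^ t / ∏ j ∈ G.erase l, (x j - x l)) * es (U.erase l) k x‖ :=
        norm_sum_le _ _
    _ ≤ ∑ l ∈ G, (η2 / ηc) * PM x (U \ G) := sum_le_sum hterm
    _ = _ := by rw [sum_const, hc, nsmul_eq_mul]; push_cast; ring

lemma VV_add_le (x : ι → ℂ) (T G : Finset ι) (hd : Disjoint T G) (k : ℕ) (B : ℝ)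
    (hB : ∀ j ≤ k, VV x T j ≤ B) : ∀ j ≤ k, VV x (T ∪ G) j ≤ 2 ^ G.card * B := by
  induction G using Finset.induction_on with
  | empty => simpa using hB
  | insert a G ha ih =>
    have hd' : Disjoint T G := by
      rw [disjoint_left] at hd ⊢
      intro b hb hb'
      exact hd hb (mem_insert_of_mem hb')
    have haT : a ∉ T := fun h => (disjoint_left.mp hd) h (mem_insert_self _ _)
    have haTG : a ∉ T ∪ G := by simp [haT, ha]
    have ih' := ih hd'
    have hun : T ∪ insert a G = insert a (T ∪ G) := by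
      ext b; simp only [mem_union, mem_insert]; tauto
    intro j hj
    rw [hun, card_insert_of_notMem ha]
    have hP := PM_pos x (T ∪ G)
    have hm := mx_pos (x a)
    have hB0 : 0 ≤ B := (VV_nonneg x T 0).trans (hB 0 (Nat.zero_le _))
    rw [VV_eq, PM_insert x haTG, div_le_iff₀ (mul_pos hm hP)]
    have hh : ∀ j ≤ k, ‖es (T ∪ G) j x‖ ≤ 2 ^ G.card * B * PM x (T ∪ G) := by
      intro j hj
      rw [← VV_mul]
      have := ih' j hj
      gcongr
    have h1 := one_le_mx (x a)
    have h2 := norm_le_mx (x a)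
    cases j with
    | zero =>
      have := hh 0 (Nat.zero_le _)
      rw [es_zero] at this ⊢
      rw [pow_succ]
      have h3 : 0 ≤ 2 ^ G.card * B * PM x (T ∪ G) := by positivity
      nlinarith
    | succ j =>
      rw [es_insert haTG]
      have h3 := hh (j+1) hj
      have h4 := hh j (by omega)
      have h5 : 0 ≤ 2 ^ G.card * B * PM x (T ∪ G) := by positivity
      calc ‖es (T ∪ G) (j+1) x + x a * es (T ∪ G) j x‖
          ≤ ‖es (T ∪ G) (j+1) x‖ + ‖x a‖ * ‖es (T ∪ G) j x‖ := by
            refine (norm_add_le _ _).trans ?_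
            rw [norm_mul]
        _ ≤ 2 ^ G.card * B * PM x (T ∪ G) + mx (x a) * (2 ^ G.card * B * PM x (T ∪ G)) := by
            gcongr
        _ ≤ 2 ^ (G.card+1) * B * (mx (x a) * PM x (T ∪ G)) := by
            rw [pow_succ]
            nlinarith

/-- removing small variables -/
lemma remove_small (x : ι → ℂ) (S3 T : Finset ι) (hd : Disjoint S3 T) (k : ℕ) (r : ℝ) (hr0 : 0 ≤ r)
    (hr : r < 1) (hT : ∀ i ∈ T, ‖x i‖ ≤ r) (B : ℝ) (hB : ∀ j ≤ k, ‖es (S3 ∪ T) j x‖ ≤ B) :
    ∀ j ≤ k, ‖es S3 j x‖ * (1 - r) ^ T.card ≤ B := by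
  induction T using Finset.induction_on generalizing B with
  | empty => simpa using hB
  | insert a T ha ih =>
    have hd' : Disjoint S3 T := by
      rw [disjoint_left] at hd ⊢
      intro b hb hb'
      exact hd hb (mem_insert_of_mem hb')
    have haS : a ∉ S3 := fun h => (disjoint_left.mp hd) h (mem_insert_self _ _)
    have haST : a ∉ S3 ∪ T := by simp [haS, ha]
    have hun : S3 ∪ insert a T = insert a (S3 ∪ T) := by
      ext b; simp only [mem_union, mem_insert]; tauto
    rw [hun] at hB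
    have hxa : ‖x a‖ ≤ r := hT a (mem_insert_self _ _)
    have h1r : 0 < 1 - r := by linarith
    have step : ∀ j ≤ k, ‖es (S3 ∪ T) j x‖ ≤ B / (1 - r) := by
      intro j
      induction j with
      | zero =>
        intro _
        have := hB 0 (Nat.zero_le _)
        rw [es_zero] at this ⊢
        rw [le_div_iff₀ h1r]
        rw [norm_one] at this ⊢
        linarith
      | succ j ihj =>
        intro hj
        have h1 := hB (j+1) hj
        have h2 := ihj (by omega)
        rw [es_insert haST] at h1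
        rw [le_div_iff₀ h1r] at h2 ⊢
        have h3 : ‖es (S3 ∪ T) (j+1) x‖ ≤ ‖es (S3 ∪ T) (j+1) x + x a * es (S3 ∪ T) j x‖
            + ‖x a‖ * ‖es (S3 ∪ T) j x‖ := by
          have e : es (S3 ∪ T) (j+1) x = (es (S3 ∪ T) (j+1) x + x a * es (S3 ∪ T) j x)
            - x a * es (S3 ∪ T) j x := by ring
          calc ‖es (S3 ∪ T) (j+1) x‖ = ‖(es (S3 ∪ T) (j+1) x + x a * es (S3 ∪ T) j x)
            - x a * es (S3 ∪ T) j x‖ := by rw [← e]
            _ ≤ _ := by
              refine (norm_sub_le _ _).trans ?_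
              rw [norm_mul]
        have h4 : ‖x a‖ * ‖es (S3 ∪ T) j x‖ ≤ r * ‖es (S3 ∪ T) j x‖ := by gcongr
        nlinarith
    have := ih hd' (fun i hi => hT i (mem_insert_of_mem hi)) (B / (1 - r)) step
    intro j hj
    have h5 := this j hj
    rw [le_div_iff₀ h1r] at h5
    rw [card_insert_of_notMem ha, pow_succ]
    linarith

/-- some low coefficient is not small -/
theorem lower (x : ι → ℂ) (U S3 : Finset ι) (hS : S3 ⊆ U) (k : ℕ) (hk : S3.card ≤ k) (a r : ℝ)
    (ha0 : 0 ≤ a) (ha1 : a ≤ 1) (hr0 : 0 ≤ r) (hr : r < 1)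
    (hsmall : ∀ i ∈ U \ S3, ‖x i‖ ≤ r) (hlarge : ∀ i ∈ S3, a ≤ ‖x i‖) :
    ∃ j ≤ k, a ^ k * (1 - r) ^ U.card ≤ VV x U j := by
  classical
  by_contra hcon
  push Not at hcon
  have hP := PM_pos x U
  set B0 := a ^ k * (1 - r) ^ U.card with hB0
  -- strict upper bound attained by a maximum
  obtain ⟨j0, hj0, hmax⟩ := exists_max_image (range (k+1)) (fun j => VV x U j) ⟨0, by simp⟩
  set B1 := VV x U j0 with hB1
  have hB1lt : B1 < B0 := hcon j0 (by have := mem_range.mp hj0; omega)
  have hB : ∀ j ≤ k, ‖es (S3 ∪ (U \ S3)) j x‖ ≤ B1 * PM x U := by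
    intro j hj
    rw [union_sdiff_of_subset hS, ← VV_mul]
    have := hmax j (mem_range.mpr (by omega))
    gcongr
  have h1 := remove_small x S3 (U \ S3) disjoint_sdiff k r hr0 hr hsmall _ hB S3.card hk
  have h2 : es S3 S3.card x = ∏ i ∈ S3, x i := by
    unfold es
    rw [powersetCard_self, sum_singleton]
  have h3 : PM x U = PM x S3 := by
    unfold PM
    rw [← prod_sdiff hS]
    have : ∏ i ∈ U \ S3, mx (x i) = 1 := by
      apply prod_eq_one
      intro i hi
      have := hsmall i hi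
      unfold mx
      exact max_eq_left (by linarith)
    rw [this, one_mul]
  have h4 : a ^ S3.card * PM x S3 ≤ ‖∏ i ∈ S3, x i‖ := by
    rw [norm_prod, ← prod_const, PM, ← prod_mul_distrib]
    apply prod_le_prod
    · intro i _; exact mul_nonneg ha0 (mx_pos _).le
    · intro i hi
      rcases mx_cases (x i) with ⟨h, _⟩ | ⟨h, _⟩
      · rw [h, mul_one]; exact hlarge i hi
      · rw [h]
        have := norm_nonneg (x i)
        nlinarith
  have h5 : a ^ k ≤ a ^ S3.card := pow_le_pow_of_le_one ha0 ha1 hk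
  have h6 : (1 - r) ^ U.card ≤ (1 - r) ^ (U \ S3).card :=
    pow_le_pow_of_le_one (by linarith) (by linarith) (card_le_card sdiff_subset)
  rw [h2, h3] at h1
  have hP3 := PM_pos x S3
  have h7 : a ^ k * (1 - r) ^ U.card * PM x S3 ≤ B1 * PM x S3 := by
    calc a ^ k * (1 - r) ^ U.card * PM x S3 ≤ a ^ S3.card * (1 - r) ^ (U \ S3).card * PM x S3 := by
          gcongr
      _ = (a ^ S3.card * PM x S3) * (1 - r) ^ (U \ S3).card := by ring
      _ ≤ ‖∏ i ∈ S3, x i‖ * (1 - r) ^ (U \ S3).card := by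
          gcongr
      _ ≤ _ := h1
  have h8 := le_of_mul_le_mul_right h7 hP3
  linarith

end
end Pool.Agent.TH963
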