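import Mathlib
import Pool.Agent.TH963.EL

set_option autoImplicit false
set_option linter.unusedVariables false
set_option linter.unusedSectionVars false

namespace Pool.Agent.TH963
open Finset Pool.Agent.H704R3

section
variable {ι : Type*} [DecidableEq ι]

/-- normalised residue -/
noncomputable def rho (x : ι → ℂ) (U : Finset ι) (k : ℕ) (i : ι) : ℂ :=
  x i * es (U.erase i) k x / (PM x U : ℂ)

lemma PMc_ne (x : ι → ℂ) (U : Finset ι) : (PM x U : ℂ) ≠ 0 := by
  exact_mod_cast (PM_pos x U).ne'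

lemma rho_norm (x : ι → ℂ) (U : Finset ι) (k : ℕ) (i : ι) (hi : i ∈ U) :
    ‖rho x U k i‖ = ‖x i‖ / mx (x i) * VV x (U.erase i) k := by
  unfold rho
  have h1 := PM_pos x U
  have h2 := PM_pos x (U.erase i)
  have h3 := mx_pos (x i)
  rw [norm_div, norm_mul, Complex.norm_real, Real.norm_of_nonneg h1.le, VV_eq, ← PM_erase x hi]
  field_simp

lemma rho_le (x : ι → ℂ) (U : Finset ι) (k : ℕ) (i : ι) (hi : i ∈ U) :
    ‖rho x U k i‖ ≤ VV x (U.erase i) k := by
  rw [rho_norm x U k i hi]
  have h1 := VV_nonneg x (U.erase i) k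
  have h2 : ‖x i‖ / mx (x i) ≤ 1 := by
    rw [div_le_one (mx_pos _)]; exact norm_le_mx _
  have h3 : 0 ≤ ‖x i‖ / mx (x i) := div_nonneg (norm_nonneg _) (mx_pos _).le
  nlinarith

lemma pair_norm (x : ι → ℂ) (U : Finset ι) (k : ℕ) {a i : ι} (ha : a ∈ U) (hi : i ∈ U.erase a) :
    ‖es ((U.erase a).erase i) k x / (PM x U : ℂ)‖
      = VV x ((U.erase a).erase i) k / (mx (x a) * mx (x i)) := by
  have h1 := PM_pos x U
  have h2 := PM_pos x ((U.erase a).erase i)
  have h3 := mx_pos (x i)
  have h4 := mx_pos (x a)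
  rw [norm_div, Complex.norm_real, Real.norm_of_nonneg h1.le, VV_eq, ← PM_erase x ha,
    ← PM_erase x hi]
  field_simp

lemma rho_sub (x : ι → ℂ) (U : Finset ι) (k : ℕ) {a i : ι} (ha : a ∈ U) (hi : i ∈ U.erase a) :
    rho x U k a - rho x U k i = (x a - x i) * (es ((U.erase a).erase i) k x / (PM x U : ℂ)) := by
  unfold rho
  have := pair_identity U x k ha (mem_of_mem_erase hi) (ne_of_mem_erase hi).symm
  rw [← sub_div, this]; ring

theorem close_small (x : ι → ℂ) (U : Finset ι) (k : ℕ) (a : ι) (ha : a ∈ U) (d0 η2 η3 : ℝ)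
    (hd0 : 0 < d0) (h3 : 0 ≤ η3) (h23 : η2 ≤ d0 * η3)
    (hva : VV x (U.erase a) k ≤ η2)
    (hpair : ∀ i ∈ U.erase a, ch (x i) (x a) < d0 → VV x ((U.erase a).erase i) k ≤ η3)
    (i : ι) (hi : i ∈ U) (hcl : ch (x i) (x a) < d0) : ‖rho x U k i‖ ≤ 2 * d0 * η3 := by
  have hra := rho_le x U k a ha
  by_cases hia : i = a
  · subst hia
    have : 0 ≤ d0 * η3 := by positivity
    linarith
  · have hi' : i ∈ U.erase a := mem_erase.mpr ⟨hia, hi⟩
    have h := rho_sub x U k ha hi'
    have e : rho x U k i = rho x U k a - (x a - x i) * (es ((U.erase a).erase i) k x / (PM x U : ℂ)) := by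
      rw [← h]; ring
    have h4 := hpair i hi' hcl
    have h5 : ‖(x a - x i) * (es ((U.erase a).erase i) k x / (PM x U : ℂ))‖
        = ch (x i) (x a) * VV x ((U.erase a).erase i) k := by
      rw [norm_mul, pair_norm x U k ha hi', norm_sub_rev, ← ch_mul (x i) (x a)]
      have := mx_pos (x a); have := mx_pos (x i)
      field_simp
    have h6 := VV_nonneg x ((U.erase a).erase i) k
    have h7 := ch_nonneg (x i) (x a)
    calc ‖rho x U k i‖ ≤ ‖rho x U k a‖ + ‖(x a - x i) * (es ((U.erase a).erase i) k x / (PM x U : ℂ))‖ := by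
          rw [e]; exact norm_sub_le _ _
      _ ≤ η2 + d0 * η3 := by
          rw [h5]
          have : ch (x i) (x a) * VV x ((U.erase a).erase i) k ≤ d0 * η3 := by gcongr
          linarith
      _ ≤ _ := by linarith

open Classical in
theorem node_small (x : ι → ℂ) (U : Finset ι) (k : ℕ) (hk : k ≤ U.card) (a : ι) (ha : a ∈ U)
    (d0 η2 η3 : ℝ) (hd0 : 0 < d0) (hd1 : d0 ≤ 1) (h2 : 0 ≤ η2) (h3 : 0 ≤ η3) (h23 : η2 ≤ d0 * η3)
    (hva : VV x (U.erase a) k ≤ η2)
    (hpair : ∀ i ∈ U.erase a, ch (x i) (x a) < d0 → VV x ((U.erase a).erase i) k ≤ η3) :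
    ‖∑ i ∈ U.filter (fun i => 2 * d0 * η3 < ‖rho x U k i‖), rho x U k i / (x a - x i)‖
      ≤ 5 * U.card * η3 / mx (x a) := by
  set J := U.filter (fun i => 2 * d0 * η3 < ‖rho x U k i‖) with hJ
  set NC := (U.erase a).filter (fun i => d0 ≤ ch (x i) (x a)) with hNC
  set CL := (U.erase a).filter (fun i => ¬ d0 ≤ ch (x i) (x a)) with hCL
  have hma := mx_pos (x a)
  have h1ma := one_le_mx (x a)
  have hJNC : J ⊆ NC := by
    intro i hi
    rw [hJ, mem_filter] at hi
    have h := close_small x U k a ha d0 η2 η3 hd0 h3 h23 hva hpair i hi.1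
    rw [hNC, mem_filter, mem_erase]
    refine ⟨⟨?_, hi.1⟩, ?_⟩
    · rintro rfl
      have := h (by rw [ch_self]; exact hd0)
      linarith [hi.2]
    · by_contra hlt
      have := h (not_le.mp hlt)
      linarith [hi.2]
  have hNCne : ∀ i ∈ NC, x a - x i ≠ 0 := by
    intro i hi h0
    rw [hNC, mem_filter] at hi
    have : x i = x a := (sub_eq_zero.mp h0).symm
    rw [this, ch_self] at hi
    linarith [hi.2]
  have hinv : ∀ i ∈ NC, ‖(x a - x i)⁻¹‖ ≤ 1 / (d0 * mx (x a)) := by
    intro i hi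
    have hi2 := (mem_filter.mp hi).2
    have h1mi := one_le_mx (x i)
    rw [norm_inv, ← one_div, norm_sub_rev, ← ch_mul (x i) (x a)]
    apply one_div_le_one_div_of_le (by positivity)
    have hch := ch_nonneg (x i) (x a)
    calc d0 * mx (x a) ≤ ch (x i) (x a) * mx (x a) := by gcongr
      _ ≤ ch (x i) (x a) * (mx (x i) * mx (x a)) := by
          gcongr
          nlinarith
  have heuler : ∑ i ∈ NC, es ((U.erase a).erase i) k x / (PM x U : ℂ)
      + ∑ i ∈ CL, es ((U.erase a).erase i) k x / (PM x U : ℂ)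
      = (((U.erase a).card : ℂ) - k) * (es (U.erase a) k x / (PM x U : ℂ)) := by
    rw [hNC, hCL, sum_filter_add_sum_filter_not, ← sum_div, sum_es_erase]
    ring
  have hNCterm : ∀ i ∈ NC, rho x U k i / (x a - x i)
      = rho x U k a * (x a - x i)⁻¹ - es ((U.erase a).erase i) k x / (PM x U : ℂ) := by
    intro i hi
    have hi' := (mem_filter.mp hi).1
    have h := rho_sub x U k ha hi'
    have hne := hNCne i hi
    have e : rho x U k i = rho x U k a - (x a - x i) * (es ((U.erase a).erase i) k x / (PM x U : ℂ)) := by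
      rw [← h]; ring
    rw [e]
    field_simp
  have hsumNC : ∑ i ∈ NC, rho x U k i / (x a - x i)
      = ∑ i ∈ NC, rho x U k a * (x a - x i)⁻¹
        - (((U.erase a).card : ℂ) - k) * (es (U.erase a) k x / (PM x U : ℂ))
        + ∑ i ∈ CL, es ((U.erase a).erase i) k x / (PM x U : ℂ) := by
    rw [sum_congr rfl hNCterm, sum_sub_distrib]
    linear_combination -heuler
  have hsplit : ∑ i ∈ J, rho x U k i / (x a - x i)
      = ∑ i ∈ NC, rho x U k i / (x a - x i) - ∑ i ∈ NC \ J, rho x U k i / (x a - x i) := by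
    rw [← sum_sdiff hJNC]; ring
  set n : ℝ := (U.card : ℝ) with hn
  have hcardNC : (NC.card : ℝ) ≤ n := by
    rw [hn]
    exact_mod_cast (card_le_card (filter_subset _ _)).trans (card_le_card (erase_subset _ _))
  have hcardCL : (CL.card : ℝ) ≤ n := by
    rw [hn]
    exact_mod_cast (card_le_card (filter_subset _ _)).trans (card_le_card (erase_subset _ _))
  have hcardNJ : ((NC \ J).card : ℝ) ≤ n :=
    le_trans (by exact_mod_cast card_le_card sdiff_subset) hcardNC
  have hra := (rho_le x U k a ha).trans hva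
  have hn0 : 0 ≤ n := by rw [hn]; positivity
  -- bounds of the four parts
  have b1 : ‖∑ i ∈ NC, rho x U k a * (x a - x i)⁻¹‖ ≤ n * η3 / mx (x a) := by
    calc ‖∑ i ∈ NC, rho x U k a * (x a - x i)⁻¹‖ ≤ ∑ i ∈ NC, ‖rho x U k a * (x a - x i)⁻¹‖ :=
          norm_sum_le _ _
      _ ≤ ∑ i ∈ NC, η3 / mx (x a) := by
          apply sum_le_sum
          intro i hi
          rw [norm_mul]
          have := hinv i hi
          calc ‖rho x U k a‖ * ‖(x a - x i)⁻¹‖ ≤ (d0 * η3) * (1 / (d0 * mx (x a))) := by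
                gcongr
                linarith
            _ = η3 / mx (x a) := by field_simp
      _ = NC.card * (η3 / mx (x a)) := by rw [sum_const, nsmul_eq_mul]
      _ ≤ n * (η3 / mx (x a)) := by gcongr
      _ = _ := by ring
  have b2 : ‖(((U.erase a).card : ℂ) - k) * (es (U.erase a) k x / (PM x U : ℂ))‖
      ≤ n * η3 / mx (x a) := by
    have e1 : ‖es (U.erase a) k x / (PM x U : ℂ)‖ = VV x (U.erase a) k / mx (x a) := by
      have h1 := PM_pos x U
      have h2 := PM_pos x (U.erase a)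
      rw [norm_div, Complex.norm_real, Real.norm_of_nonneg h1.le, VV_eq, ← PM_erase x ha]
      field_simp
    have e2 : ‖((U.erase a).card : ℂ) - k‖ ≤ n := by
      have hc : (U.erase a).card = U.card - 1 := card_erase_of_mem ha
      have hpos : 0 < U.card := card_pos.mpr ⟨a, ha⟩
      have : ((U.erase a).card : ℂ) - k = (((U.card : ℝ) - 1 - k : ℝ) : ℂ) := by
        rw [hc, Nat.cast_sub hpos]; push_cast; ring
      rw [this, Complex.norm_real, Real.norm_eq_abs, abs_le]
      have h1 : (k:ℝ) ≤ U.card := by exact_mod_cast hk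
      have h2 : (1:ℝ) ≤ U.card := by exact_mod_cast hpos
      have h3 : (0:ℝ) ≤ k := by positivity
      constructor <;> rw [hn] <;> linarith
    rw [norm_mul, e1]
    have h5 : VV x (U.erase a) k ≤ η3 := by
      have : d0 * η3 ≤ η3 := by nlinarith
      linarith
    calc _ ≤ n * (η3 / mx (x a)) := by
          apply mul_le_mul e2 _ (div_nonneg (VV_nonneg _ _ _) hma.le) hn0
          exact div_le_div_of_nonneg_right h5 hma.le
      _ = _ := by ring
  have b3 : ‖∑ i ∈ CL, es ((U.erase a).erase i) k x / (PM x U : ℂ)‖ ≤ n * η3 / mx (x a) := by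
    calc _ ≤ ∑ i ∈ CL, ‖es ((U.erase a).erase i) k x / (PM x U : ℂ)‖ := norm_sum_le _ _
      _ ≤ ∑ i ∈ CL, η3 / mx (x a) := by
          apply sum_le_sum
          intro i hi
          rw [hCL, mem_filter, not_le] at hi
          rw [pair_norm x U k ha hi.1]
          have h6 := hpair i hi.1 hi.2
          have h7 := one_le_mx (x i)
          apply div_le_div₀ h3 h6 hma
          nlinarith
      _ = CL.card * (η3 / mx (x a)) := by rw [sum_const, nsmul_eq_mul]
      _ ≤ n * (η3 / mx (x a)) := by gcongr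
      _ = _ := by ring
  have b4 : ‖∑ i ∈ NC \ J, rho x U k i / (x a - x i)‖ ≤ 2 * (n * η3 / mx (x a)) := by
    calc _ ≤ ∑ i ∈ NC \ J, ‖rho x U k i / (x a - x i)‖ := norm_sum_le _ _
      _ ≤ ∑ i ∈ NC \ J, 2 * (η3 / mx (x a)) := by
          apply sum_le_sum
          intro i hi
          rw [mem_sdiff] at hi
          have hiU : i ∈ U := mem_of_mem_erase (mem_filter.mp hi.1).1
          have h8 : ‖rho x U k i‖ ≤ 2 * d0 * η3 := by
            by_contra hlt
            exact hi.2 (mem_filter.mpr ⟨hiU, not_le.mp hlt⟩)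
          rw [div_eq_mul_inv, norm_mul]
          have := hinv i hi.1
          calc ‖rho x U k i‖ * ‖(x a - x i)⁻¹‖ ≤ (2 * d0 * η3) * (1 / (d0 * mx (x a))) := by gcongr
            _ = 2 * (η3 / mx (x a)) := by field_simp
      _ = (NC \ J).card * (2 * (η3 / mx (x a))) := by rw [sum_const, nsmul_eq_mul]
      _ ≤ n * (2 * (η3 / mx (x a))) := by gcongr
      _ = _ := by ring
  rw [hsplit, hsumNC]
  calc _ ≤ ‖∑ i ∈ NC, rho x U k a * (x a - x i)⁻¹‖
        + ‖(((U.erase a).card : ℂ) - k) * (es (U.erase a) k x / (PM x U : ℂ))‖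
        + ‖∑ i ∈ CL, es ((U.erase a).erase i) k x / (PM x U : ℂ)‖
        + ‖∑ i ∈ NC \ J, rho x U k i / (x a - x i)‖ := by
        refine (norm_sub_le _ _).trans ?_
        gcongr
        refine (norm_add_le _ _).trans ?_
        gcongr
        exact norm_sub_le _ _
    _ ≤ n * η3 / mx (x a) + n * η3 / mx (x a) + n * η3 / mx (x a) + 2 * (n * η3 / mx (x a)) := by
        gcongr
    _ = _ := by ring

end
end Pool.Agent.TH963
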