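import Mathlib
import Pool.Agent.TH963.ED

set_option autoImplicit false
set_option linter.unusedVariables false
set_option linter.unusedSectionVars false

namespace Pool.Agent.TH963
open Finset Polynomial

section
variable {α : Type*} [DecidableEq α]

/-- normalised product of linear factors -/
noncomputable def WP (f : α → ℂ) (s : Finset α) : ℂ[X] :=
  ∏ p ∈ s, (C ((mx (f p) : ℂ)⁻¹) * (X + C (f p)))

lemma WP_eval (f : α → ℂ) (s : Finset α) (w : ℂ) :
    (WP f s).eval w = ∏ p ∈ s, ((mx (f p) : ℂ)⁻¹ * (w + f p)) := by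
  unfold WP
  rw [eval_prod]
  simp

lemma WP_natDegree (f : α → ℂ) (s : Finset α) : (WP f s).natDegree ≤ s.card := by
  unfold WP
  refine (natDegree_prod_le _ _).trans ?_
  calc ∑ i ∈ s, (C ((mx (f i) : ℂ)⁻¹) * (X + C (f i))).natDegree ≤ ∑ i ∈ s, 1 := by
        apply sum_le_sum
        intro i _
        refine (natDegree_C_mul_le _ _).trans ?_
        rw [natDegree_X_add_C]
    _ = s.card := by simp

lemma WP_eval_norm (f : α → ℂ) (s : Finset α) (w : ℂ) :
    ‖(WP f s).eval w‖ = ∏ p ∈ s, (‖w + f p‖ / mx (f p)) := by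
  rw [WP_eval, norm_prod]
  apply prod_congr rfl
  intro p _
  rw [norm_mul, norm_inv, Complex.norm_real, Real.norm_of_nonneg (mx_pos _).le]
  ring

lemma WP_eval_norm_neg (f : α → ℂ) (s : Finset α) (y : ℂ) :
    ‖(WP f s).eval (-y)‖ = mx y ^ s.card * ∏ p ∈ s, ch (f p) y := by
  rw [WP_eval_norm, ← prod_const, ← prod_mul_distrib]
  apply prod_congr rfl
  intro p _
  have h1 := mx_pos (f p)
  have h2 := mx_pos y
  have e : -y + f p = f p - y := by ring
  rw [e, ← ch_mul (f p) y]
  field_simp

lemma WP_eval_le (f : α → ℂ) (s : Finset α) (w : ℂ) (c : ℝ) (hc : 1 ≤ c) (hw : ‖w‖ ≤ c) :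
    ‖(WP f s).eval w‖ ≤ (2 * c) ^ s.card := by
  rw [WP_eval_norm, ← prod_const]
  apply prod_le_prod
  · intro i _; exact div_nonneg (norm_nonneg _) (mx_pos _).le
  · intro i _
    rw [div_le_iff₀ (mx_pos _)]
    have h1 := norm_add_le w (f i)
    have h2 := norm_le_mx (f i)
    have h3 := one_le_mx (f i)
    nlinarith

lemma WP_ne (f : α → ℂ) (s : Finset α) (w : ℂ) (h : ∀ p ∈ s, w + f p ≠ 0) :
    (WP f s).eval w ≠ 0 := by
  rw [WP_eval, prod_ne_zero_iff]
  intro p hp
  exact mul_ne_zero (inv_ne_zero (by exact_mod_cast (mx_pos _).ne')) (h p hp)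
end

/-- remainder data for a pole -/
lemma exists_quot (N : Finset ℂ) (y : ℂ) : ∃ (Q R : ℂ[X]), 
    WP id N = (X + C y) * Q + R ∧ (Q = 0 ∨ Q.natDegree < N.card) ∧
    ∀ (w : ℂ) (c : ℝ), 1 ≤ c → ‖w‖ ≤ c → ‖R.eval w‖ ≤ (∏ b ∈ N, ch b y) * c ^ N.card := by
  obtain ⟨s, hs1, hs2⟩ : ∃ s : ℕ, s ≤ N.card ∧ ‖y‖ ^ s = mx y ^ N.card := by
    rcases mx_cases y with ⟨h, _⟩ | ⟨h, _⟩
    · exact ⟨0, Nat.zero_le _, by rw [h]; simp⟩
    · exact ⟨N.card, le_rfl, by rw [h]⟩
  have hm := mx_pos y
  have hys : (-y) ^ s ≠ 0 := by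
    rw [← norm_pos_iff, norm_pow, norm_neg, hs2]; positivity
  set R : ℂ[X] := C ((WP id N).eval (-y) / (-y) ^ s) * X ^ s with hR
  have hroot : (WP id N - R).IsRoot (-y) := by
    rw [IsRoot.def, eval_sub, hR, eval_mul, eval_C, eval_pow, eval_X, div_mul_cancel₀ _ hys, sub_self]
  obtain ⟨Q, hQ⟩ := dvd_iff_isRoot.mpr hroot
  have hXC : (X - C (-y) : ℂ[X]) = X + C y := by simp
  rw [hXC] at hQ
  refine ⟨Q, R, ?_, ?_, ?_⟩
  · rw [← hQ]; ring
  · by_cases h0 : Q = 0
    · exact Or.inl h0
    · right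
      have h1 : ((X + C y) * Q).natDegree = 1 + Q.natDegree := by
        rw [natDegree_mul (X_add_C_ne_zero y) h0, natDegree_X_add_C]
      have h2 : (WP id N - R).natDegree ≤ N.card := by
        refine (natDegree_sub_le _ _).trans (max_le (WP_natDegree _ _) ?_)
        rw [hR]
        exact (natDegree_C_mul_X_pow_le _ _).trans hs1
      rw [hQ, h1] at h2
      omega
  · intro w c hc hw
    rw [hR, eval_mul, eval_C, eval_pow, eval_X, norm_mul, norm_div, norm_pow, norm_pow, norm_neg,
      hs2, WP_eval_norm_neg]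
    have h3 : 0 ≤ ∏ b ∈ N, ch b y := prod_nonneg (fun _ _ => ch_nonneg _ _)
    have h4 : ‖w‖ ^ s ≤ c ^ N.card := by
      calc ‖w‖ ^ s ≤ c ^ s := by gcongr
        _ ≤ c ^ N.card := pow_le_pow_right₀ hc hs1
    have h5 : mx y ^ N.card ≠ 0 := by positivity
    simp only [id]
    rw [mul_div_assoc, mul_comm]
    calc ‖w‖ ^ s * (mx y ^ N.card * ((∏ p ∈ N, ch p y) / mx y ^ N.card))
        = ‖w‖ ^ s * ∏ p ∈ N, ch p y := by rw [mul_div_cancel₀ _ h5]
      _ ≤ c ^ N.card * ∏ p ∈ N, ch p y := by gcongr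
      _ = _ := by ring

section
variable {ι : Type*} [DecidableEq ι]

theorem interp_bound (x : ι → ℂ) (J I : Finset ι) (hIJ : I ⊆ J) (r : ι → ℂ) (N : Finset ℂ)
    (G : Finset ι) (hDG : I.card + N.card ≤ G.card) (d0 η5 η6 τ gap : ℝ) (hd0 : 0 < d0)
    (hη5 : 0 < η5) (hη6 : 0 ≤ η6) (hτ : 0 ≤ τ) (hgap : 0 < gap)
    (hres : ∀ i ∈ J \ I, ‖r i‖ * ∏ b ∈ N, ch b (x i) ≤ η6)
    (hnode : ∀ a ∈ G, ‖∑ i ∈ J, r i / (x a - x i)‖ ≤ τ / mx (x a))
    (hsep : ∀ a ∈ G, ∀ i ∈ J, d0 ≤ ch (x i) (x a))
    (hcond : ∀ a ∈ G, η5 ≤ ∏ b ∈ G.erase a, ch (x a) (x b))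
    (w : ℂ) (hw : ‖w‖ ≤ 1) (hgapi : ∀ i ∈ J, gap ≤ ‖w + x i‖) :
    ‖∑ i ∈ J, r i / (w + x i)‖ * (‖(WP x I).eval w‖ * ‖(WP id N).eval w‖)
      ≤ G.card * 4 ^ G.card * (τ + J.card * η6 / d0) / η5 + 2 ^ G.card * (J.card * η6 / gap) := by
  classical
  choose Q R hQR hdeg hRb using fun i : ι => exists_quot N (x i)
  set P0 : ℂ[X] := ∑ p ∈ I, C (r p * (mx (x p) : ℂ)⁻¹) * (WP x (I.erase p) * WP id N)
    + ∑ i ∈ J \ I, C (r i) * (WP x I * Q i) with hP0
  -- evaluation formula
  have heval : ∀ w' : ℂ, (∀ i ∈ J, w' + x i ≠ 0) → P0.eval w'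
      = (WP x I).eval w' * (WP id N).eval w' * ∑ i ∈ J, r i / (w' + x i)
        - (WP x I).eval w' * ∑ i ∈ J \ I, r i * (R i).eval w' / (w' + x i) := by
    intro w' hw'
    rw [hP0, eval_add, eval_finsetSum, eval_finsetSum]
    simp only [eval_mul, eval_C]
    have e1 : ∀ p ∈ I, r p * (mx (x p) : ℂ)⁻¹ * (eval w' (WP x (I.erase p)) * eval w' (WP id N))
        = (WP x I).eval w' * (WP id N).eval w' * (r p / (w' + x p)) := by
      intro p hp
      have h1 : (WP x I).eval w' = ((mx (x p) : ℂ)⁻¹ * (w' + x p)) * (WP x (I.erase p)).eval w' := by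
        rw [WP_eval, WP_eval, mul_prod_erase I (fun p => (mx (x p) : ℂ)⁻¹ * (w' + x p)) hp]
      have h2 := hw' p (hIJ hp)
      rw [h1]
      field_simp
    have e2 : ∀ i ∈ J \ I, r i * (eval w' (WP x I) * eval w' (Q i))
        = (WP x I).eval w' * (WP id N).eval w' * (r i / (w' + x i))
          - (WP x I).eval w' * (r i * (R i).eval w' / (w' + x i)) := by
      intro i hi
      have h2 := hw' i (mem_sdiff.mp hi).1
      have h3 := congrArg (fun p : ℂ[X] => p.eval w') (hQR i)
      simp only [eval_add, eval_mul, eval_X, eval_C] at h3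
      rw [h3]
      field_simp
      ring
    rw [sum_congr rfl e1, sum_congr rfl e2, sum_sub_distrib, ← mul_sum, ← mul_sum, ← mul_sum,
      ← sum_sdiff hIJ]
    ring
  -- degree
  have hdegP : P0.degree < G.card := by
    have hterm1 : ∀ p ∈ I, (C (r p * (mx (x p) : ℂ)⁻¹) * (WP x (I.erase p) * WP id N)) ∈ degreeLT ℂ G.card := by
      intro p hp
      rw [mem_degreeLT]
      have h1 : (C (r p * (mx (x p) : ℂ)⁻¹) * (WP x (I.erase p) * WP id N)).natDegree
          ≤ (I.card - 1) + N.card := by
        refine (natDegree_C_mul_le _ _).trans ((natDegree_mul_le).trans ?_)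
        have h2 := WP_natDegree x (I.erase p)
        have h3 := WP_natDegree id N
        rw [card_erase_of_mem hp] at h2
        omega
      have hpos : 0 < I.card := card_pos.mpr ⟨p, hp⟩
      refine lt_of_le_of_lt degree_le_natDegree ?_
      exact Nat.cast_lt.mpr (lt_of_le_of_lt h1 (by omega))
    have hterm2 : ∀ i ∈ J \ I, (C (r i) * (WP x I * Q i)) ∈ degreeLT ℂ G.card := by
      intro i hi
      rw [mem_degreeLT]
      rcases hdeg i with h0 | h1
      · rw [h0]
        simp only [mul_zero, degree_zero]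
        exact WithBot.bot_lt_coe _
      · have h2 : (C (r i) * (WP x I * Q i)).natDegree ≤ I.card + (Q i).natDegree := by
          refine (natDegree_C_mul_le _ _).trans ((natDegree_mul_le).trans ?_)
          have := WP_natDegree x I
          omega
        refine lt_of_le_of_lt degree_le_natDegree ?_
        exact Nat.cast_lt.mpr (lt_of_le_of_lt h2 (by omega))
    rw [← mem_degreeLT]
    exact Submodule.add_mem _ (Submodule.sum_mem _ hterm1) (Submodule.sum_mem _ hterm2)
  set g := G.card with hg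
  have hIg : I.card ≤ g := by omega
  have hNg : N.card ≤ g := by omega
  -- values at nodes
  have hval : ∀ a ∈ G, ‖P0.eval (-x a)‖ ≤ mx (x a) ^ (g - 1) * (2 ^ g * (τ + J.card * η6 / d0)) := by
    intro a ha
    have hma := mx_pos (x a)
    have h1ma := one_le_mx (x a)
    have hgpos : 0 < g := by rw [hg]; exact card_pos.mpr ⟨a, ha⟩
    have hne : ∀ i ∈ J, -x a + x i ≠ 0 := by
      intro i hi h0
      have h1 : x i = x a := by linear_combination h0
      have h2 := hsep a ha i hi
      rw [h1, ch_self] at h2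
      linarith
    rw [heval _ hne]
    have h1 : ‖∑ i ∈ J, r i / (-x a + x i)‖ ≤ τ / mx (x a) := by
      have : ∑ i ∈ J, r i / (-x a + x i) = - ∑ i ∈ J, r i / (x a - x i) := by
        rw [← sum_neg_distrib]
        apply sum_congr rfl
        intro i _
        rw [← div_neg]
        congr 1
        ring
      rw [this, norm_neg]
      exact hnode a ha
    have h2 : ‖∑ i ∈ J \ I, r i * (R i).eval (-x a) / (-x a + x i)‖
        ≤ J.card * η6 / d0 * (mx (x a) ^ N.card / mx (x a)) := by
      calc _ ≤ ∑ i ∈ J \ I, ‖r i * (R i).eval (-x a) / (-x a + x i)‖ := norm_sum_le _ _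
        _ ≤ ∑ i ∈ J \ I, η6 / d0 * (mx (x a) ^ N.card / mx (x a)) := by
            apply sum_le_sum
            intro i hi
            have hiJ := (mem_sdiff.mp hi).1
            have hsi := hsep a ha i hiJ
            have hmi := one_le_mx (x i)
            have e : -x a + x i = x i - x a := by ring
            rw [norm_div, norm_mul, e, ← ch_mul (x i) (x a)]
            have hR1 := hRb i (-x a) (mx (x a)) h1ma (by rw [norm_neg]; exact norm_le_mx _)
            have hr1 := hres i hi
            have h3 : d0 * mx (x a) ≤ ch (x i) (x a) * (mx (x i) * mx (x a)) := by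
              calc d0 * mx (x a) ≤ ch (x i) (x a) * mx (x a) := by gcongr
                _ ≤ ch (x i) (x a) * (mx (x i) * mx (x a)) := by
                    have := ch_nonneg (x i) (x a)
                    gcongr
                    nlinarith
            have h4 : ‖r i‖ * ‖(R i).eval (-x a)‖ ≤ η6 * mx (x a) ^ N.card := by
              calc ‖r i‖ * ‖(R i).eval (-x a)‖ ≤ ‖r i‖ * ((∏ b ∈ N, ch b (x i)) * mx (x a) ^ N.card) := by
                    gcongr
                _ = (‖r i‖ * ∏ b ∈ N, ch b (x i)) * mx (x a) ^ N.card := by ring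
                _ ≤ _ := by gcongr
            calc ‖r i‖ * ‖(R i).eval (-x a)‖ / (ch (x i) (x a) * (mx (x i) * mx (x a)))
                ≤ (η6 * mx (x a) ^ N.card) / (d0 * mx (x a)) := by
                  apply div_le_div₀ _ h4 (by positivity) h3
                  positivity
              _ = _ := by field_simp
        _ = (J \ I).card * (η6 / d0 * (mx (x a) ^ N.card / mx (x a))) := by
            rw [sum_const, nsmul_eq_mul]
        _ ≤ J.card * (η6 / d0 * (mx (x a) ^ N.card / mx (x a))) := by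
            gcongr
            exact sdiff_subset
        _ = _ := by ring
    have h3 : ‖(WP x I).eval (-x a)‖ ≤ (2 * mx (x a)) ^ I.card :=
      WP_eval_le x I _ _ h1ma (by rw [norm_neg]; exact norm_le_mx _)
    have h4 : ‖(WP id N).eval (-x a)‖ ≤ (2 * mx (x a)) ^ N.card :=
      WP_eval_le id N _ _ h1ma (by rw [norm_neg]; exact norm_le_mx _)
    have hp1 : (2 * mx (x a)) ^ I.card * (2 * mx (x a)) ^ N.card / mx (x a)
        ≤ 2 ^ g * mx (x a) ^ (g - 1) := by
      rw [← pow_add, mul_pow, mul_div_assoc]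
      apply mul_le_mul _ _ (by positivity) (by positivity)
      · exact pow_le_pow_right₀ (by norm_num) hDG
      · rw [div_le_iff₀ hma, ← pow_succ]
        exact pow_le_pow_right₀ h1ma (by omega)
    have hp2 : (2 * mx (x a)) ^ I.card * (mx (x a) ^ N.card / mx (x a))
        ≤ 2 ^ g * mx (x a) ^ (g - 1) := by
      refine le_trans ?_ hp1
      rw [mul_div_assoc]
      gcongr
      linarith
    calc _ ≤ ‖(WP x I).eval (-x a)‖ * ‖(WP id N).eval (-x a)‖ * ‖∑ i ∈ J, r i / (-x a + x i)‖
          + ‖(WP x I).eval (-x a)‖ * ‖∑ i ∈ J \ I, r i * (R i).eval (-x a) / (-x a + x i)‖ := by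
          refine (norm_sub_le _ _).trans ?_
          rw [norm_mul, norm_mul, norm_mul]
      _ ≤ (2 * mx (x a)) ^ I.card * (2 * mx (x a)) ^ N.card * (τ / mx (x a))
          + (2 * mx (x a)) ^ I.card * (J.card * η6 / d0 * (mx (x a) ^ N.card / mx (x a))) := by
          gcongr
      _ = ((2 * mx (x a)) ^ I.card * (2 * mx (x a)) ^ N.card / mx (x a)) * τ
          + ((2 * mx (x a)) ^ I.card * (mx (x a) ^ N.card / mx (x a))) * (J.card * η6 / d0) := by
          ring
      _ ≤ (2 ^ g * mx (x a) ^ (g - 1)) * τ + (2 ^ g * mx (x a) ^ (g - 1)) * (J.card * η6 / d0) := by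
          gcongr
      _ = _ := by ring
  -- injectivity of nodes
  have hinj : Set.InjOn (fun a => -x a) (G : Set ι) := by
    intro a ha b hb hab
    by_contra hne
    have hab' : x a = x b := neg_injective hab
    have h1 := hcond a (by exact_mod_cast ha)
    have h2 : ∏ b ∈ G.erase a, ch (x a) (x b) = 0 := by
      apply prod_eq_zero (mem_erase.mpr ⟨Ne.symm hne, (by exact_mod_cast hb)⟩)
      rw [hab']; exact ch_self _
    rw [h2] at h1
    linarith
  have hLag : P0.eval w = ∑ a ∈ G, P0.eval (-x a) * ∏ b ∈ G.erase a, ((w + x b) / (x b - x a)) := by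
    have h1 := Lagrange.eq_interpolate (s := G) (v := fun a => -x a) hinj hdegP
    conv_lhs => rw [h1]
    rw [Lagrange.interpolate_apply, eval_finsetSum]
    apply sum_congr rfl
    intro a ha
    rw [eval_mul, eval_C, Lagrange.basis, eval_prod]
    congr 1
    apply prod_congr rfl
    intro b hb
    rw [Lagrange.basisDivisor]
    simp only [eval_mul, eval_C, eval_sub, eval_X]
    have : (-x a - -x b) = x b - x a := by ring
    rw [this]
    have e : w - -x b = w + x b := by ring
    rw [e, div_eq_mul_inv]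
    ring
  have hP0w : ‖P0.eval w‖ ≤ g * 4 ^ g * (τ + J.card * η6 / d0) / η5 := by
    rw [hLag]
    calc _ ≤ ∑ a ∈ G, ‖P0.eval (-x a) * ∏ b ∈ G.erase a, ((w + x b) / (x b - x a))‖ := norm_sum_le _ _
      _ ≤ ∑ a ∈ G, 4 ^ g * (τ + J.card * η6 / d0) / η5 := by
          apply sum_le_sum
          intro a ha
          have hma := mx_pos (x a)
          have hgpos : 0 < g := by rw [hg]; exact card_pos.mpr ⟨a, ha⟩
          have hca : (G.erase a).card = g - 1 := by rw [card_erase_of_mem ha, ← hg]
          have h1 : ‖∏ b ∈ G.erase a, ((w + x b) / (x b - x a))‖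
              ≤ 2 ^ (g-1) / (mx (x a) ^ (g-1) * η5) := by
            rw [norm_prod]
            have h2 : ∀ b ∈ G.erase a, ‖(w + x b) / (x b - x a)‖ ≤ (2 / mx (x a)) * (ch (x a) (x b))⁻¹ := by
              intro b hb
              have hmb := mx_pos (x b)
              have h1mb := one_le_mx (x b)
              have hcb : 0 < ch (x a) (x b) := by
                rcases (ch_nonneg (x a) (x b)).lt_or_eq with h | h
                · exact h
                · exfalso
                  have h5 := hcond a ha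
                  rw [prod_eq_zero hb h.symm] at h5
                  linarith
              rw [norm_div, norm_sub_rev, ← ch_mul (x a) (x b)]
              have h3 : ‖w + x b‖ ≤ 2 * mx (x b) := by
                have := norm_add_le w (x b)
                have := norm_le_mx (x b)
                linarith
              calc ‖w + x b‖ / (ch (x a) (x b) * (mx (x a) * mx (x b)))
                  ≤ (2 * mx (x b)) / (ch (x a) (x b) * (mx (x a) * mx (x b))) := by gcongr
                _ = _ := by field_simp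
            calc _ ≤ ∏ b ∈ G.erase a, ((2 / mx (x a)) * (ch (x a) (x b))⁻¹) :=
                  prod_le_prod (fun _ _ => norm_nonneg _) h2
              _ = (2 / mx (x a)) ^ (g-1) * (∏ b ∈ G.erase a, ch (x a) (x b))⁻¹ := by
                  rw [prod_mul_distrib, prod_const, hca, prod_inv_distrib]
              _ ≤ (2 / mx (x a)) ^ (g-1) * η5⁻¹ := by
                  have := hcond a ha
                  gcongr
              _ = _ := by rw [div_pow]; field_simp
          have h2 := hval a ha
          have hτ' : 0 ≤ τ + J.card * η6 / d0 := by positivity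
          rw [norm_mul]
          calc _ ≤ (mx (x a) ^ (g - 1) * (2 ^ g * (τ + J.card * η6 / d0)))
                * (2 ^ (g-1) / (mx (x a) ^ (g-1) * η5)) := by gcongr
            _ = (2 ^ g * 2 ^ (g-1)) * (τ + J.card * η6 / d0) / η5 := by field_simp
            _ ≤ 4 ^ g * (τ + J.card * η6 / d0) / η5 := by
                have h5 : (2:ℝ) ^ g * 2 ^ (g-1) ≤ 4 ^ g := by
                  have : (4:ℝ) ^ g = 2 ^ g * 2 ^ g := by rw [← mul_pow]; norm_num
                  rw [this]
                  gcongr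
                  · norm_num
                  · omega
                gcongr
      _ = g * (4 ^ g * (τ + J.card * η6 / d0) / η5) := by rw [sum_const, nsmul_eq_mul]
      _ = _ := by ring
  have hwne : ∀ i ∈ J, w + x i ≠ 0 := by
    intro i hi h0
    have := hgapi i hi
    rw [h0, norm_zero] at this
    linarith
  have hfin := heval w hwne
  have hEr : ‖(WP x I).eval w * ∑ i ∈ J \ I, r i * (R i).eval w / (w + x i)‖
      ≤ 2 ^ g * (J.card * η6 / gap) := by
    rw [norm_mul]
    have h1 : ‖(WP x I).eval w‖ ≤ 2 ^ g := by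
      refine (WP_eval_le x I w 1 le_rfl hw).trans ?_
      rw [mul_one]
      exact pow_le_pow_right₀ (by norm_num) hIg
    have h2 : ‖∑ i ∈ J \ I, r i * (R i).eval w / (w + x i)‖ ≤ J.card * η6 / gap := by
      calc _ ≤ ∑ i ∈ J \ I, ‖r i * (R i).eval w / (w + x i)‖ := norm_sum_le _ _
        _ ≤ ∑ i ∈ J \ I, η6 / gap := by
            apply sum_le_sum
            intro i hi
            have hiJ := (mem_sdiff.mp hi).1
            have hR1 := hRb i w 1 le_rfl hw
            rw [one_pow, mul_one] at hR1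
            rw [norm_div, norm_mul]
            apply div_le_div₀ hη6 _ hgap (hgapi i hiJ)
            refine le_trans ?_ (hres i hi)
            gcongr
        _ = (J \ I).card * (η6 / gap) := by rw [sum_const, nsmul_eq_mul]
        _ ≤ J.card * (η6 / gap) := by
            gcongr
            exact sdiff_subset
        _ = _ := by ring
    gcongr
  calc ‖∑ i ∈ J, r i / (w + x i)‖ * (‖(WP x I).eval w‖ * ‖(WP id N).eval w‖)
      = ‖(WP x I).eval w * (WP id N).eval w * ∑ i ∈ J, r i / (w + x i)‖ := by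
        rw [norm_mul, norm_mul]; ring
    _ = ‖P0.eval w + (WP x I).eval w * ∑ i ∈ J \ I, r i * (R i).eval w / (w + x i)‖ := by
        rw [hfin]; congr 1; ring
    _ ≤ ‖P0.eval w‖ + ‖(WP x I).eval w * ∑ i ∈ J \ I, r i * (R i).eval w / (w + x i)‖ :=
        norm_add_le _ _
    _ ≤ _ := add_le_add hP0w hEr

end
end Pool.Agent.TH963
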