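import Mathlib
import Pool.Agent.TH963.EN
import Pool.Agent.TH963.EP

set_option autoImplicit false
set_option linter.unusedVariables false
set_option linter.unusedSectionVars false

namespace Pool.Agent.TH963
open Finset Polynomial Pool.Agent.H704R3

lemma add_lower (ρ : ℝ) (h0 : 0 ≤ ρ) (h1 : ρ ≤ 1 / 2) (w z : ℂ) (hw : ‖w‖ = ρ) :
    1 / 2 * |ρ - min 1 ‖z‖| ≤ ‖w + z‖ / mx z := by
  rw [le_div_iff₀ (mx_pos z)]
  have h2 : |‖w‖ - ‖z‖| ≤ ‖w + z‖ := by
    have := abs_norm_sub_norm_le w (-z)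
    rwa [norm_neg, sub_neg_eq_add] at this
  rw [hw] at h2
  rcases mx_cases z with ⟨h, h'⟩ | ⟨h, h'⟩
  · rw [h, mul_one, min_eq_right h']
    have := abs_nonneg (ρ - ‖z‖)
    linarith
  · rw [h, min_eq_left h'.le]
    have e1 : |ρ - 1| = 1 - ρ := by rw [abs_sub_comm]; exact abs_of_nonneg (by linarith)
    have e2 : |ρ - ‖z‖| = ‖z‖ - ρ := by rw [abs_sub_comm]; exact abs_of_nonneg (by linarith)
    rw [e1]
    rw [e2] at h2
    nlinarith

lemma WP_lower {α : Type*} [DecidableEq α] (f : α → ℂ) (s : Finset α) (ρ : ℝ) (h0 : 0 ≤ ρ)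
    (h1 : ρ ≤ 1 / 2) (w : ℂ) (hw : ‖w‖ = ρ) :
    (1/2) ^ s.card * ∏ p ∈ s, |ρ - min 1 ‖f p‖| ≤ ‖(WP f s).eval w‖ := by
  rw [WP_eval_norm, ← prod_const, ← prod_mul_distrib]
  apply prod_le_prod
  · intro i _; positivity
  · intro i _; exact add_lower ρ h0 h1 w _ hw

section
variable {ι : Type*} [Fintype ι] [DecidableEq ι]

theorem DT (x : ι → ℂ) (k : ℕ) (a : ℝ) (ha0 : 0 < a) (ha1 : a ≤ 1)
    (hL : k + 1 ≤ (univ.filter (fun i => a < ‖x i‖)).card)
    (A0 : ℝ) (hA0 : 0 < A0) (hA : ∃ j ≤ k, A0 ≤ VV x univ j)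
    (d0 η2 η3 η5 η6 : ℝ) (hd0 : 0 < d0) (hd1 : d0 ≤ 1) (h2 : 0 ≤ η2) (h3 : 0 ≤ η3)
    (h23 : η2 ≤ d0 * η3) (h5 : 0 < η5) (h6 : 0 ≤ η6)
    (G : Finset ι) (hG2 : ∀ b ∈ G, VV x (univ.erase b) k ≤ η2)
    (hG3 : ∀ b ∈ G, ∀ i ∈ univ.erase b, ch (x i) (x b) < d0 →
      VV x ((univ.erase b).erase i) k ≤ η3)
    (hcond : ∀ b ∈ G, η5 ≤ ∏ c ∈ G.erase b, ch (x b) (x c))
    (I : Finset ι) (N : Finset ℂ) (hDG : I.card + N.card ≤ G.card)
    (hI : ∀ i, i ∉ I → 2 * d0 * η3 < ‖rho x univ k i‖ →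
      ‖rho x univ k i‖ * ∏ b ∈ N, ch b (x i) ≤ η6)
    (hnum : (G.card : ℝ) * 4 ^ G.card * (5 * Fintype.card ι * η3 + Fintype.card ι * η6 / d0) / η5
      + 2 ^ G.card * (Fintype.card ι * (η6 + 2 * d0 * η3))
        * (32 * (k + G.card + 1) * (Fintype.card ι + 1) / a)
      < A0 * (1/4) ^ (k + G.card) * (a/64) ^ (k + G.card)) : False := by
  classical
  obtain ⟨j0, hj0k, hj0⟩ := hA
  set n : ℝ := (Fintype.card ι : ℝ) with hn
  set g := G.card with hg
  set J := univ.filter (fun i => 2 * d0 * η3 < ‖rho x univ k i‖) with hJ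
  set I' := I ∩ J with hI'
  have hI'J : I' ⊆ J := inter_subset_right
  have hI'card : I'.card ≤ I.card := card_le_card inter_subset_left
  set q := qp x univ k with hq
  set t : Multiset ℝ := q.roots.map (fun z => min 1 ‖z‖) + I'.val.map (fun p => min 1 ‖x p‖)
    + N.val.map (fun b => min 1 ‖b‖) with ht
  have hroots : Multiset.card q.roots = k := by
    rw [IsAlgClosed.card_roots_eq_natDegree, hq, qp_natDegree]
  have htc : Multiset.card t = k + I'.card + N.card := by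
    rw [ht]; simp [hroots]
  obtain ⟨ρ, hρ1, hρ2, hρs, hρt⟩ := radius_lemma (fun i : ι => min 1 ‖x i‖) t (a/4) (a/4) (by positivity)
  have hρpos : 0 < ρ := by linarith
  have hρ12 : ρ ≤ 1/2 := by linarith
  have hm : (Multiset.card t : ℝ) ≤ k + g := by
    rw [htc]; push_cast
    have : (I'.card : ℝ) + N.card ≤ g := by exact_mod_cast (by omega)
    linarith
  set Pq := (q.roots.map (fun z => |ρ - min 1 ‖z‖|)).prod with hPq
  set PI := ∏ p ∈ I', |ρ - min 1 ‖x p‖| with hPI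
  set PN := ∏ b ∈ N, |ρ - min 1 ‖b‖| with hPN
  have hprod : (t.map (fun u => |ρ - u|)).prod = Pq * PI * PN := by
    rw [ht, Multiset.map_add, Multiset.map_add, Multiset.prod_add, Multiset.prod_add,
      Multiset.map_map, Multiset.map_map, Multiset.map_map]
    rfl
  rw [hprod] at hρt
  have hL16 : a / 4 / 16 = a / 64 := by ring
  rw [hL16] at hρt
  have hprodpos : 0 < Pq * PI * PN := lt_of_lt_of_le (by positivity) hρt
  have hPq0 : 0 ≤ Pq := by
    rw [hPq]
    apply Multiset.prod_nonneg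
    intro y hy
    obtain ⟨z, _, rfl⟩ := Multiset.mem_map.mp hy
    exact abs_nonneg _
  have hPI0 : 0 ≤ PI := prod_nonneg (fun _ _ => abs_nonneg _)
  have hPN0 : 0 ≤ PN := prod_nonneg (fun _ _ => abs_nonneg _)
  have hPqpos : 0 < Pq := by
    rcases hPq0.lt_or_eq with h | h
    · exact h
    · rw [← h] at hprodpos; simp at hprodpos
  set gap0 := a / 4 / (4 * ((Multiset.card t : ℝ) + 1) * ((Fintype.card ι : ℝ) + 1)) with hgap0
  have hgap0pos : 0 < gap0 := by rw [hgap0]; positivity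
  set gap := gap0 / 2 with hgapdef
  have hgappos : 0 < gap := by positivity
  have hPM := PM_pos x univ
  -- lower bound for q on the circle
  have hcoef : A0 * PM x univ ≤ ‖q.coeff (k - j0)‖ := by
    rw [hq, qp_coeff x univ k (k - j0) (Nat.sub_le _ _)]
    have e : k - (k - j0) = j0 := by omega
    rw [e, ← VV_mul]
    gcongr
  have hqlow : ∀ w : ℂ, ‖w‖ = ρ → A0 * PM x univ * (1/4) ^ k * Pq ≤ ‖q.eval w‖ := by
    intro w hw
    have h := poly_circle_lower q (k - j0) ρ hρpos.le hρ12 w hw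
    have hnd : q.natDegree = k := by rw [hq, qp_natDegree]
    rw [hnd] at h
    refine le_trans ?_ h
    gcongr
  have hqne : ∀ w : ℂ, ‖w‖ = ρ → q.eval w ≠ 0 := by
    intro w hw h0
    have := hqlow w hw
    rw [h0, norm_zero] at this
    have : 0 < A0 * PM x univ * (1/4) ^ k * Pq := by positivity
    linarith
  have hxne : ∀ i, ‖x i‖ ≠ ρ := by
    intro i hi
    have h := hρs i
    have e : min 1 ‖x i‖ = ρ := by rw [hi]; exact min_eq_right (by linarith)
    simp only [e, sub_self, abs_zero] at h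
    linarith
  have hLρ : k + 1 ≤ (univ.filter (fun i => ρ < ‖x i‖)).card := by
    refine hL.trans (card_le_card ?_)
    intro i hi
    rw [mem_filter] at hi ⊢
    exact ⟨hi.1, by linarith [hi.2]⟩
  obtain ⟨w, hw, hwq⟩ := circle_lemma x q k ρ hρpos hxne hqne hLρ
  have hgapi : ∀ i, gap ≤ ‖w + x i‖ / mx (x i) := by
    intro i
    refine le_trans ?_ (add_lower ρ hρpos.le hρ12 w (x i) hw)
    have := hρs i
    rw [hgapdef]
    linarith
  have hgapi' : ∀ i, gap ≤ ‖w + x i‖ := by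
    intro i
    have h1 := hgapi i
    rw [le_div_iff₀ (mx_pos _)] at h1
    have h2 := one_le_mx (x i)
    nlinarith
  have hwne : ∀ i ∈ (univ : Finset ι), w + x i ≠ 0 := by
    intro i _ h0
    have := hgapi' i
    rw [h0, norm_zero] at this
    linarith
  rw [hq, q_identity x univ k w hwne, ← hq] at hwq
  have hrho : ∑ i, x i * es (univ.erase i) k x / (w + x i)
      = (PM x univ : ℂ) * ∑ i, rho x univ k i / (w + x i) := by
    rw [mul_sum]
    apply sum_congr rfl
    intro i _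
    unfold rho
    have := PMc_ne x univ
    field_simp
  rw [hrho, norm_mul, Complex.norm_real, Real.norm_of_nonneg hPM.le] at hwq
  have hkey : A0 * (1/4) ^ k * Pq ≤ ‖∑ i, rho x univ k i / (w + x i)‖ := by
    have h := (hqlow w hw).trans hwq
    have e : A0 * PM x univ * (1/4) ^ k * Pq = PM x univ * (A0 * (1/4) ^ k * Pq) := by ring
    rw [e] at h
    exact le_of_mul_le_mul_left h hPM
  have hsplit : ∑ i, rho x univ k i / (w + x i) = ∑ i ∈ J, rho x univ k i / (w + x i)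
      + ∑ i ∈ univ \ J, rho x univ k i / (w + x i) := by
    rw [add_comm, sum_sdiff (subset_univ J)]
  have hcompl : ‖∑ i ∈ univ \ J, rho x univ k i / (w + x i)‖ ≤ n * (2 * d0 * η3) / gap := by
    calc _ ≤ ∑ i ∈ univ \ J, ‖rho x univ k i / (w + x i)‖ := norm_sum_le _ _
      _ ≤ ∑ i ∈ univ \ J, (2 * d0 * η3) / gap := by
          apply sum_le_sum
          intro i hi
          rw [norm_div]
          apply div_le_div₀ (by positivity) _ hgappos (hgapi' i)
          rw [mem_sdiff, hJ, mem_filter] at hi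
          by_contra hcon
          exact hi.2 ⟨mem_univ _, not_le.mp hcon⟩
      _ = (univ \ J).card * ((2 * d0 * η3) / gap) := by rw [sum_const, nsmul_eq_mul]
      _ ≤ n * ((2 * d0 * η3) / gap) := by
          have : ((univ \ J).card : ℝ) ≤ n := by
            rw [hn, ← card_univ]
            exact_mod_cast card_le_card sdiff_subset
          gcongr
      _ = _ := by ring
  -- interpolation bound
  have hsep : ∀ b ∈ G, ∀ i ∈ J, d0 ≤ ch (x i) (x b) := by
    intro b hb i hi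
    by_contra hcon
    have h := close_small x univ k b (mem_univ _) d0 η2 η3 hd0 h3 h23 (hG2 b hb) (hG3 b hb) i
      (mem_univ _) (not_le.mp hcon)
    rw [hJ, mem_filter] at hi
    linarith [hi.2]
  have hkn : k ≤ (univ : Finset ι).card := by
    have : (univ.filter (fun i => a < ‖x i‖)).card ≤ (univ : Finset ι).card :=
      card_le_card (filter_subset _ _)
    omega
  have hnode : ∀ b ∈ G, ‖∑ i ∈ J, rho x univ k i / (x b - x i)‖ ≤ (5 * n * η3) / mx (x b) := by
    intro b hb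
    have h := node_small x univ k hkn b (mem_univ _) d0 η2 η3 hd0 hd1 h2 h3 h23 (hG2 b hb) (hG3 b hb)
    rw [card_univ] at h
    exact h
  have hres : ∀ i ∈ J \ I', ‖rho x univ k i‖ * ∏ b ∈ N, ch b (x i) ≤ η6 := by
    intro i hi
    rw [mem_sdiff] at hi
    have hiJ := hi.1
    have hiI : i ∉ I := fun h => hi.2 (mem_inter.mpr ⟨h, hiJ⟩)
    rw [hJ, mem_filter] at hiJ
    exact hI i hiI hiJ.2
  have hib := interp_bound x J I' hI'J (rho x univ k) N G (by omega) d0 η5 η6 (5 * n * η3) gap hd0 h5 h6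
    (by positivity) hgappos hres hnode hsep hcond w (by rw [hw]; linarith) (fun i _ => hgapi' i)
  rw [← hg] at hib
  set WI := ‖(WP x I').eval w‖ with hWI
  set WN := ‖(WP id N).eval w‖ with hWN
  have hWIl : (1/2) ^ I'.card * PI ≤ WI := WP_lower x I' ρ hρpos.le hρ12 w hw
  have hWNl : (1/2) ^ N.card * PN ≤ WN := WP_lower id N ρ hρpos.le hρ12 w hw
  have hWIu : WI ≤ 2 ^ I'.card := by
    have := WP_eval_le x I' w 1 le_rfl (by rw [hw]; linarith)
    rwa [mul_one] at this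
  have hWNu : WN ≤ 2 ^ N.card := by
    have := WP_eval_le id N w 1 le_rfl (by rw [hw]; linarith)
    rwa [mul_one] at this
  have hWI0 : 0 ≤ WI := norm_nonneg _
  have hWN0 : 0 ≤ WN := norm_nonneg _
  have hJn : (J.card : ℝ) ≤ n := by
    rw [hn, ← card_univ]
    exact_mod_cast card_le_card (subset_univ J)
  have hn0 : 0 ≤ n := by rw [hn]; positivity
  have hWW : WI * WN ≤ 2 ^ g := by
    calc WI * WN ≤ 2 ^ I'.card * 2 ^ N.card := by gcongr
      _ = 2 ^ (I'.card + N.card) := by rw [pow_add]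
      _ ≤ 2 ^ g := pow_le_pow_right₀ (by norm_num) (by omega)
  have hginv : 1 / gap ≤ 32 * (k + g + 1) * (n + 1) / a := by
    rw [hgapdef, hgap0, ← hn]
    have e : 1 / (a / 4 / (4 * ((Multiset.card t : ℝ) + 1) * (n + 1)) / 2)
        = 32 * ((Multiset.card t : ℝ) + 1) * (n + 1) / a := by
      field_simp
      norm_num
    rw [e]
    gcongr
  have hfinal : A0 * (1/4) ^ k * Pq * (WI * WN) ≤
      (g : ℝ) * 4 ^ g * (5 * n * η3 + n * η6 / d0) / η5
      + 2 ^ g * (n * (η6 + 2 * d0 * η3)) * (32 * (k + g + 1) * (n + 1) / a) := by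
    calc A0 * (1/4) ^ k * Pq * (WI * WN)
        ≤ (‖∑ i ∈ J, rho x univ k i / (w + x i)‖ + n * (2 * d0 * η3) / gap) * (WI * WN) := by
          gcongr
          refine hkey.trans ?_
          rw [hsplit]
          exact (norm_add_le _ _).trans (by gcongr)
      _ = ‖∑ i ∈ J, rho x univ k i / (w + x i)‖ * (WI * WN)
          + n * (2 * d0 * η3) / gap * (WI * WN) := by ring
      _ ≤ ((g : ℝ) * 4 ^ g * (5 * n * η3 + J.card * η6 / d0) / η5 + 2 ^ g * (J.card * η6 / gap))
          + n * (2 * d0 * η3) / gap * 2 ^ g := by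
          gcongr
      _ ≤ ((g : ℝ) * 4 ^ g * (5 * n * η3 + n * η6 / d0) / η5 + 2 ^ g * (n * η6 / gap))
          + n * (2 * d0 * η3) / gap * 2 ^ g := by
          gcongr
      _ = (g : ℝ) * 4 ^ g * (5 * n * η3 + n * η6 / d0) / η5
          + 2 ^ g * (n * (η6 + 2 * d0 * η3)) * (1 / gap) := by
          ring
      _ ≤ _ := by gcongr
  have hlow : A0 * (1/4) ^ (k + g) * (a/64) ^ (k + g) ≤ A0 * (1/4) ^ k * Pq * (WI * WN) := by
    have h1 : (a/64) ^ (k + g) ≤ Pq * PI * PN := by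
      refine le_trans ?_ hρt
      rw [htc]
      exact pow_le_pow_of_le_one (by positivity) (by linarith) (by omega)
    have h2 : ((1:ℝ)/4) ^ (k + g) ≤ (1/4) ^ k * ((1/2) ^ I'.card * (1/2) ^ N.card) := by
      rw [pow_add (1/4:ℝ) k g, ← pow_add (1/2:ℝ)]
      gcongr
      calc ((1:ℝ)/4) ^ g ≤ (1/2) ^ g := by gcongr; norm_num
        _ ≤ (1/2) ^ (I'.card + N.card) := pow_le_pow_of_le_one (by norm_num) (by norm_num) (by omega)
    calc A0 * (1/4) ^ (k + g) * (a/64) ^ (k + g)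
        ≤ A0 * ((1/4) ^ k * ((1/2) ^ I'.card * (1/2) ^ N.card)) * (Pq * PI * PN) := by gcongr
      _ = A0 * (1/4) ^ k * Pq * (((1/2) ^ I'.card * PI) * ((1/2) ^ N.card * PN)) := by ring
      _ ≤ A0 * (1/4) ^ k * Pq * (WI * WN) := by gcongr
  linarith

end
end Pool.Agent.TH963
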