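import Mathlib
import Pool.Agent.TH963.EL

set_option autoImplicit false
set_option linter.unusedVariables false
set_option linter.unusedSectionVars false

namespace Pool.Agent.TH963
open Finset Pool.Agent.H704R3

lemma prod_pert {α : Type*} [DecidableEq α] (s : Finset α) (f g : α → ℝ) (δ : ℝ) (hδ0 : 0 ≤ δ)
    (hδ1 : δ ≤ 1) (h0 : ∀ b ∈ s, 0 ≤ f b) (h2 : ∀ b ∈ s, f b ≤ 2) (hg0 : ∀ b ∈ s, 0 ≤ g b)
    (hg : ∀ b ∈ s, g b ≤ f b + δ) : ∏ b ∈ s, g b ≤ ∏ b ∈ s, f b + δ * 4 ^ s.card := by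
  induction s using Finset.induction_on with
  | empty => simp; exact hδ0
  | insert a s ha ih =>
    rw [prod_insert ha, prod_insert ha, card_insert_of_notMem ha]
    have ih' := ih (fun b hb => h0 b (mem_insert_of_mem hb)) (fun b hb => h2 b (mem_insert_of_mem hb))
      (fun b hb => hg0 b (mem_insert_of_mem hb)) (fun b hb => hg b (mem_insert_of_mem hb))
    have ha0 := h0 a (mem_insert_self _ _)
    have ha2 := h2 a (mem_insert_self _ _)
    have hga0 := hg0 a (mem_insert_self _ _)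
    have hga := hg a (mem_insert_self _ _)
    have hp0 : 0 ≤ ∏ b ∈ s, f b := prod_nonneg (fun b hb => h0 b (mem_insert_of_mem hb))
    have hp2 : ∏ b ∈ s, f b ≤ 2 ^ s.card := by
      rw [← prod_const]
      exact prod_le_prod (fun b hb => h0 b (mem_insert_of_mem hb)) (fun b hb => h2 b (mem_insert_of_mem hb))
    have hg0' : 0 ≤ ∏ b ∈ s, g b := prod_nonneg (fun b hb => hg0 b (mem_insert_of_mem hb))
    have h24 : (2:ℝ) ^ s.card ≤ 4 ^ s.card := by gcongr; norm_num
    have h4 : (0:ℝ) < 4 ^ s.card := by positivity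
    calc g a * ∏ b ∈ s, g b ≤ (f a + δ) * (∏ b ∈ s, f b + δ * 4 ^ s.card) := by gcongr
      _ = f a * ∏ b ∈ s, f b + (f a * (δ * 4 ^ s.card) + δ * ∏ b ∈ s, f b + δ * (δ * 4 ^ s.card)) := by
          ring
      _ ≤ f a * ∏ b ∈ s, f b + (2 * (δ * 4 ^ s.card) + δ * 4 ^ s.card + 1 * (δ * 4 ^ s.card)) := by
          gcongr
          exact hp2.trans h24
      _ = _ := by rw [pow_succ]; ring

noncomputable def V2 (F : Finset ℂ) : ℝ := ∏ a ∈ F, ∏ b ∈ F.erase a, ch a b

lemma V2_nonneg (F : Finset ℂ) : 0 ≤ V2 F :=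
  prod_nonneg (fun _ _ => prod_nonneg (fun _ _ => ch_nonneg _ _))

lemma V2_insert (F : Finset ℂ) (h : ℂ) (hF : h ∉ F) :
    V2 (insert h F) = V2 F * (∏ b ∈ F, ch h b) ^ 2 := by
  unfold V2
  rw [prod_insert hF, erase_insert hF]
  have e : ∀ a ∈ F, ∏ b ∈ (insert h F).erase a, ch a b = ch h a * ∏ b ∈ F.erase a, ch a b := by
    intro a ha
    have hne : h ≠ a := fun h' => hF (h' ▸ ha)
    rw [erase_insert_of_ne hne, prod_insert (fun h' => hF (mem_of_mem_erase h')), ch_symm a h]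
  rw [prod_congr rfl e, prod_mul_distrib]
  ring

lemma V2_erase (F : Finset ℂ) (a : ℂ) (ha : a ∈ F) :
    V2 F = V2 (F.erase a) * (∏ b ∈ F.erase a, ch a b) ^ 2 := by
  conv_lhs => rw [← insert_erase ha]
  exact V2_insert _ _ (notMem_erase a F)

/-- Fekete type sets -/
theorem fekete (H : Finset ℂ) (ηc : ℝ) (hη : 0 < ηc) (cap : ℕ) :
    ∃ F : Finset ℂ, F ⊆ H ∧ F.card ≤ cap ∧
      (∀ a ∈ F, ∀ h ∈ H, ∏ b ∈ F.erase a, ch h b ≤ ∏ b ∈ F.erase a, ch a b) ∧
      (F.card < cap → ∀ h ∈ H, ∏ b ∈ F, ch h b ≤ ηc) ∧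
      (∀ a ∈ F, ηc ≤ ∏ b ∈ F.erase a, ch a b) := by
  classical
  set T := H.powerset.filter (fun F => F.card ≤ cap) with hT
  have hTne : T.Nonempty := ⟨∅, by rw [hT, mem_filter]; simp⟩
  obtain ⟨F, hFT, hmax⟩ := exists_max_image T (fun F => V2 F * (ηc ^ 2)⁻¹ ^ F.card) hTne
  rw [hT, mem_filter, mem_powerset] at hFT
  obtain ⟨hFH, hFc⟩ := hFT
  have hη2 : 0 < (ηc ^ 2)⁻¹ := by positivity
  have hmax' : ∀ F' : Finset ℂ, F' ⊆ H → F'.card ≤ cap →
      V2 F' * (ηc ^ 2)⁻¹ ^ F'.card ≤ V2 F * (ηc ^ 2)⁻¹ ^ F.card := by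
    intro F' h1 h2
    exact hmax F' (by rw [hT, mem_filter, mem_powerset]; exact ⟨h1, h2⟩)
  have hVpos : 0 < V2 F := by
    have h := hmax' ∅ (empty_subset _) (by simp)
    simp only [card_empty, pow_zero, mul_one] at h
    have h1 : V2 ∅ = 1 := by simp [V2]
    rw [h1] at h
    rcases (V2_nonneg F).lt_or_eq with h2 | h2
    · exact h2
    · rw [← h2, zero_mul] at h; linarith
  have hVe : ∀ a ∈ F, 0 < V2 (F.erase a) := by
    intro a ha
    rw [V2_erase F a ha] at hVpos
    rcases (V2_nonneg (F.erase a)).lt_or_eq with h2 | h2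
    · exact h2
    · rw [← h2, zero_mul] at hVpos; exact absurd hVpos (lt_irrefl _)
  refine ⟨F, hFH, hFc, ?_, ?_, ?_⟩
  · intro a ha h hh
    have hR : 0 ≤ ∏ b ∈ F.erase a, ch a b := prod_nonneg (fun _ _ => ch_nonneg _ _)
    by_cases hF : h ∈ F.erase a
    · rw [prod_eq_zero hF (ch_self h)]; exact hR
    · have h1 := hmax' (insert h (F.erase a)) (insert_subset hh ((erase_subset _ _).trans hFH))
        (by
          rw [card_insert_of_notMem hF, card_erase_of_mem ha]
          have : 0 < F.card := card_pos.mpr ⟨a, ha⟩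
          omega)
      rw [card_insert_of_notMem hF, card_erase_of_mem ha] at h1
      have hc : F.card - 1 + 1 = F.card := by
        have : 0 < F.card := card_pos.mpr ⟨a, ha⟩
        omega
      rw [hc] at h1
      have h2 := le_of_mul_le_mul_right h1 (by positivity)
      rw [V2_insert _ _ hF, V2_erase F a ha] at h2
      have h3 := le_of_mul_le_mul_left h2 (hVe a ha)
      exact le_of_sq_le_sq h3 hR
  · intro hlt h hh
    by_cases hF : h ∈ F
    · rw [prod_eq_zero hF (ch_self h)]; exact hη.le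
    · have h1 := hmax' (insert h F) (insert_subset hh hFH)
        (by rw [card_insert_of_notMem hF]; omega)
      rw [card_insert_of_notMem hF, V2_insert _ _ hF, pow_succ (ηc ^ 2)⁻¹] at h1
      have h4 : (V2 F * (ηc ^ 2)⁻¹ ^ F.card) * ((∏ b ∈ F, ch h b) ^ 2 * (ηc ^ 2)⁻¹)
          ≤ (V2 F * (ηc ^ 2)⁻¹ ^ F.card) * 1 := by linarith
      have h5 := le_of_mul_le_mul_left h4 (by positivity)
      have h6 : (∏ b ∈ F, ch h b) ^ 2 ≤ ηc ^ 2 := by
        rw [← div_eq_mul_inv, div_le_one (by positivity)] at h5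
        exact h5
      exact le_of_sq_le_sq h6 hη.le
  · intro a ha
    have hR : 0 ≤ ∏ b ∈ F.erase a, ch a b := prod_nonneg (fun _ _ => ch_nonneg _ _)
    have h1 := hmax' (F.erase a) ((erase_subset _ _).trans hFH)
      ((card_le_card (erase_subset _ _)).trans hFc)
    have hc : F.card = (F.erase a).card + 1 := by
      rw [card_erase_of_mem ha]
      have : 0 < F.card := card_pos.mpr ⟨a, ha⟩
      omega
    rw [V2_erase F a ha, hc, pow_succ] at h1
    have h4 : (V2 (F.erase a) * (ηc ^ 2)⁻¹ ^ (F.erase a).card) * 1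
        ≤ (V2 (F.erase a) * (ηc ^ 2)⁻¹ ^ (F.erase a).card) * ((∏ b ∈ F.erase a, ch a b) ^ 2 * (ηc ^ 2)⁻¹) := by
      rw [mul_one]
      refine h1.trans (le_of_eq (by ring))
    have h5 := le_of_mul_le_mul_left h4 (by have := hVe a ha; positivity)
    have h6 : ηc ^ 2 ≤ (∏ b ∈ F.erase a, ch a b) ^ 2 := by
      rw [← div_eq_mul_inv, one_le_div (by positivity)] at h5
      exact h5
    exact le_of_sq_le_sq h6 hR

section
variable {ι : Type*} [Fintype ι] [DecidableEq ι]

/-- common facts on perturbed nodes -/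
lemma pert_nodes (F : Finset ℂ) (z : ℂ → ℂ) (ηc h : ℝ) (hηc : 0 < ηc) (hh0 : 0 ≤ h) (hh1 : 2 * h ≤ 1)
    (hz : ∀ b ∈ F, ch (z b) b ≤ h) (hsmall : 4 * h * 4 ^ F.card ≤ ηc / 2)
    (hP3 : ∀ a ∈ F, ηc ≤ ∏ b ∈ F.erase a, ch a b) (a : ℂ) (ha : a ∈ F) :
    (∏ b ∈ F.erase a, ch a b) / 2 ≤ ∏ b ∈ F.erase a, ch (z a) (z b) := by
  have h1 := prod_pert (F.erase a) (fun b => ch (z a) (z b)) (fun b => ch a b) (2*h)
    (by linarith) hh1 (fun _ _ => ch_nonneg _ _) (fun _ _ => ch_le_two _ _) (fun _ _ => ch_nonneg _ _)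
    (by
      intro b hb
      have h2 := hz a ha
      have h3 := hz b (mem_of_mem_erase hb)
      have h4 := ch_triangle a (z a) b
      have h5 := ch_triangle (z a) (z b) b
      rw [ch_symm a (z a)] at h4
      linarith)
  have h2 : (4:ℝ) ^ (F.erase a).card ≤ 4 ^ F.card :=
    pow_le_pow_right₀ (by norm_num) (card_le_card (erase_subset _ _))
  have h3 := hP3 a ha
  have h4 : 2 * h * 4 ^ (F.erase a).card ≤ 2 * h * 4 ^ F.card := by gcongr
  linarith

theorem heavy_bound (x : ι → ℂ) (k : ℕ) (K ηc η2 h : ℝ) (hK : KK x univ ≤ K) (hηc : 0 < ηc)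
    (hη2 : 0 ≤ η2) (hh0 : 0 ≤ h) (hh1 : 4 * h ≤ 1)
    (H F N : Finset ℂ) (hFH : F ⊆ H) (hNF : N ⊆ F)
    (hP1 : ∀ a ∈ F, ∀ c ∈ H, ∏ b ∈ F.erase a, ch c b ≤ ∏ b ∈ F.erase a, ch a b)
    (hP2 : ∀ c ∈ H, ∏ b ∈ F, ch c b ≤ ηc)
    (hP3 : ∀ a ∈ F, ηc ≤ ∏ b ∈ F.erase a, ch a b)
    (hsep : ∀ b ∈ F, ∀ b' ∈ F, b ≠ b' → 3 * h < ch b b')
    (y : ℂ → ι) (hy : ∀ b ∈ F \ N, ch (x (y b)) b ≤ h)
    (hy2 : ∀ b ∈ F \ N, VV x (univ.erase (y b)) k ≤ η2)
    (hsmall : 4 * h * 4 ^ F.card ≤ ηc / 2)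
    (i : ι) (c : ℂ) (hcH : c ∈ H) (hci : ch (x i) c ≤ 3 * h) :
    VV x (univ.erase i) k * ∏ b ∈ N, ch b (x i) ≤ 2 * K * ηc + F.card * 2 ^ (F.card + 2) * η2 := by
  classical
  set m := F.card with hm
  set e := 4 * h * 4 ^ m with he
  have hK1 : 1 ≤ K := (one_le_KK x univ).trans hK
  have he0 : 0 ≤ e := by rw [he]; positivity
  have hN2 : ∏ b ∈ N, ch b (x i) ≤ 2 ^ m := by
    calc ∏ b ∈ N, ch b (x i) ≤ ∏ b ∈ N, 2 :=
          prod_le_prod (fun _ _ => ch_nonneg _ _) (fun _ _ => ch_le_two _ _)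
      _ = 2 ^ N.card := by rw [prod_const]
      _ ≤ 2 ^ m := pow_le_pow_right₀ (by norm_num) (card_le_card hNF)
  have hN0 : 0 ≤ ∏ b ∈ N, ch b (x i) := prod_nonneg (fun _ _ => ch_nonneg _ _)
  -- injectivity
  have hyinj : ∀ b ∈ F \ N, ∀ b' ∈ F \ N, x (y b) = x (y b') → b = b' := by
    intro b hb b' hb' hbb
    by_contra hne
    have h1 := hsep b (mem_sdiff.mp hb).1 b' (mem_sdiff.mp hb').1 hne
    have h2 := hy b hb
    have h3 := hy b' hb'
    have h4 := ch_triangle b (x (y b)) b'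
    rw [ch_symm b (x (y b))] at h4
    rw [hbb] at h4 h2
    linarith
  by_cases hdeg : ∃ b ∈ F \ N, x i = x (y b)
  · obtain ⟨b, hb, hib⟩ := hdeg
    have h1 : VV x (univ.erase i) k = VV x (univ.erase (y b)) k := by
      rw [VV_eq, VV_eq, es_erase_eq_of_eq univ x k (mem_univ i) (mem_univ (y b)) hib]
      have h2 : PM x (univ.erase i) = PM x (univ.erase (y b)) := by
        have h3 := PM_erase x (mem_univ i)
        have h4 := PM_erase x (mem_univ (y b))
        rw [hib] at h3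
        have h5 := mx_pos (x (y b))
        have h6 : mx (x (y b)) * PM x (univ.erase i) = mx (x (y b)) * PM x (univ.erase (y b)) := by
          rw [h3, h4]
        exact mul_left_cancel₀ h5.ne' h6
      rw [h2]
    rw [h1]
    have h2 := hy2 b hb
    have hmpos : 0 < m := card_pos.mpr ⟨b, (mem_sdiff.mp hb).1⟩
    have hm1 : (1:ℝ) ≤ m := by exact_mod_cast hmpos
    calc VV x (univ.erase (y b)) k * ∏ b ∈ N, ch b (x i) ≤ η2 * 2 ^ m := by
          gcongr
      _ ≤ m * 2 ^ (m+2) * η2 := by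
          rw [pow_add]
          have h3 : (0:ℝ) < 2 ^ m := by positivity
          have h4 : 0 ≤ 2 ^ m * η2 := by positivity
          nlinarith
      _ ≤ _ := by
          have : 0 ≤ 2 * K * ηc := by positivity
          linarith
  · push Not at hdeg
    set G0 := F \ N with hG0
    set Gs : Finset ι := G0.image y with hGs
    have hyinj' : Set.InjOn y (G0 : Set ℂ) := by
      intro b hb b' hb' hbb
      exact hyinj b (by exact_mod_cast hb) b' (by exact_mod_cast hb') (by rw [hbb])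
    have hiG : i ∉ Gs := by
      intro h1
      obtain ⟨b, hb, hbi⟩ := mem_image.mp h1
      exact hdeg b hb (by rw [hbi])
    have hinj : Set.InjOn x (insert i Gs : Finset ι) := by
      intro p hp p' hp' hpp
      rw [mem_coe, mem_insert] at hp hp'
      rcases hp with rfl | hp <;> rcases hp' with rfl | hp'
      · rfl
      · obtain ⟨b, hb, rfl⟩ := mem_image.mp hp'
        exact absurd hpp (hdeg b hb)
      · obtain ⟨b, hb, rfl⟩ := mem_image.mp hp
        exact absurd hpp.symm (hdeg b hb)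
      · obtain ⟨b, hb, rfl⟩ := mem_image.mp hp
        obtain ⟨b', hb', rfl⟩ := mem_image.mp hp'
        rw [hyinj b hb b' hb' hpp]
    have key := int_ineq x univ i Gs (mem_univ i) (subset_univ _) hiG hinj k
    set z : ℂ → ℂ := fun b => if b ∈ N then b else x (y b) with hz
    have hzN : ∀ b ∈ N, z b = b := by intro b hb; rw [hz]; simp [hb]
    have hzG : ∀ b ∈ G0, z b = x (y b) := by
      intro b hb
      have : b ∉ N := (mem_sdiff.mp hb).2
      rw [hz]; simp [this]
    have hzF : ∀ b ∈ F, ch (z b) b ≤ h := by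
      intro b hb
      by_cases hbN : b ∈ N
      · rw [hzN b hbN, ch_self]; exact hh0
      · have hb' : b ∈ G0 := mem_sdiff.mpr ⟨hb, hbN⟩
        rw [hzG b hb']; exact hy b hb'
    have hci4 : ∀ b ∈ F, ch (x i) (z b) ≤ ch c b + 4 * h := by
      intro b hb
      have h1 := ch_triangle (x i) c (z b)
      have h2 := ch_triangle c b (z b)
      have h3 := hzF b hb
      rw [ch_symm (z b) b] at h3
      linarith
    -- first term
    have hfull : ∏ b ∈ F, ch (x i) (z b) ≤ ηc + e := by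
      have h1 := prod_pert F (fun b => ch c b) (fun b => ch (x i) (z b)) (4*h) (by linarith) hh1
        (fun _ _ => ch_nonneg _ _) (fun _ _ => ch_le_two _ _) (fun _ _ => ch_nonneg _ _) hci4
      have h2 := hP2 c hcH
      rw [← hm] at h1
      linarith
    have hsplitF : ∏ b ∈ F, ch (x i) (z b) = (∏ j ∈ Gs, ch (x i) (x j)) * ∏ b ∈ N, ch b (x i) := by
      rw [hGs, prod_image hyinj', ← prod_sdiff hNF]
      congr 1
      · exact prod_congr rfl (fun b hb => by rw [hzG b hb])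
      · exact prod_congr rfl (fun b hb => by rw [hzN b hb, ch_symm])
    have hfirst : KK x univ * (∏ j ∈ Gs, ch (x i) (x j)) * ∏ b ∈ N, ch b (x i) ≤ K * (ηc + e) := by
      rw [mul_assoc, ← hsplitF]
      have h1 : 0 ≤ ∏ b ∈ F, ch (x i) (z b) := prod_nonneg (fun _ _ => ch_nonneg _ _)
      have h2 : 0 ≤ KK x univ := le_trans zero_le_one (one_le_KK x univ)
      gcongr
    -- second term
    have hsecond : ∀ b ∈ G0, (VV x (univ.erase (y b)) k
        * ∏ j ∈ Gs.erase (y b), (ch (x i) (x j) / ch (x (y b)) (x j))) * ∏ b' ∈ N, ch b' (x i)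
        ≤ η2 * 2 ^ (m+2) := by
      intro b hb
      have hbF : b ∈ F := (mem_sdiff.mp hb).1
      have hbN : b ∉ N := (mem_sdiff.mp hb).2
      have hGe : Gs.erase (y b) = (G0.erase b).image y := by
        ext j
        rw [mem_erase, hGs, mem_image, mem_image]
        constructor
        · rintro ⟨h1, b', hb', rfl⟩
          exact ⟨b', mem_erase.mpr ⟨fun h => h1 (by rw [h]), hb'⟩, rfl⟩
        · rintro ⟨b', hb', rfl⟩
          rw [mem_erase] at hb'
          refine ⟨fun h => hb'.1 (hyinj' (by exact_mod_cast hb'.2) (by exact_mod_cast hb) h), b', hb'.2, rfl⟩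
      have hyinj2 : Set.InjOn y (G0.erase b : Finset ℂ) :=
        hyinj'.mono (by exact_mod_cast erase_subset b G0)
      rw [hGe, prod_image hyinj2, prod_div_distrib]
      set Dn := ∏ b' ∈ G0.erase b, ch (x (y b)) (x (y b')) with hDn
      set Nn := ∏ b' ∈ G0.erase b, ch (x i) (x (y b')) with hNn
      set pb := ∏ b' ∈ F.erase b, ch b b' with hpb
      have hpbη := hP3 b hbF
      have hFe : F.erase b = (G0.erase b) ∪ N := by
        ext j
        rw [mem_union, mem_erase, mem_erase, hG0, mem_sdiff]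
        constructor
        · rintro ⟨h1, h2⟩
          by_cases h3 : j ∈ N
          · exact Or.inr h3
          · exact Or.inl ⟨h1, h2, h3⟩
        · rintro (⟨h1, h2, _⟩ | h1)
          · exact ⟨h1, h2⟩
          · exact ⟨fun h => hbN (h ▸ h1), hNF h1⟩
      have hdisj : Disjoint (G0.erase b) N := by
        rw [disjoint_left]
        intro j hj hj'
        exact (mem_sdiff.mp (mem_of_mem_erase hj)).2 hj'
      have hnum : Nn * ∏ b' ∈ N, ch b' (x i) ≤ pb + e := by
        have e1 : Nn * ∏ b' ∈ N, ch b' (x i) = ∏ b' ∈ F.erase b, ch (x i) (z b') := by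
          rw [hFe, prod_union hdisj]
          congr 1
          · exact prod_congr rfl (fun b' hb' => by rw [hzG b' (mem_of_mem_erase hb')])
          · exact prod_congr rfl (fun b' hb' => by rw [hzN b' hb', ch_symm])
        rw [e1]
        have h1 := prod_pert (F.erase b) (fun b' => ch c b') (fun b' => ch (x i) (z b')) (4*h)
          (by linarith) hh1 (fun _ _ => ch_nonneg _ _) (fun _ _ => ch_le_two _ _)
          (fun _ _ => ch_nonneg _ _) (fun b' hb' => hci4 b' (mem_of_mem_erase hb'))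
        have h2 := hP1 b hbF c hcH
        have h3 : 4 * h * 4 ^ (F.erase b).card ≤ e := by
          rw [he]
          have : (4:ℝ) ^ (F.erase b).card ≤ 4 ^ m :=
            pow_le_pow_right₀ (by norm_num) (card_le_card (erase_subset _ _))
          gcongr
        linarith
      have hden : pb / 2 ≤ Dn * 2 ^ m := by
        have h1 := pert_nodes F z ηc h hηc hh0 (by linarith) hzF hsmall hP3 b hbF
        have e1 : ∏ b' ∈ F.erase b, ch (z b) (z b') = Dn * ∏ b' ∈ N, ch (z b) (z b') := by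
          rw [hFe, prod_union hdisj]
          congr 1
          exact prod_congr rfl (fun b' hb' => by rw [hzG b hb, hzG b' (mem_of_mem_erase hb')])
        have h2 : ∏ b' ∈ N, ch (z b) (z b') ≤ 2 ^ m := by
          calc ∏ b' ∈ N, ch (z b) (z b') ≤ ∏ b' ∈ N, 2 :=
                prod_le_prod (fun _ _ => ch_nonneg _ _) (fun _ _ => ch_le_two _ _)
            _ = 2 ^ N.card := by rw [prod_const]
            _ ≤ 2 ^ m := pow_le_pow_right₀ (by norm_num) (card_le_card hNF)
        rw [e1] at h1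
        have h3 : 0 ≤ Dn := prod_nonneg (fun _ _ => ch_nonneg _ _)
        exact h1.trans (by gcongr)
      have hDpos : 0 < Dn := by
        have h1 : 0 < pb / 2 := by linarith
        have h2 : 0 < Dn * 2 ^ m := lt_of_lt_of_le h1 hden
        exact (pos_iff_pos_of_mul_pos h2).mpr (by positivity)
      have hratio : Nn / Dn * ∏ b' ∈ N, ch b' (x i) ≤ 2 ^ (m+2) := by
        rw [div_mul_eq_mul_div, div_le_iff₀ hDpos]
        have h1 : e ≤ pb / 2 := by linarith
        calc Nn * ∏ b' ∈ N, ch b' (x i) ≤ pb + e := hnum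
          _ ≤ 4 * (pb / 2) := by linarith
          _ ≤ 4 * (Dn * 2 ^ m) := by gcongr
          _ = _ := by rw [pow_add]; ring
      have hv := hy2 b hb
      have hv0 := VV_nonneg x (univ.erase (y b)) k
      calc VV x (univ.erase (y b)) k * (Nn / Dn) * ∏ b' ∈ N, ch b' (x i)
          = VV x (univ.erase (y b)) k * (Nn / Dn * ∏ b' ∈ N, ch b' (x i)) := by ring
        _ ≤ η2 * 2 ^ (m+2) := by
            apply mul_le_mul hv hratio _ hη2
            apply mul_nonneg _ hN0
            exact div_nonneg (prod_nonneg (fun _ _ => ch_nonneg _ _)) hDpos.le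
    have hsum : (∑ l ∈ Gs, VV x (univ.erase l) k * ∏ j ∈ Gs.erase l, (ch (x i) (x j) / ch (x l) (x j)))
        * ∏ b ∈ N, ch b (x i) ≤ m * (η2 * 2 ^ (m+2)) := by
      rw [sum_mul]
      conv_lhs => rw [hGs]
      rw [sum_image hyinj']
      calc _ ≤ ∑ b ∈ G0, η2 * 2 ^ (m+2) := by
            apply sum_le_sum
            intro b hb
            have := hsecond b hb
            rw [hGs] at this
            exact this
        _ = G0.card * (η2 * 2 ^ (m+2)) := by rw [sum_const, nsmul_eq_mul]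
        _ ≤ m * (η2 * 2 ^ (m+2)) := by
            have : (G0.card : ℝ) ≤ m := by exact_mod_cast card_le_card sdiff_subset
            gcongr
    calc VV x (univ.erase i) k * ∏ b ∈ N, ch b (x i)
        ≤ (KK x univ * ∏ j ∈ Gs, ch (x i) (x j)
          + ∑ l ∈ Gs, VV x (univ.erase l) k * ∏ j ∈ Gs.erase l, (ch (x i) (x j) / ch (x l) (x j)))
          * ∏ b ∈ N, ch b (x i) := by gcongr
      _ = KK x univ * (∏ j ∈ Gs, ch (x i) (x j)) * ∏ b ∈ N, ch b (x i)
          + (∑ l ∈ Gs, VV x (univ.erase l) k * ∏ j ∈ Gs.erase l, (ch (x i) (x j) / ch (x l) (x j)))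
          * ∏ b ∈ N, ch b (x i) := by ring
      _ ≤ K * (ηc + e) + m * (η2 * 2 ^ (m+2)) := add_le_add hfirst hsum
      _ ≤ 2 * K * ηc + m * 2 ^ (m+2) * η2 := by
          have : e ≤ ηc := by linarith
          nlinarith

end
end Pool.Agent.TH963
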