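import Mathlib
import Pool.Agent.TH963.EG

set_option autoImplicit false
set_option linter.unusedVariables false
set_option linter.unusedSectionVars false

namespace Pool.Agent.TH963
open Finset Pool.Agent.H704R3 MeasureTheory
open scoped ENNReal

theorem color_nodes (F N : Finset ℂ) (hNF : N ⊆ F) (z : ℂ → ℂ) (ηc h : ℝ) (hηc : 0 < ηc)
    (hh0 : 0 ≤ h) (hh1 : 2 * h ≤ 1) (hz : ∀ b ∈ F, ch (z b) b ≤ h)
    (hsmall : 4 * h * 4 ^ F.card ≤ ηc / 2)
    (hP3 : ∀ a ∈ F, ηc ≤ ∏ b ∈ F.erase a, ch a b) (J : ℕ) (hJ : 0 < J) :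
    ∃ G : Finset ℂ, G ⊆ F \ N ∧ (F \ N).card ≤ J * G.card ∧
      ∀ b ∈ G, Real.exp (-(Real.log (2 ^ (F.card + 1) / ηc) / J)) ≤ ∏ b' ∈ G.erase b, ch (z b) (z b') := by
  classical
  set m := F.card with hm
  have hpn := fun a ha => pert_nodes F z ηc h hηc hh0 hh1 hz hsmall hP3 a ha
  have hpos : ∀ a ∈ F, ∀ b ∈ F, a ≠ b → 0 < ch (z a) (z b) := by
    intro a ha b hb hab
    rcases (ch_nonneg (z a) (z b)).lt_or_eq with h1 | h1
    · exact h1
    · exfalso
      have h2 := hpn a ha
      have h0 : ∏ b' ∈ F.erase a, ch (z a) (z b') = 0 :=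
        prod_eq_zero (mem_erase.mpr ⟨Ne.symm hab, hb⟩) h1.symm
      rw [h0] at h2
      have h3 := hP3 a ha
      linarith
  set W : ℂ → ℂ → ℝ := fun a b => |Real.log (2 / ch (z a) (z b))| with hW
  have hWpos : ∀ a ∈ F, ∀ b ∈ F, a ≠ b → W a b = Real.log (2 / ch (z a) (z b)) := by
    intro a ha b hb hab
    rw [hW]
    apply abs_of_nonneg
    apply Real.log_nonneg
    rw [one_le_div (hpos a ha b hb hab)]
    exact ch_le_two _ _
  have hrow : ∀ a ∈ F \ N, ∑ b ∈ (F \ N).erase a, W a b ≤ Real.log (2 ^ (m+1) / ηc) := by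
    intro a ha
    have haF : a ∈ F := (mem_sdiff.mp ha).1
    calc ∑ b ∈ (F \ N).erase a, W a b ≤ ∑ b ∈ F.erase a, W a b := by
          apply sum_le_sum_of_subset_of_nonneg
          · exact erase_subset_erase _ sdiff_subset
          · intro b _ _; exact abs_nonneg _
      _ = ∑ b ∈ F.erase a, Real.log (2 / ch (z a) (z b)) := by
          apply sum_congr rfl
          intro b hb
          exact hWpos a haF b (mem_of_mem_erase hb) (ne_of_mem_erase hb).symm
      _ = Real.log (∏ b ∈ F.erase a, (2 / ch (z a) (z b))) := by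
          rw [Real.log_prod]
          intro b hb
          have := hpos a haF b (mem_of_mem_erase hb) (ne_of_mem_erase hb).symm
          positivity
      _ ≤ Real.log (2 ^ (m+1) / ηc) := by
          apply Real.log_le_log
          · apply prod_pos
            intro b hb
            have := hpos a haF b (mem_of_mem_erase hb) (ne_of_mem_erase hb).symm
            positivity
          · rw [prod_div_distrib, prod_const]
            have h1 := hpn a haF
            have h2 := hP3 a haF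
            have h3 : ηc / 2 ≤ ∏ b ∈ F.erase a, ch (z a) (z b) := by linarith
            have h4 : (2:ℝ) ^ (F.erase a).card ≤ 2 ^ m :=
              pow_le_pow_right₀ (by norm_num) (card_le_card (erase_subset _ _))
            calc (2:ℝ) ^ (F.erase a).card / ∏ b ∈ F.erase a, ch (z a) (z b) ≤ 2 ^ m / (ηc / 2) := by
                  gcongr
              _ = _ := by rw [pow_succ]; field_simp
  obtain ⟨G, hG1, hG2, hG3⟩ := coloring (F \ N) W (fun _ _ => abs_nonneg _)
    (fun a b => by rw [hW]; simp only; rw [ch_symm]) _ hrow J hJ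
  refine ⟨G, hG1, hG2, ?_⟩
  intro b hb
  have hbF : b ∈ F := (mem_sdiff.mp (hG1 hb)).1
  have h1 := hG3 b hb
  have hposG : ∀ b' ∈ G.erase b, 0 < ch (z b) (z b') := by
    intro b' hb'
    exact hpos b hbF b' (mem_sdiff.mp (hG1 (mem_of_mem_erase hb'))).1 (ne_of_mem_erase hb').symm
  have h2 : ∑ b' ∈ G.erase b, W b b' = Real.log (∏ b' ∈ G.erase b, (2 / ch (z b) (z b'))) := by
    rw [Real.log_prod]
    · apply sum_congr rfl
      intro b' hb'
      exact hWpos b hbF b' (mem_sdiff.mp (hG1 (mem_of_mem_erase hb'))).1 (ne_of_mem_erase hb').symm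
    · intro b' hb'
      have := hposG b' hb'
      positivity
  rw [h2] at h1
  have hPpos : 0 < ∏ b' ∈ G.erase b, ch (z b) (z b') := prod_pos hposG
  have h3 : ∏ b' ∈ G.erase b, (2 / ch (z b) (z b')) = 2 ^ (G.erase b).card / ∏ b' ∈ G.erase b, ch (z b) (z b') := by
    rw [prod_div_distrib, prod_const]
  rw [h3] at h1
  have h4 : (1:ℝ) / ∏ b' ∈ G.erase b, ch (z b) (z b') ≤ 2 ^ (G.erase b).card / ∏ b' ∈ G.erase b, ch (z b) (z b') := by
    gcongr
    exact one_le_pow₀ (by norm_num)
  have h5 : Real.log (1 / ∏ b' ∈ G.erase b, ch (z b) (z b')) ≤ Real.log (2 ^ (m+1) / ηc) / J :=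
    (Real.log_le_log (by positivity) h4).trans h1
  rw [one_div, Real.log_inv] at h5
  rw [← Real.le_log_iff_exp_le hPpos]
  linarith

/-- closed chordal ball -/
def cb (t : ℂ) (r : ℝ) : Set ℂ := {s | ch s t ≤ r}

lemma cb_measurable (t : ℂ) (r : ℝ) : MeasurableSet (cb t r) := by
  have : Continuous (fun s : ℂ => ch s t) := ch_continuous.comp (by fun_prop : Continuous fun s : ℂ => (s, t))
  exact (isClosed_le this continuous_const).measurableSet

lemma mem_cb {s t : ℂ} {r : ℝ} : s ∈ cb t r ↔ ch s t ≤ r := Iff.rfl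

theorem exists_net (lam : Measure ℂ) [IsFiniteMeasure lam] (x0 : ℝ≥0∞) (hx0 : 0 < x0) (h : ℝ)
    (hh : 0 < h) : ∃ H : Finset ℂ, (∀ t ∈ H, x0 ≤ lam (cb t h)) ∧
      (∀ a ∈ H, ∀ b ∈ H, a ≠ b → 3 * h < ch a b) ∧
      (∀ t, x0 ≤ lam (cb t h) → ∃ a ∈ H, ch t a ≤ 3 * h) := by
  classical
  set P : Finset ℂ → Prop := fun S => (∀ t ∈ S, x0 ≤ lam (cb t h)) ∧
      (∀ a ∈ S, ∀ b ∈ S, a ≠ b → 3 * h < ch a b) with hP
  have hbound : ∀ S, P S → (S.card : ℝ≥0∞) * x0 ≤ lam Set.univ := by
    intro S hS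
    have hdisj : Set.PairwiseDisjoint (S : Set ℂ) (fun t => cb t h) := by
      intro a ha b hb hab
      rw [Function.onFun, Set.disjoint_left]
      intro s hs hs'
      have h1 := hS.2 a (by exact_mod_cast ha) b (by exact_mod_cast hb) hab
      have h2 := ch_triangle a s b
      rw [mem_cb] at hs hs'
      rw [ch_symm a s] at h2
      linarith
    calc (S.card : ℝ≥0∞) * x0 = ∑ t ∈ S, x0 := by rw [sum_const, nsmul_eq_mul]
      _ ≤ ∑ t ∈ S, lam (cb t h) := sum_le_sum hS.1
      _ = lam (⋃ t ∈ S, cb t h) := (measure_biUnion_finset hdisj (fun t _ => cb_measurable t h)).symm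
      _ ≤ lam Set.univ := measure_mono (Set.subset_univ _)
  by_cases htop : x0 = ⊤
  · refine ⟨∅, by simp, by simp, ?_⟩
    intro t ht
    rw [htop, top_le_iff] at ht
    exact absurd ht (measure_ne_top lam _)
  obtain ⟨B, hB⟩ : ∃ B : ℕ, ∀ S, P S → S.card ≤ B := by
    have hfin : lam Set.univ / x0 ≠ ⊤ := ENNReal.div_ne_top (measure_ne_top lam _) hx0.ne'
    obtain ⟨B, hB⟩ := ENNReal.exists_nat_gt hfin
    refine ⟨B, fun S hS => ?_⟩
    have h1 := hbound S hS
    have h2 : (S.card : ℝ≥0∞) ≤ lam Set.univ / x0 := by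
      rw [ENNReal.le_div_iff_mul_le (Or.inl hx0.ne') (Or.inl htop)]
      exact h1
    have h3 : (S.card : ℝ≥0∞) ≤ B := (h2.trans_lt hB).le
    exact_mod_cast h3
  set N := Nat.findGreatest (fun n => ∃ S, P S ∧ S.card = n) B with hN
  have hspec : ∃ S, P S ∧ S.card = N := by
    apply Nat.findGreatest_spec (P := fun n => ∃ S, P S ∧ S.card = n) (Nat.zero_le B)
    exact ⟨∅, ⟨by simp, by simp⟩, by simp⟩
  obtain ⟨S, hS, hSc⟩ := hspec
  refine ⟨S, hS.1, hS.2, ?_⟩
  intro t ht
  by_contra hcon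
  push Not at hcon
  have htS : t ∉ S := by
    intro h1
    have := hcon t h1
    rw [ch_self] at this
    linarith
  have hP' : P (insert t S) := by
    constructor
    · intro s hs
      rcases mem_insert.mp hs with rfl | hs
      · exact ht
      · exact hS.1 s hs
    · intro a ha b hb hab
      rcases mem_insert.mp ha with ha1 | ha1
      · rcases mem_insert.mp hb with hb1 | hb1
        · exact absurd (ha1.trans hb1.symm) hab
        · rw [ha1]; exact hcon b hb1
      · rcases mem_insert.mp hb with hb1 | hb1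
        · rw [hb1, ch_symm]; exact hcon a ha1
        · exact hS.2 a ha1 b hb1 hab
  have h1 : (insert t S).card ≤ N := by
    rw [hN]
    apply Nat.le_findGreatest (hB _ hP')
    exact ⟨_, hP', rfl⟩
  rw [card_insert_of_notMem htS, hSc] at h1
  omega

end Pool.Agent.TH963
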