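import Mathlib
import Pool.Agent.TH963.EH

set_option autoImplicit false
set_option linter.unusedVariables false
set_option linter.unusedSectionVars false

namespace Pool.Agent.TH963
open Finset Pool.Agent.H704R3 MeasureTheory
open scoped ENNReal

section
variable {ι : Type*} [Fintype ι] [DecidableEq ι]

lemma es_measurable (S : Finset ι) (k : ℕ) : Measurable (fun x : ι → ℂ => es S k x) := by
  unfold es
  apply Finset.measurable_sum
  intro T _
  apply Finset.measurable_prod
  intro i _
  exact measurable_pi_apply i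

lemma VV_measurable (S : Finset ι) (k : ℕ) : Measurable (fun x : ι → ℂ => VV x S k) := by
  unfold VV
  refine (es_measurable S k).norm.div ?_
  apply Finset.measurable_prod
  intro i _
  exact mx_continuous.measurable.comp (measurable_pi_apply i)

lemma VV_congr (x y : ι → ℂ) (S : Finset ι) (k : ℕ) (h : ∀ i ∈ S, x i = y i) :
    VV x S k = VV y S k := by
  unfold VV
  have h1 : es S k x = es S k y := by
    unfold es
    apply sum_congr rfl
    intro T hT
    apply prod_congr rfl
    intro i hi
    exact h i ((mem_powersetCard.mp hT).1 hi)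
  have h2 : ∏ i ∈ S, mx (x i) = ∏ i ∈ S, mx (y i) := prod_congr rfl (fun i hi => by rw [h i hi])
  rw [h1, h2]

/-- resonance event for one coordinate -/
def R1 (k : ℕ) (η1 η2 : ℝ) (i : ι) : Set (ι → ℂ) :=
  {x | VV x univ k ≤ η1 ∧ η2 < VV x (univ.erase i) k}

/-- resonance event for an ordered pair -/
def R2 (k : ℕ) (η2 η3 : ℝ) (a i : ι) : Set (ι → ℂ) :=
  {x | VV x (univ.erase a) k ≤ η2 ∧ η3 < VV x ((univ.erase a).erase i) k}

lemma R1_measurable (k : ℕ) (η1 η2 : ℝ) (i : ι) : MeasurableSet (R1 k η1 η2 i : Set (ι → ℂ)) :=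
  (measurableSet_le (VV_measurable _ _) measurable_const).inter
    (measurableSet_lt measurable_const (VV_measurable _ _))

lemma R2_measurable (k : ℕ) (η2 η3 : ℝ) (a i : ι) : MeasurableSet (R2 k η2 η3 a i : Set (ι → ℂ)) :=
  (measurableSet_le (VV_measurable _ _) measurable_const).inter
    (measurableSet_lt measurable_const (VV_measurable _ _))

theorem RL1 (μ : ι → Measure ℂ) [∀ i, IsProbabilityMeasure (μ i)] (k : ℕ) (hk : 1 ≤ k)
    (η1 η2 ρ : ℝ) (hη2 : 0 < η2) (hρ : 2 * η1 / η2 ≤ ρ) (i : ι) (w : ℂ → ℝ≥0∞) (hw : Measurable w) (b : ℝ≥0∞)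
    (hb : ∀ A : Set ℂ, MeasurableSet A → (∀ t ∈ A, ∀ t' ∈ A, ch t t' ≤ ρ) →
      ∫⁻ t in A, w t ∂μ i ≤ b) :
    ∫⁻ x, (R1 k η1 η2 i).indicator (fun x => w (x i)) x ∂Measure.pi μ ≤ b := by
  obtain ⟨k, rfl⟩ : ∃ k', k = k' + 1 := ⟨k - 1, by omega⟩
  apply lintegral_pi_le_update μ i _ ((hw.comp (measurable_pi_apply i)).indicator (R1_measurable _ _ _ _))
  intro x
  set A : Set ℂ := (fun t => Function.update x i t) ⁻¹' (R1 (k+1) η1 η2 i) with hA
  have hAm : MeasurableSet A := (measurable_update x) (R1_measurable _ _ _ _)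
  have h1 : ∀ t, (R1 (k+1) η1 η2 i).indicator (fun x => w (x i)) (Function.update x i t) = A.indicator w t := by
    intro t
    by_cases ht : t ∈ A
    · rw [Set.indicator_of_mem ht, Set.indicator_of_mem (show Function.update x i t ∈ R1 (k+1) η1 η2 i from ht)]
      simp
    · rw [Set.indicator_of_notMem ht, Set.indicator_of_notMem (show Function.update x i t ∉ R1 (k+1) η1 η2 i from ht)]
  refine (lintegral_congr h1).trans_le ?_
  rw [lintegral_indicator hAm]
  apply hb A hAm
  intro t ht t' ht'
  have h2 := resonance (Function.update x i t) (Function.update x i t') univ i (mem_univ i) k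
    (fun j hj => by
      rw [Function.update_of_ne (ne_of_mem_erase hj), Function.update_of_ne (ne_of_mem_erase hj)])
    η1 η2 hη2 ht.1 ht'.1 ht.2
  simp only [Function.update_self] at h2
  exact h2.trans hρ

theorem RL2 (μ : ι → Measure ℂ) [∀ i, IsProbabilityMeasure (μ i)] (k : ℕ) (hk : 1 ≤ k)
    (η2 η3 ρ : ℝ) (hη3 : 0 < η3) (hρ : 2 * η2 / η3 ≤ ρ) (a i : ι) (hai : a ≠ i)
    (W : ℂ → ℂ → ℝ≥0∞) (hW : Measurable (Function.uncurry W)) (b : ℝ≥0∞)
    (hb : ∀ A : Set ℂ, MeasurableSet A → (∀ t ∈ A, ∀ t' ∈ A, ch t t' ≤ ρ) →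
      ∫⁻ t in A, ∫⁻ s, W s t ∂μ a ∂μ i ≤ b) :
    ∫⁻ x, (R2 k η2 η3 a i).indicator (fun x => W (x a) (x i)) x ∂Measure.pi μ ≤ b := by
  obtain ⟨k, rfl⟩ : ∃ k', k = k' + 1 := ⟨k - 1, by omega⟩
  have hWm : Measurable (fun x : ι → ℂ => W (x a) (x i)) := by
    have h0 : Measurable (fun x : ι → ℂ => (x a, x i)) :=
      (measurable_pi_apply a).prodMk (measurable_pi_apply i)
    exact hW.comp h0
  apply lintegral_pi_le_update2 μ a i hai _ (hWm.indicator (R2_measurable _ _ _ _ _))
  intro x
  set A : Set ℂ := (fun t => Function.update x i t) ⁻¹' (R2 (k+1) η2 η3 a i) with hA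
  have hAm : MeasurableSet A := (measurable_update x) (R2_measurable _ _ _ _ _)
  have hmem : ∀ s t, Function.update (Function.update x a s) i t ∈ R2 (k+1) η2 η3 a i ↔ t ∈ A := by
    intro s t
    have hc : ∀ S : Finset ι, a ∉ S → VV (Function.update (Function.update x a s) i t) S (k+1)
        = VV (Function.update x i t) S (k+1) := by
      intro S hS
      apply VV_congr
      intro j hj
      by_cases hji : j = i
      · subst hji; simp
      · rw [Function.update_of_ne hji, Function.update_of_ne hji, Function.update_of_ne]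
        rintro rfl; exact hS hj
    show _ ∧ _ ↔ _ ∧ _
    rw [hc _ (notMem_erase _ _), hc _ (fun h => notMem_erase a univ (mem_of_mem_erase h))]
  have h1 : ∀ s t, (R2 (k+1) η2 η3 a i).indicator (fun x => W (x a) (x i)) (Function.update (Function.update x a s) i t)
      = A.indicator (fun _ => W s t) t := by
    intro s t
    by_cases ht : t ∈ A
    · rw [Set.indicator_of_mem ht, Set.indicator_of_mem ((hmem s t).mpr ht)]
      simp [Function.update_of_ne hai]
    · rw [Set.indicator_of_notMem ht, Set.indicator_of_notMem (fun h => ht ((hmem s t).mp h))]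
  have h3 : ∀ t, ∫⁻ s, A.indicator (fun _ => W s t) t ∂μ a = A.indicator (fun t => ∫⁻ s, W s t ∂μ a) t := by
    intro t
    by_cases ht : t ∈ A
    · simp [Set.indicator_of_mem ht]
    · simp [Set.indicator_of_notMem ht]
  refine (lintegral_congr (fun t => (lintegral_congr (fun s => h1 s t)).trans (h3 t))).trans_le ?_
  rw [lintegral_indicator hAm]
  apply hb A hAm
  intro t ht t' ht'
  have h2 := resonance (Function.update x i t) (Function.update x i t') (univ.erase a) i
    (mem_erase.mpr ⟨hai.symm, mem_univ i⟩) k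
    (fun j hj => by
      rw [Function.update_of_ne (ne_of_mem_erase hj), Function.update_of_ne (ne_of_mem_erase hj)])
    η2 η3 hη3 ht.1 ht'.1 ht.2
  simp only [Function.update_self] at h2
  exact h2.trans hρ

end

end Pool.Agent.TH963
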