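import Mathlib
import Pool.Agent.TH963.EPr

set_option autoImplicit false
set_option linter.unusedVariables false
set_option linter.unusedSectionVars false

namespace Pool.Agent.TH963
open Finset Pool.Agent.H704R3 MeasureTheory
open scoped ENNReal

section
variable {ι : Type*} [Fintype ι] [DecidableEq ι]

/-- sum of the laws -/
noncomputable def lam (μ : ι → Measure ℂ) : Measure ℂ := ∑ i, μ i

lemma lam_apply (μ : ι → Measure ℂ) (A : Set ℂ) : lam μ A = ∑ i, μ i A := by
  unfold lam
  rw [Measure.finsetSum_apply]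

instance lam_finite (μ : ι → Measure ℂ) [∀ i, IsProbabilityMeasure (μ i)] : IsFiniteMeasure (lam μ) := by
  constructor
  rw [lam_apply]
  simp

lemma lam_ball_measurable (ν : Measure ℂ) [IsFiniteMeasure ν] (r : ℝ) : Measurable (fun t => ν (cb t r)) := by
  have hs : MeasurableSet {p : ℂ × ℂ | ch p.2 p.1 ≤ r} := by
    have : Continuous (fun p : ℂ × ℂ => ch p.2 p.1) :=
      ch_continuous.comp (by fun_prop : Continuous fun p : ℂ × ℂ => (p.2, p.1))
    exact (isClosed_le this continuous_const).measurableSet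
  have := measurable_measure_prodMk_left (ν := ν) hs
  exact this

lemma light_measurable (ν : Measure ℂ) [IsFiniteMeasure ν] (r : ℝ) (x0 : ℝ≥0∞) :
    MeasurableSet {t : ℂ | ν (cb t r) < x0} :=
  measurableSet_lt (lam_ball_measurable ν r) measurable_const

/-- the mass of a small set of light points is small -/
lemma light_mass (ν : Measure ℂ) (r : ℝ) (x0 : ℝ≥0∞) (A : Set ℂ) (d : ℝ) (t1 : ℂ)
    (h1 : ν (cb t1 r) < x0) (hd : ∀ t ∈ A, ch t t1 ≤ r) : ν A ≤ x0 :=
  (measure_mono (fun t ht => hd t ht)).trans h1.le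

theorem light_I (μ : ι → Measure ℂ) [∀ i, IsProbabilityMeasure (μ i)] (θ : ι → ℝ≥0∞)
    (hθ : ∀ i A, MeasurableSet A → μ i A ≤ θ i * lam μ A) (Θ : ℝ≥0∞) (hΘ : ∑ i, θ i ≤ Θ)
    (k : ℕ) (hk : 1 ≤ k) (η1 η2 h : ℝ) (hη2 : 0 < η2) (hρ : 2 * η1 / η2 ≤ h) (x0 : ℝ≥0∞) :
    ∃ F : (ι → ℂ) → ℝ≥0∞, Measurable F ∧ ∫⁻ x, F x ∂Measure.pi μ ≤ Θ * x0 ∧
      ∀ x, VV x univ k ≤ η1 →
        ((univ.filter (fun i => lam μ (cb (x i) h) < x0 ∧ η2 < VV x (univ.erase i) k)).card : ℝ≥0∞) ≤ F x := by
  classical
  set Wl : Set ℂ := {t : ℂ | lam μ (cb t h) < x0} with hWl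
  have hWm : MeasurableSet Wl := light_measurable _ _ _
  set w : ℂ → ℝ≥0∞ := Wl.indicator 1 with hw
  have hwm : Measurable w := measurable_one.indicator hWm
  have hFm : ∀ i : ι, Measurable (fun x : ι → ℂ => (R1 k η1 η2 i).indicator (fun x => w (x i)) x) :=
    fun i => (hwm.comp (measurable_pi_apply i)).indicator (R1_measurable _ _ _ _)
  refine ⟨fun x => ∑ i, (R1 k η1 η2 i).indicator (fun x => w (x i)) x, ?_, ?_, ?_⟩
  · exact Finset.measurable_sum _ (fun i _ => hFm i)
  · calc ∫⁻ x, ∑ i, (R1 k η1 η2 i).indicator (fun x => w (x i)) x ∂Measure.pi μ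
        = ∑ i, ∫⁻ x, (R1 k η1 η2 i).indicator (fun x => w (x i)) x ∂Measure.pi μ :=
          lintegral_finsetSum _ (fun i _ => hFm i)
      _ ≤ ∑ i, θ i * x0 := by
          apply sum_le_sum
          intro i _
          apply RL1 μ k hk η1 η2 h hη2 hρ i w hwm
          intro A hA hd
          rw [hw, lintegral_indicator_one hWm, Measure.restrict_apply hWm]
          refine (hθ i _ (hWm.inter hA)).trans ?_
          gcongr
          by_cases hne : (Wl ∩ A).Nonempty
          · obtain ⟨t1, ht1, ht1A⟩ := hne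
            exact light_mass _ h x0 _ 0 t1 ht1 (fun t ht => hd t ht.2 t1 ht1A)
          · rw [Set.not_nonempty_iff_eq_empty.mp hne]; simp
      _ = (∑ i, θ i) * x0 := by rw [sum_mul]
      _ ≤ Θ * x0 := by gcongr
  · intro x hx
    rw [card_eq_sum_ones, Nat.cast_sum, sum_filter]
    apply sum_le_sum
    intro i _
    split_ifs with hi
    · rw [Set.indicator_of_mem (show x ∈ R1 k η1 η2 i from ⟨hx, hi.2⟩)]
      rw [hw, Set.indicator_of_mem (show x i ∈ Wl from hi.1)]
      simp
    · exact zero_le

theorem light_II (μ : ι → Measure ℂ) [∀ i, IsProbabilityMeasure (μ i)] (θ : ι → ℝ≥0∞)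
    (hθ : ∀ i A, MeasurableSet A → μ i A ≤ θ i * lam μ A) (Θ : ℝ≥0∞) (hΘ : ∑ i, θ i ≤ Θ)
    (k : ℕ) (hk : 1 ≤ k) (η2 η3 d0 r : ℝ) (hη3 : 0 < η3) (hρ : 2 * η2 / η3 + d0 ≤ r)
    (hd : 2 * d0 ≤ r) (x0 : ℝ≥0∞) :
    ∃ F : (ι → ℂ) → ℝ≥0∞, Measurable F ∧ ∫⁻ x, F x ∂Measure.pi μ ≤ Θ ^ 2 * x0 ^ 2 ∧
      ∀ x, ((univ.filter (fun a => lam μ (cb (x a) r) < x0 ∧ VV x (univ.erase a) k ≤ η2 ∧
          ∃ i ∈ univ.erase a, ch (x i) (x a) < d0 ∧ η3 < VV x ((univ.erase a).erase i) k)).card : ℝ≥0∞) ≤ F x := by
  classical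
  set Wl : Set (ℂ × ℂ) := {p | lam μ (cb p.1 r) < x0 ∧ ch p.2 p.1 < d0} with hWl
  have hchm : Continuous (fun p : ℂ × ℂ => ch p.2 p.1) :=
    ch_continuous.comp (by fun_prop : Continuous fun p : ℂ × ℂ => (p.2, p.1))
  have hWm : MeasurableSet Wl :=
    ((light_measurable (lam μ) r x0).preimage measurable_fst).inter
      (measurableSet_lt hchm.measurable measurable_const)
  set W : ℂ → ℂ → ℝ≥0∞ := fun s t => Wl.indicator 1 (s, t) with hW
  have hwm : Measurable (Function.uncurry W) := measurable_one.indicator hWm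
  have hFm : ∀ a i : ι, Measurable (fun x : ι → ℂ => (R2 k η2 η3 a i).indicator (fun x => W (x a) (x i)) x) := by
    intro a i
    have h0 : Measurable (fun x : ι → ℂ => (x a, x i)) :=
      (measurable_pi_apply a).prodMk (measurable_pi_apply i)
    exact (hwm.comp h0).indicator (R2_measurable _ _ _ _ _)
  refine ⟨fun x => ∑ a, ∑ i ∈ univ.erase a, (R2 k η2 η3 a i).indicator (fun x => W (x a) (x i)) x, ?_, ?_, ?_⟩
  · exact Finset.measurable_sum _ (fun a _ => Finset.measurable_sum _ (fun i _ => hFm a i))
  · calc ∫⁻ x, ∑ a, ∑ i ∈ univ.erase a, (R2 k η2 η3 a i).indicator (fun x => W (x a) (x i)) x ∂Measure.pi μ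
        = ∑ a, ∑ i ∈ univ.erase a, ∫⁻ x, (R2 k η2 η3 a i).indicator (fun x => W (x a) (x i)) x ∂Measure.pi μ := by
          rw [lintegral_finsetSum _ (fun a _ => Finset.measurable_sum _ (fun i _ => hFm a i))]
          apply sum_congr rfl
          intro a _
          exact lintegral_finsetSum _ (fun i _ => hFm a i)
      _ ≤ ∑ a, ∑ i ∈ univ.erase a, (θ a * θ i) * x0 ^ 2 := by
          apply sum_le_sum
          intro a _
          apply sum_le_sum
          intro i hi
          have hai : a ≠ i := (ne_of_mem_erase hi).symm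
          apply RL2 μ k hk η2 η3 _ hη3 le_rfl a i hai W hwm
          intro A hA hdA
          -- inner integral
          have hsec : ∀ t, MeasurableSet {s : ℂ | (s, t) ∈ Wl} := fun t =>
            hWm.preimage (measurable_id.prodMk measurable_const)
          have hin : ∀ t, ∫⁻ s, W s t ∂μ a = μ a {s : ℂ | (s, t) ∈ Wl} := by
            intro t
            have : (fun s => W s t) = ({s : ℂ | (s, t) ∈ Wl}).indicator 1 := by
              funext s
              by_cases h : (s, t) ∈ Wl
              · rw [Set.indicator_of_mem (show s ∈ {s : ℂ | (s, t) ∈ Wl} from h)]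
                show Wl.indicator 1 (s, t) = _
                rw [Set.indicator_of_mem h]; rfl
              · rw [Set.indicator_of_notMem (show s ∉ {s : ℂ | (s, t) ∈ Wl} from h)]
                show Wl.indicator 1 (s, t) = _
                rw [Set.indicator_of_notMem h]
            rw [this, lintegral_indicator_one (hsec t)]
          have hinle : ∀ t, μ a {s : ℂ | (s, t) ∈ Wl} ≤ θ a * x0 := by
            intro t
            refine (hθ a _ (hsec t)).trans ?_
            gcongr
            by_cases hne : ({s : ℂ | (s, t) ∈ Wl}).Nonempty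
            · obtain ⟨s1, hs1⟩ := hne
              refine light_mass _ r x0 _ 0 s1 hs1.1 (fun s hs => ?_)
              have h1 : ch t s < d0 := hs.2
              have h2 : ch t s1 < d0 := hs1.2
              have h3 := ch_triangle s t s1
              rw [ch_symm s t] at h3
              linarith
            · rw [Set.not_nonempty_iff_eq_empty.mp hne]; simp
          have hmeas : Measurable (fun t => μ a {s : ℂ | (s, t) ∈ Wl}) :=
            measurable_measure_prodMk_right hWm
          set T : Set ℂ := {t | 0 < μ a {s : ℂ | (s, t) ∈ Wl}} with hT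
          have hTm : MeasurableSet T := measurableSet_lt measurable_const hmeas
          calc ∫⁻ t in A, ∫⁻ s, W s t ∂μ a ∂μ i = ∫⁻ t in A, μ a {s : ℂ | (s, t) ∈ Wl} ∂μ i :=
                lintegral_congr (fun t => hin t)
            _ ≤ ∫⁻ t in A, T.indicator (fun _ => θ a * x0) t ∂μ i := by
                apply lintegral_mono
                intro t
                by_cases ht : t ∈ T
                · rw [Set.indicator_of_mem ht]; exact hinle t
                · rw [Set.indicator_of_notMem ht]
                  have : ¬ 0 < μ a {s : ℂ | (s, t) ∈ Wl} := ht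
                  exact (not_lt.mp this)
            _ = θ a * x0 * μ i (T ∩ A) := by
                rw [lintegral_indicator_const hTm, Measure.restrict_apply hTm]
            _ ≤ θ a * x0 * (θ i * x0) := by
                gcongr
                refine (hθ i _ (hTm.inter hA)).trans ?_
                gcongr
                by_cases hne : (T ∩ A).Nonempty
                · obtain ⟨t1, ht1, ht1A⟩ := hne
                  obtain ⟨s1, hs1⟩ : ({s : ℂ | (s, t1) ∈ Wl}).Nonempty := by
                    rw [Set.nonempty_iff_ne_empty]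
                    intro h0
                    have : 0 < μ a {s : ℂ | (s, t1) ∈ Wl} := ht1
                    rw [h0] at this
                    simp at this
                  refine light_mass _ r x0 _ 0 s1 hs1.1 (fun t ht => ?_)
                  have h1 : ch t1 s1 < d0 := hs1.2
                  have h2 := hdA t ht.2 t1 ht1A
                  have h3 := ch_triangle t t1 s1
                  linarith
                · rw [Set.not_nonempty_iff_eq_empty.mp hne]; simp
            _ = θ a * θ i * x0 ^ 2 := by ring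
      _ ≤ ∑ a, ∑ i, (θ a * θ i) * x0 ^ 2 := by
          apply sum_le_sum
          intro a _
          exact sum_le_sum_of_subset (erase_subset _ _)
      _ = (∑ a, θ a) ^ 2 * x0 ^ 2 := by
          rw [sq (∑ a, θ a), sum_mul_sum, sum_mul]
          apply sum_congr rfl
          intro a _
          rw [sum_mul]
      _ ≤ Θ ^ 2 * x0 ^ 2 := by gcongr
  · intro x
    rw [card_eq_sum_ones, Nat.cast_sum, sum_filter]
    apply sum_le_sum
    intro a _
    split_ifs with ha
    · obtain ⟨hl, hv, i, hi, hci, hvi⟩ := ha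
      refine le_trans ?_ (single_le_sum (f := fun i => (R2 k η2 η3 a i).indicator (fun x => W (x a) (x i)) x)
        (fun _ _ => zero_le) hi)
      rw [Set.indicator_of_mem (show x ∈ R2 k η2 η3 a i from ⟨hv, hvi⟩)]
      show _ ≤ Wl.indicator 1 (x a, x i)
      rw [Set.indicator_of_mem (show (x a, x i) ∈ Wl from ⟨hl, hci⟩)]
      simp
    · exact zero_le

end

end Pool.Agent.TH963
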