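import Mathlib
import Pool.Agent.TH963.EQt

set_option autoImplicit false
set_option linter.unusedVariables false
set_option linter.unusedSectionVars false

namespace Pool.Agent.TH963
open Finset Pool.Agent.H704R3 MeasureTheory
open scoped ENNReal

section
variable {ι : Type*} [Fintype ι] [DecidableEq ι]

/-- the ball around `b` contains a good pair -/
def Succ (k : ℕ) (η2 η3 r : ℝ) (b : ℂ) (x : ι → ℂ) : Prop :=
  ∃ a j : ι, a ≠ j ∧ x a ∈ cb b r ∧ x j ∈ cb b r ∧ VV x (univ.erase a) k ≤ η2 ∧
    VV x ((univ.erase a).erase j) k ≤ η3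

/-- real mass of the ball -/
noncomputable def lb (μ : ι → Measure ℂ) (r : ℝ) (b : ℂ) : ℝ := ∑ i, (μ i (cb b r)).toReal

lemma lb_eq (μ : ι → Measure ℂ) [∀ i, IsProbabilityMeasure (μ i)] (r : ℝ) (b : ℂ) :
    ENNReal.ofReal (lb μ r b) = lam μ (cb b r) := by
  unfold lb
  rw [lam_apply, ENNReal.ofReal_sum_of_nonneg (fun i _ => ENNReal.toReal_nonneg)]
  apply sum_congr rfl
  intro i _
  rw [ENNReal.ofReal_toReal (measure_ne_top _ _)]

open Classical in
/-- counting lemma in one ball, pointwise -/
lemma count_pointwise (k : ℕ) (η1 η2 η3 r : ℝ) (b : ℂ) (L : ℝ) (hL : 4 ≤ L) (x : ι → ℂ)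
    (hx : VV x univ k ≤ η1) (hfail : ¬ Succ k η2 η3 r b x)
    (hN : L / 2 ≤ ((univ.filter (fun i => x i ∈ cb b r)).card : ℝ)) :
    (1 : ℝ≥0∞) ≤ (∑ a, (R1 k η1 η2 a).indicator (fun x : ι → ℂ => (cb b r).indicator (fun _ => ENNReal.ofReal (4 / L)) (x a)) x)
      + ∑ a, ∑ j ∈ univ.erase a, (R2 k η2 η3 a j).indicator
        (fun x : ι → ℂ => (cb b r).indicator (fun _ => (cb b r).indicator (fun _ => ENNReal.ofReal (16 / L ^ 2)) (x j)) (x a)) x := by
  set S := univ.filter (fun i => x i ∈ cb b r) with hS
  set S' := S.filter (fun a => η2 < VV x (univ.erase a) k) with hS'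
  have hLpos : 0 < L := by linarith
  by_cases hhalf : (S.card : ℝ) / 2 ≤ (S'.card : ℝ)
  · refine le_trans ?_ le_self_add
    have h1 : ENNReal.ofReal ((S'.card : ℝ) * (4 / L)) ≤
        ∑ a, (R1 k η1 η2 a).indicator (fun x : ι → ℂ => (cb b r).indicator (fun _ => ENNReal.ofReal (4 / L)) (x a)) x := by
      calc ENNReal.ofReal ((S'.card : ℝ) * (4 / L)) = ∑ a ∈ S', ENNReal.ofReal (4 / L) := by
            rw [sum_const, nsmul_eq_mul, ENNReal.ofReal_mul (by positivity), ENNReal.ofReal_natCast]
        _ ≤ ∑ a ∈ S', (R1 k η1 η2 a).indicator (fun x : ι → ℂ => (cb b r).indicator (fun _ => ENNReal.ofReal (4 / L)) (x a)) x := by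
            apply sum_le_sum
            intro a ha
            have ha1 := mem_filter.mp ha
            have ha2 := (mem_filter.mp ha1.1).2
            rw [Set.indicator_of_mem (show x ∈ R1 k η1 η2 a from ⟨hx, ha1.2⟩), Set.indicator_of_mem ha2]
        _ ≤ _ := sum_le_sum_of_subset (subset_univ _)
    refine le_trans ?_ h1
    rw [← ENNReal.ofReal_one]
    apply ENNReal.ofReal_le_ofReal
    have h2 : L / 4 ≤ (S'.card : ℝ) := by linarith
    calc (1:ℝ) = L / 4 * (4 / L) := by field_simp
      _ ≤ _ := by gcongr
  · refine le_trans ?_ le_add_self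
    push Not at hhalf
    have hc1 : ((S \ S').card : ℝ) = S.card - S'.card := by
      rw [card_sdiff_of_subset (filter_subset _ _), Nat.cast_sub (card_le_card (filter_subset _ _))]
    have hc2 : (S.card : ℝ) / 2 ≤ ((S \ S').card : ℝ) := by rw [hc1]; linarith
    have h1 : ∀ a ∈ S \ S', ENNReal.ofReal (((S.card : ℝ) - 1) * (16 / L ^ 2)) ≤
        ∑ j ∈ univ.erase a, (R2 k η2 η3 a j).indicator
        (fun x : ι → ℂ => (cb b r).indicator (fun _ => (cb b r).indicator (fun _ => ENNReal.ofReal (16 / L ^ 2)) (x j)) (x a)) x := by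
      intro a ha
      have haS := (mem_sdiff.mp ha).1
      have haS' := (mem_sdiff.mp ha).2
      have hxa : x a ∈ cb b r := (mem_filter.mp haS).2
      have hva : VV x (univ.erase a) k ≤ η2 := by
        by_contra h
        exact haS' (mem_filter.mpr ⟨haS, not_le.mp h⟩)
      have hcard : ((S.erase a).card : ℝ) = S.card - 1 := by
        rw [card_erase_of_mem haS, Nat.cast_sub (card_pos.mpr ⟨a, haS⟩)]; simp
      calc ENNReal.ofReal (((S.card : ℝ) - 1) * (16 / L ^ 2)) = ∑ j ∈ S.erase a, ENNReal.ofReal (16 / L ^ 2) := by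
            rw [sum_const, nsmul_eq_mul, ← hcard, ENNReal.ofReal_mul (by positivity), ENNReal.ofReal_natCast]
        _ ≤ ∑ j ∈ S.erase a, (R2 k η2 η3 a j).indicator
              (fun x : ι → ℂ => (cb b r).indicator (fun _ => (cb b r).indicator (fun _ => ENNReal.ofReal (16 / L ^ 2)) (x j)) (x a)) x := by
            apply sum_le_sum
            intro j hj
            have hjS := mem_of_mem_erase hj
            have hja : a ≠ j := (ne_of_mem_erase hj).symm
            have hxj : x j ∈ cb b r := (mem_filter.mp hjS).2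
            have hv2 : η3 < VV x ((univ.erase a).erase j) k := by
              by_contra h
              exact hfail ⟨a, j, hja, hxa, hxj, hva, not_lt.mp h⟩
            rw [Set.indicator_of_mem (show x ∈ R2 k η2 η3 a j from ⟨hva, hv2⟩), Set.indicator_of_mem hxa,
              Set.indicator_of_mem hxj]
        _ ≤ _ := sum_le_sum_of_subset (erase_subset_erase _ (subset_univ _))
    calc (1 : ℝ≥0∞) ≤ ENNReal.ofReal (((S \ S').card : ℝ) * (((S.card : ℝ) - 1) * (16 / L ^ 2))) := by
          rw [← ENNReal.ofReal_one]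
          apply ENNReal.ofReal_le_ofReal
          have hs2 : 2 ≤ (S.card : ℝ) := by linarith
          have h3 : (S.card : ℝ) / 2 ≤ (S.card : ℝ) - 1 := by linarith
          have h4 : L / 4 ≤ (S.card : ℝ) / 2 := by linarith
          calc (1:ℝ) = (L / 4) * ((L / 4) * (16 / L ^ 2)) := by field_simp; norm_num
            _ ≤ _ := by
              gcongr
              · exact h4.trans hc2
              · exact h4.trans h3
      _ = ∑ a ∈ S \ S', ENNReal.ofReal (((S.card : ℝ) - 1) * (16 / L ^ 2)) := by
          rw [sum_const, nsmul_eq_mul, ENNReal.ofReal_mul (by positivity), ENNReal.ofReal_natCast]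
      _ ≤ ∑ a ∈ S \ S', _ := sum_le_sum h1
      _ ≤ _ := sum_le_sum_of_subset (subset_univ _)

open Classical in
theorem heavy_count (μ : ι → Measure ℂ) [∀ i, IsProbabilityMeasure (μ i)] (θ : ι → ℝ≥0∞)
    (hθ : ∀ i A, MeasurableSet A → μ i A ≤ θ i * lam μ A) (Θ : ℝ≥0∞) (hΘ : ∑ i, θ i ≤ Θ)
    (k : ℕ) (hk : 1 ≤ k) (η1 η2 η3 r ρ : ℝ) (hη2 : 0 < η2) (hη3 : 0 < η3)
    (hρ1 : 2 * η1 / η2 ≤ ρ) (hρ2 : 2 * η2 / η3 ≤ ρ) (C : Finset ℂ)
    (hsep : ∀ b ∈ C, ∀ b' ∈ C, b ≠ b' → 2 * r + ρ < ch b b')
    (x0 : ℕ) (hx0 : 4 ≤ x0) (hC : ∀ b ∈ C, (x0 : ℝ≥0∞) ≤ lam μ (cb b r)) :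
    ∃ F : (ι → ℂ) → ℝ≥0∞, Measurable F ∧
      ∫⁻ x, F x ∂Measure.pi μ ≤ ENNReal.ofReal (C.card * (4 / x0)) + (4 * Θ + 16 * Θ ^ 2) ∧
      ∀ x, VV x univ k ≤ η1 →
        ((C.filter (fun b => ¬ Succ k η2 η3 r b x)).card : ℝ≥0∞) ≤ F x := by
  classical
  have hx0r : (4:ℝ) ≤ x0 := by exact_mod_cast hx0
  have hL : ∀ b ∈ C, (x0:ℝ) ≤ lb μ r b := by
    intro b hb
    have h1 := hC b hb
    rw [← lb_eq, ← ENNReal.ofReal_natCast] at h1
    have h2 : 0 ≤ lb μ r b := sum_nonneg (fun i _ => ENNReal.toReal_nonneg)
    exact (ENNReal.ofReal_le_ofReal_iff h2).mp h1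
  -- unique ball
  have huniq : ∀ A : Set ℂ, (∀ t ∈ A, ∀ t' ∈ A, ch t t' ≤ ρ) → ∀ b ∈ C, ∀ b' ∈ C, b ≠ b' →
      (A ∩ cb b r).Nonempty → ¬ (A ∩ cb b' r).Nonempty := by
    intro A hA b hb b' hb' hbb h1 h2
    obtain ⟨t, htA, ht⟩ := h1
    obtain ⟨t', htA', ht'⟩ := h2
    have h3 := hsep b hb b' hb' hbb
    have h4 := hA t htA t' htA'
    rw [mem_cb] at ht ht'
    have h5 := ch_triangle b t b'
    have h6 := ch_triangle t t' b'
    rw [ch_symm b t] at h5
    linarith
  set w : ℂ → ℝ≥0∞ := fun t => ∑ b ∈ C, (cb b r).indicator (fun _ => ENNReal.ofReal (4 / lb μ r b)) t with hw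
  have hwm : Measurable w := Finset.measurable_sum _ (fun b _ => measurable_const.indicator (cb_measurable b r))
  set W : ℂ → ℂ → ℝ≥0∞ := fun s t => ∑ b ∈ C, (cb b r).indicator (fun _ => (cb b r).indicator
    (fun _ => ENNReal.ofReal (16 / lb μ r b ^ 2)) t) s with hW
  have hWb : ∀ b, Measurable (fun p : ℂ × ℂ => (cb b r).indicator (fun _ => (cb b r).indicator
    (fun _ => ENNReal.ofReal (16 / lb μ r b ^ 2)) p.2) p.1) := by
    intro b
    have h1 : Measurable (fun p : ℂ × ℂ => (cb b r).indicator (fun _ => ENNReal.ofReal (16 / lb μ r b ^ 2)) p.2) :=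
      (measurable_const.indicator (cb_measurable b r)).comp measurable_snd
    have h2 : MeasurableSet ((Prod.fst : ℂ × ℂ → ℂ) ⁻¹' (cb b r)) := (cb_measurable b r).preimage measurable_fst
    have h3 := h1.indicator h2
    convert h3 using 1
    funext p
    by_cases hp : p.1 ∈ cb b r
    · rw [Set.indicator_of_mem hp, Set.indicator_of_mem (show p ∈ Prod.fst ⁻¹' cb b r from hp)]
    · rw [Set.indicator_of_notMem hp, Set.indicator_of_notMem (show p ∉ Prod.fst ⁻¹' cb b r from hp)]
  have hWm : Measurable (Function.uncurry W) := by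
    have : Function.uncurry W = fun p : ℂ × ℂ => ∑ b ∈ C, (cb b r).indicator (fun _ => (cb b r).indicator
      (fun _ => ENNReal.ofReal (16 / lb μ r b ^ 2)) p.2) p.1 := by
      funext p; rfl
    rw [this]
    exact Finset.measurable_sum _ (fun b _ => hWb b)
  set Nl : ℂ → Set (ι → ℂ) := fun b => {x | ((univ.filter (fun i => x i ∈ cb b r)).card : ℝ) < lb μ r b / 2} with hNl
  have hNlm : ∀ b, MeasurableSet (Nl b) := by
    intro b
    have h1 : Measurable (fun x : ι → ℂ => ((univ.filter (fun i => x i ∈ cb b r)).card : ℝ)) := by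
      have : (fun x : ι → ℂ => ((univ.filter (fun i => x i ∈ cb b r)).card : ℝ))
          = fun x : ι → ℂ => ∑ i, (cb b r).indicator (fun _ => (1:ℝ)) (x i) := by
        funext x
        rw [card_eq_sum_ones, Nat.cast_sum, sum_filter]
        apply sum_congr rfl
        intro i _
        by_cases h : x i ∈ cb b r
        · simp [h]
        · simp [h]
      rw [this]
      exact Finset.measurable_sum _ (fun i _ => (measurable_const.indicator (cb_measurable b r)).comp (measurable_pi_apply i))
    exact measurableSet_lt h1 measurable_const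
  have hF1m : Measurable (fun x : ι → ℂ => ∑ b ∈ C, (Nl b).indicator (fun _ => (1:ℝ≥0∞)) x) :=
    Finset.measurable_sum _ (fun b _ => measurable_const.indicator (hNlm b))
  have hF2i : ∀ i, Measurable (fun x : ι → ℂ => (R1 k η1 η2 i).indicator (fun x => w (x i)) x) :=
    fun i => (hwm.comp (measurable_pi_apply i)).indicator (R1_measurable _ _ _ _)
  have hF2m : Measurable (fun x : ι → ℂ => ∑ i, (R1 k η1 η2 i).indicator (fun x => w (x i)) x) :=
    Finset.measurable_sum _ (fun i _ => hF2i i)
  have hF3i : ∀ a i : ι, Measurable (fun x : ι → ℂ => (R2 k η2 η3 a i).indicator (fun x => W (x a) (x i)) x) := by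
    intro a i
    have h0 : Measurable (fun x : ι → ℂ => (x a, x i)) :=
      (measurable_pi_apply a).prodMk (measurable_pi_apply i)
    exact (hWm.comp h0).indicator (R2_measurable _ _ _ _ _)
  have hF3m : Measurable (fun x : ι → ℂ => ∑ a, ∑ i ∈ univ.erase a, (R2 k η2 η3 a i).indicator (fun x => W (x a) (x i)) x) :=
    Finset.measurable_sum _ (fun a _ => Finset.measurable_sum _ (fun i _ => hF3i a i))
  refine ⟨fun x => (∑ b ∈ C, (Nl b).indicator (fun _ => (1:ℝ≥0∞)) x)
    + ((∑ i, (R1 k η1 η2 i).indicator (fun x => w (x i)) x)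
    + ∑ a, ∑ i ∈ univ.erase a, (R2 k η2 η3 a i).indicator (fun x => W (x a) (x i)) x),
    hF1m.add (hF2m.add hF3m), ?_, ?_⟩
  · rw [lintegral_add_left hF1m, lintegral_add_left hF2m]
    have hone : ∀ i : ι, ∀ A : Set ℂ, MeasurableSet A → (∀ t ∈ A, ∀ t' ∈ A, ch t t' ≤ ρ) →
        ∀ (c : ℝ), 0 ≤ c → ∑ b ∈ C, ENNReal.ofReal (c / lb μ r b) * μ i (cb b r ∩ A) ≤ ENNReal.ofReal c * θ i := by
      intro i A hA hd c hc
      by_cases hex : ∃ b ∈ C, (A ∩ cb b r).Nonempty
      · obtain ⟨b, hb, hne⟩ := hex
        rw [sum_eq_single_of_mem b hb]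
        · have hLb : 0 < lb μ r b := by have := hL b hb; linarith
          calc ENNReal.ofReal (c / lb μ r b) * μ i (cb b r ∩ A)
              ≤ ENNReal.ofReal (c / lb μ r b) * (θ i * lam μ (cb b r)) := by
                gcongr
                exact (measure_mono Set.inter_subset_left).trans (hθ i _ (cb_measurable b r))
            _ = (ENNReal.ofReal (c / lb μ r b) * ENNReal.ofReal (lb μ r b)) * θ i := by
                rw [lb_eq]; ring
            _ = ENNReal.ofReal c * θ i := by
                rw [← ENNReal.ofReal_mul (by positivity), div_mul_cancel₀ _ hLb.ne']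
        · intro b' hb' hbb
          have := huniq A hd b hb b' hb' hbb.symm hne
          rw [Set.not_nonempty_iff_eq_empty, Set.inter_comm] at this
          rw [this]; simp
      · push Not at hex
        rw [sum_eq_zero]
        · exact zero_le
        · intro b hb
          have := hex b hb
          rw [Set.inter_comm] at this
          rw [this]; simp
    gcongr ?_ + (?_ + ?_)
    · rw [lintegral_finsetSum _ (fun b _ => measurable_const.indicator (hNlm b))]
      calc ∑ b ∈ C, ∫⁻ x, (Nl b).indicator (fun _ => (1:ℝ≥0∞)) x ∂Measure.pi μ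
          ≤ ∑ b ∈ C, ENNReal.ofReal (4 / x0) := by
            apply sum_le_sum
            intro b hb
            rw [lintegral_indicator_const (hNlm b), one_mul]
            have hLb := hL b hb
            have hpos : 0 < lb μ r b := by linarith
            refine (count_lower μ (cb b r) (cb_measurable b r) hpos).trans ?_
            apply ENNReal.ofReal_le_ofReal
            have : (0:ℝ) < x0 := by linarith
            exact div_le_div_of_nonneg_left (by norm_num) this hLb
        _ = ENNReal.ofReal (C.card * (4 / x0)) := by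
            rw [sum_const, nsmul_eq_mul, ENNReal.ofReal_mul (by positivity), ENNReal.ofReal_natCast]
    · rw [lintegral_finsetSum _ (fun i _ => hF2i i)]
      calc ∑ i, ∫⁻ x, (R1 k η1 η2 i).indicator (fun x => w (x i)) x ∂Measure.pi μ
          ≤ ∑ i, 4 * θ i := by
            apply sum_le_sum
            intro i _
            apply RL1 μ k hk η1 η2 ρ hη2 hρ1 i w hwm
            intro A hA hd
            rw [hw, lintegral_finsetSum _ (fun b _ => measurable_const.indicator (cb_measurable b r))]
            refine le_trans (le_of_eq ?_) ((hone i A hA hd 4 (by norm_num)).trans (by norm_num))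
            apply sum_congr rfl
            intro b _
            rw [lintegral_indicator_const (cb_measurable b r), Measure.restrict_apply (cb_measurable b r)]
        _ = 4 * ∑ i, θ i := by rw [mul_sum]
        _ ≤ 4 * Θ := by gcongr
    · rw [lintegral_finsetSum _ (fun a _ => Finset.measurable_sum _ (fun i _ => hF3i a i))]
      calc ∑ a, ∫⁻ x, ∑ i ∈ univ.erase a, (R2 k η2 η3 a i).indicator (fun x => W (x a) (x i)) x ∂Measure.pi μ
          = ∑ a, ∑ i ∈ univ.erase a, ∫⁻ x, (R2 k η2 η3 a i).indicator (fun x => W (x a) (x i)) x ∂Measure.pi μ := by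
            apply sum_congr rfl
            intro a _
            exact lintegral_finsetSum _ (fun i _ => hF3i a i)
        _ ≤ ∑ a, ∑ i ∈ univ.erase a, 16 * (θ a * θ i) := by
            apply sum_le_sum
            intro a _
            apply sum_le_sum
            intro i hi
            have hai : a ≠ i := (ne_of_mem_erase hi).symm
            apply RL2 μ k hk η2 η3 ρ hη3 hρ2 a i hai W hWm
            intro A hA hdA
            have hin : ∀ t, ∫⁻ s, W s t ∂μ a = ∑ b ∈ C, (cb b r).indicator
                (fun _ => ENNReal.ofReal (16 / lb μ r b ^ 2) * μ a (cb b r)) t := by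
              intro t
              rw [hW]
              rw [lintegral_finsetSum _ (fun b _ => measurable_const.indicator (cb_measurable b r))]
              apply sum_congr rfl
              intro b _
              rw [lintegral_indicator_const (cb_measurable b r)]
              by_cases ht : t ∈ cb b r
              · rw [Set.indicator_of_mem ht, Set.indicator_of_mem ht]
              · rw [Set.indicator_of_notMem ht, Set.indicator_of_notMem ht, zero_mul]
            calc ∫⁻ t in A, ∫⁻ s, W s t ∂μ a ∂μ i
                = ∑ b ∈ C, ENNReal.ofReal (16 / lb μ r b ^ 2) * μ a (cb b r) * μ i (cb b r ∩ A) := by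
                  rw [lintegral_congr hin, lintegral_finsetSum _ (fun b _ => measurable_const.indicator (cb_measurable b r))]
                  apply sum_congr rfl
                  intro b _
                  rw [lintegral_indicator_const (cb_measurable b r), Measure.restrict_apply (cb_measurable b r)]
              _ ≤ ∑ b ∈ C, (ENNReal.ofReal (16 / lb μ r b) * μ i (cb b r ∩ A)) * θ a := by
                  apply sum_le_sum
                  intro b hb
                  have hLb : 0 < lb μ r b := by have := hL b hb; linarith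
                  calc ENNReal.ofReal (16 / lb μ r b ^ 2) * μ a (cb b r) * μ i (cb b r ∩ A)
                      ≤ ENNReal.ofReal (16 / lb μ r b ^ 2) * (θ a * ENNReal.ofReal (lb μ r b)) * μ i (cb b r ∩ A) := by
                        gcongr
                        rw [lb_eq]
                        exact hθ a _ (cb_measurable b r)
                    _ = (ENNReal.ofReal (16 / lb μ r b ^ 2) * ENNReal.ofReal (lb μ r b)) * μ i (cb b r ∩ A) * θ a := by ring
                    _ = _ := by
                        rw [← ENNReal.ofReal_mul (by positivity)]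
                        congr 3
                        field_simp
              _ = (∑ b ∈ C, ENNReal.ofReal (16 / lb μ r b) * μ i (cb b r ∩ A)) * θ a := by rw [sum_mul]
              _ ≤ (ENNReal.ofReal 16 * θ i) * θ a := by
                  gcongr
                  exact hone i A hA hdA 16 (by norm_num)
              _ = 16 * (θ a * θ i) := by norm_num; ring
        _ ≤ ∑ a, ∑ i, 16 * (θ a * θ i) := by
            apply sum_le_sum
            intro a _
            exact sum_le_sum_of_subset (erase_subset _ _)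
        _ = 16 * (∑ a, θ a) ^ 2 := by
            rw [sq (∑ a, θ a), sum_mul_sum, mul_sum]
            apply sum_congr rfl
            intro a _
            rw [mul_sum]
        _ ≤ 16 * Θ ^ 2 := by gcongr
  · intro x hx
    have hpt : ∀ b ∈ C.filter (fun b => ¬ Succ k η2 η3 r b x), (1:ℝ≥0∞) ≤ (Nl b).indicator (fun _ => (1:ℝ≥0∞)) x
        + ((∑ a, (R1 k η1 η2 a).indicator (fun x : ι → ℂ => (cb b r).indicator (fun _ => ENNReal.ofReal (4 / lb μ r b)) (x a)) x)
      + ∑ a, ∑ j ∈ univ.erase a, (R2 k η2 η3 a j).indicator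
        (fun x : ι → ℂ => (cb b r).indicator (fun _ => (cb b r).indicator (fun _ => ENNReal.ofReal (16 / lb μ r b ^ 2)) (x j)) (x a)) x) := by
      intro b hb
      have hbC := (mem_filter.mp hb).1
      have hfail := (mem_filter.mp hb).2
      by_cases hN : x ∈ Nl b
      · rw [Set.indicator_of_mem hN]
        exact le_self_add
      · refine le_trans ?_ le_add_self
        exact count_pointwise k η1 η2 η3 r b (lb μ r b) (hx0r.trans (hL b hbC)) x hx hfail (not_lt.mp hN)
    change ((C.filter (fun b => ¬ Succ k η2 η3 r b x)).card : ℝ≥0∞) ≤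
      (∑ b ∈ C, (Nl b).indicator (fun _ => (1:ℝ≥0∞)) x)
      + ((∑ i, (R1 k η1 η2 i).indicator (fun x => w (x i)) x)
      + ∑ a, ∑ i ∈ univ.erase a, (R2 k η2 η3 a i).indicator (fun x => W (x a) (x i)) x)
    calc ((C.filter (fun b => ¬ Succ k η2 η3 r b x)).card : ℝ≥0∞)
        = ∑ b ∈ C.filter (fun b => ¬ Succ k η2 η3 r b x), 1 := by rw [card_eq_sum_ones, Nat.cast_sum]; simp
      _ ≤ _ := sum_le_sum hpt
      _ ≤ _ := sum_le_sum_of_subset (filter_subset _ _)
      _ = _ := by
        rw [sum_add_distrib, sum_add_distrib]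
        congr 1
        congr 1
        · rw [sum_comm]
          apply sum_congr rfl
          intro a _
          by_cases ha : x ∈ R1 k η1 η2 a
          · rw [Set.indicator_of_mem ha]
            apply sum_congr rfl
            intro b _
            rw [Set.indicator_of_mem ha]
          · rw [Set.indicator_of_notMem ha]
            apply sum_eq_zero
            intro b _
            rw [Set.indicator_of_notMem ha]
        · rw [sum_comm]
          apply sum_congr rfl
          intro a _
          rw [sum_comm]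
          apply sum_congr rfl
          intro j _
          by_cases ha : x ∈ R2 k η2 η3 a j
          · rw [Set.indicator_of_mem ha]
            apply sum_congr rfl
            intro b _
            rw [Set.indicator_of_mem ha]
          · rw [Set.indicator_of_notMem ha]
            apply sum_eq_zero
            intro b _
            rw [Set.indicator_of_notMem ha]

end

end Pool.Agent.TH963
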