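import Mathlib
import Pool.Agent.TH963.ERt
import Pool.Agent.TH963.EDT

set_option autoImplicit false
set_option linter.unusedVariables false
set_option linter.unusedSectionVars false

namespace Pool.Agent.TH963
open Finset Pool.Agent.H704R3 MeasureTheory
open scoped ENNReal

section
variable {ι : Type*} [Fintype ι] [DecidableEq ι]

/-- a good pair gives a good node -/
theorem node_of_succ (x : ι → ℂ) (k : ℕ) (hk : 1 ≤ k) (K r d0 η2 η3' η3 : ℝ) (hK : KK x univ ≤ K)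
    (h33 : η3' ≤ η3) (hr : 0 ≤ r) (hd0 : 0 ≤ d0)
    (hη : η3' + K * (d0 + 2 * r) ≤ η3) (b : ℂ) (hS : Succ k η2 η3' r b x) :
    ∃ a : ι, ch (x a) b ≤ r ∧ VV x (univ.erase a) k ≤ η2 ∧
      ∀ i ∈ univ.erase a, ch (x i) (x a) < d0 → VV x ((univ.erase a).erase i) k ≤ η3 := by
  obtain ⟨a, j, haj, hxa, hxj, hva, hvaj⟩ := hS
  refine ⟨a, hxa, hva, ?_⟩
  intro i hi hci
  by_cases hij : i = j
  · subst hij; exact hvaj.trans h33
  obtain ⟨k, rfl⟩ : ∃ k', k = k' + 1 := ⟨k - 1, by omega⟩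
  set T := ((univ.erase a).erase i).erase j with hT
  have hiT : i ∉ T := fun h => notMem_erase i _ (mem_of_mem_erase h)
  have hjT : j ∉ T := notMem_erase j _
  have h1 : insert j T = (univ.erase a).erase i := by
    rw [hT, insert_erase]
    exact mem_erase.mpr ⟨fun h => hij h.symm, mem_erase.mpr ⟨haj.symm, mem_univ j⟩⟩
  have h2 : insert i T = (univ.erase a).erase j := by
    rw [hT, erase_right_comm, insert_erase]
    exact mem_erase.mpr ⟨hij, hi⟩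
  have h3 := VV_transfer x T i j hiT hjT k
  rw [h1, h2] at h3
  have h4 : KK x T ≤ K := (KK_mono x (subset_univ T)).trans hK
  have h5 : ch (x i) (x j) ≤ d0 + 2 * r := by
    have e1 := ch_triangle (x i) (x a) (x j)
    have e2 := ch_triangle (x a) b (x j)
    rw [mem_cb] at hxa hxj
    rw [ch_symm b (x j)] at e2
    linarith
  have h6 : KK x T * ch (x i) (x j) ≤ K * (d0 + 2 * r) := by
    have := one_le_KK x T
    apply mul_le_mul h4 h5 (ch_nonneg _ _) (by linarith)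
  linarith

/-- extraction of a point where all counts are controlled -/
theorem extract (P : Measure (ι → ℂ)) (G : Set (ι → ℂ))
    (ε0 : ℝ≥0∞) (B : ℕ) (hB : 1 ≤ B) (hBε : 4 ≤ ε0 * B) (F : Fin 4 → (ι → ℂ) → ℝ≥0∞)
    (hF : ∀ j, Measurable (F j)) (E : Fin 4 → ℝ≥0∞) (hE0 : ∀ j, 0 < E j) (hEt : ∀ j, E j ≠ ⊤)
    (hFE : ∀ j, ∫⁻ x, F j x ∂P ≤ E j)
    (hG : ∀ x ∈ G, (∀ j, F j x ≤ B * E j) → False) : P G ≤ ε0 := by
  have hsub : G ⊆ ⋃ j, {x | (B:ℝ≥0∞) * E j ≤ F j x} := by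
    intro x hx
    by_contra h
    simp only [Set.mem_iUnion, Set.mem_ofPred_eq, not_exists, not_le] at h
    exact hG x hx (fun j => (h j).le)
  have hBpos : (0:ℝ≥0∞) < B := by exact_mod_cast hB
  calc P G ≤ P (⋃ j, {x | (B:ℝ≥0∞) * E j ≤ F j x}) := measure_mono hsub
    _ ≤ ∑ j, P {x | (B:ℝ≥0∞) * E j ≤ F j x} := measure_iUnion_fintype_le _ _
    _ ≤ ∑ j : Fin 4, (B:ℝ≥0∞)⁻¹ := by
        apply sum_le_sum
        intro j _
        have h1 := meas_ge_le_lintegral_div (μ := P) (hF j).aemeasurable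
          (ε := (B:ℝ≥0∞) * E j) (by
            have := hE0 j
            exact (ENNReal.mul_pos hBpos.ne' this.ne').ne')
          (ENNReal.mul_ne_top (ENNReal.natCast_ne_top B) (hEt j))
        refine h1.trans ?_
        refine (ENNReal.div_le_div_right (hFE j) _).trans ?_
        rw [ENNReal.div_eq_inv_mul, ENNReal.mul_inv (Or.inl hBpos.ne') (Or.inl (ENNReal.natCast_ne_top B)),
          mul_assoc, ENNReal.inv_mul_cancel (hE0 j).ne' (hEt j), mul_one]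
    _ = 4 * (B:ℝ≥0∞)⁻¹ := by rw [sum_const]; simp
    _ ≤ (ε0 * B) * (B:ℝ≥0∞)⁻¹ := by gcongr
    _ = ε0 := by rw [mul_assoc, ENNReal.mul_inv_cancel hBpos.ne' (ENNReal.natCast_ne_top B), mul_one]

/-- a family of separated nodes gives distinct indices -/
lemma node_inj (x : ι → ℂ) (r : ℝ) (S : Finset ℂ) (y : ℂ → ι)
    (hy : ∀ b ∈ S, ch (x (y b)) b ≤ r) (hsep : ∀ b ∈ S, ∀ b' ∈ S, b ≠ b' → 2 * r < ch b b') :
    Set.InjOn y S := by
  intro b hb b' hb' hbb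
  by_contra h
  have h1 := hsep b (by exact_mod_cast hb) b' (by exact_mod_cast hb') h
  have h2 := hy b (by exact_mod_cast hb)
  have h3 := hy b' (by exact_mod_cast hb')
  rw [← hbb] at h3
  have h4 := ch_triangle b (x (y b)) b'
  rw [ch_symm b (x (y b))] at h4
  linarith

/-- transfer of a product bound to the image index set -/
lemma prod_image_nodes (x : ι → ℂ) (G' : Finset ℂ) (y : ℂ → ι) (hinj : Set.InjOn y G')
    (z : ℂ → ℂ) (hz : ∀ b ∈ G', z b = x (y b)) (η : ℝ)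
    (h : ∀ b ∈ G', η ≤ ∏ b' ∈ G'.erase b, ch (z b) (z b')) :
    ∀ i ∈ G'.image y, η ≤ ∏ j ∈ (G'.image y).erase i, ch (x i) (x j) := by
  classical
  intro i hi
  obtain ⟨b, hb, rfl⟩ := mem_image.mp hi
  have h1 : (G'.image y).erase (y b) = (G'.erase b).image y := by
    ext j
    rw [mem_erase, mem_image, mem_image]
    constructor
    · rintro ⟨h1, b', hb', rfl⟩
      exact ⟨b', mem_erase.mpr ⟨fun h => h1 (by rw [h]), hb'⟩, rfl⟩
    · rintro ⟨b', hb', rfl⟩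
      refine ⟨fun h => ?_, b', mem_of_mem_erase hb', rfl⟩
      exact ne_of_mem_erase hb' (hinj (by exact_mod_cast mem_of_mem_erase hb') (by exact_mod_cast hb) h)
  rw [h1, prod_image]
  · refine (h b hb).trans (le_of_eq ?_)
    apply prod_congr rfl
    intro b' hb'
    rw [hz b hb, hz b' (mem_of_mem_erase hb')]
  · intro c hc c' hc' hcc
    exact hinj (by exact_mod_cast mem_of_mem_erase hc) (by exact_mod_cast mem_of_mem_erase hc') hcc

/-- residues outside the light exceptional set are small after multiplication -/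
theorem hI_common (x : ι → ℂ) (k : ℕ) (K ηc η2 η3 d0 h η6 : ℝ) (hK : KK x univ ≤ K) (hηc : 0 < ηc)
    (hη2 : 0 ≤ η2) (hh0 : 0 ≤ h) (hh1 : 4 * h ≤ 1)
    (H F N : Finset ℂ) (hFH : F ⊆ H) (hNF : N ⊆ F)
    (hP1 : ∀ a ∈ F, ∀ c ∈ H, ∏ b ∈ F.erase a, ch c b ≤ ∏ b ∈ F.erase a, ch a b)
    (hP2 : ∀ c ∈ H, ∏ b ∈ F, ch c b ≤ ηc)
    (hP3 : ∀ a ∈ F, ηc ≤ ∏ b ∈ F.erase a, ch a b)
    (hsep : ∀ b ∈ F, ∀ b' ∈ F, b ≠ b' → 3 * h < ch b b')
    (y : ℂ → ι) (hy : ∀ b ∈ F \ N, ch (x (y b)) b ≤ h)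
    (hy2 : ∀ b ∈ F \ N, VV x (univ.erase (y b)) k ≤ η2)
    (hsmall : 4 * h * 4 ^ F.card ≤ ηc / 2)
    (ν : Measure ℂ) (x0 : ℝ≥0∞) (hnet : ∀ t, x0 ≤ ν (cb t h) → ∃ c ∈ H, ch t c ≤ 3 * h)
    (hn1 : η2 * 2 ^ F.card ≤ η6)
    (hn2 : 2 * K * ηc + F.card * 2 ^ (F.card + 2) * η2 ≤ η6)
    (I : Finset ι) (hI : ∀ i, ν (cb (x i) h) < x0 → η2 < VV x (univ.erase i) k → i ∈ I) :
    ∀ i, i ∉ I → 2 * d0 * η3 < ‖rho x univ k i‖ →
      ‖rho x univ k i‖ * ∏ b ∈ N, ch b (x i) ≤ η6 := by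
  intro i hiI _
  have hρ := rho_le x univ k i (mem_univ i)
  have hprod0 : 0 ≤ ∏ b ∈ N, ch b (x i) := prod_nonneg (fun b _ => ch_nonneg _ _)
  by_cases hv : η2 < VV x (univ.erase i) k
  · have hheavy : x0 ≤ ν (cb (x i) h) := by
      by_contra hc
      exact hiI (hI i (not_le.mp hc) hv)
    obtain ⟨c, hcH, hci⟩ := hnet _ hheavy
    have h1 := heavy_bound x k K ηc η2 h hK hηc hη2 hh0 hh1 H F N hFH hNF hP1 hP2 hP3 hsep y hy hy2
      hsmall i c hcH hci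
    calc ‖rho x univ k i‖ * ∏ b ∈ N, ch b (x i) ≤ VV x (univ.erase i) k * ∏ b ∈ N, ch b (x i) := by
          gcongr
      _ ≤ _ := h1.trans hn2
  · have hv' := not_lt.mp hv
    calc ‖rho x univ k i‖ * ∏ b ∈ N, ch b (x i) ≤ η2 * 2 ^ F.card := by
          apply mul_le_mul (hρ.trans hv') _ hprod0 hη2
          calc ∏ b ∈ N, ch b (x i) ≤ ∏ b ∈ N, (2:ℝ) :=
                prod_le_prod (fun b _ => ch_nonneg _ _) (fun b _ => ch_le_two _ _)
            _ = 2 ^ N.card := by rw [prod_const]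
            _ ≤ 2 ^ F.card := pow_le_pow_right₀ (by norm_num) (card_le_card hNF)
      _ ≤ η6 := hn1

/-- too many separated good nodes are impossible -/
theorem case_cap (x : ι → ℂ) (k : ℕ) (A0 η2 ηc h : ℝ) (hηc : 0 < ηc)
    (hη2 : 0 ≤ η2) (hh0 : 0 ≤ h) (hh1 : 4 * h ≤ 1) (F N : Finset ℂ) (hNF : N ⊆ F)
    (hP3 : ∀ a ∈ F, ηc ≤ ∏ b ∈ F.erase a, ch a b)
    (hsep : ∀ b ∈ F, ∀ b' ∈ F, b ≠ b' → 3 * h < ch b b')
    (y : ℂ → ι) (hy : ∀ b ∈ F \ N, ch (x (y b)) b ≤ h)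
    (hy2 : ∀ b ∈ F \ N, VV x (univ.erase (y b)) k ≤ η2)
    (hsmall : 4 * h * 4 ^ F.card ≤ ηc / 2) (hcard : k + 1 ≤ (F \ N).card)
    (hA : ∃ j ≤ k, A0 ≤ VV x univ j)
    (hnum : 2 ^ (k+1) * (((k:ℝ)+1) * (η2 / (ηc / 2 ^ (F.card+1)))) < A0) : False := by
  classical
  obtain ⟨G', hG', hG'c⟩ := exists_subset_card_eq hcard
  set z : ℂ → ℂ := fun b => if b ∈ F \ N then x (y b) else b with hz
  have hzG : ∀ b ∈ F \ N, z b = x (y b) := fun b hb => by rw [hz]; simp only [hb, if_true]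
  have hzF : ∀ b ∈ F, ch (z b) b ≤ h := by
    intro b hb
    by_cases h1 : b ∈ F \ N
    · rw [hzG b h1]; exact hy b h1
    · rw [hz]; simp only [h1, if_false]; rw [ch_self]; exact hh0
  have hinj : Set.InjOn y G' := by
    apply node_inj x h G' y (fun b hb => hy b (hG' hb))
    intro b hb b' hb' hbb
    have := hsep b (mem_sdiff.mp (hG' hb)).1 b' (mem_sdiff.mp (hG' hb')).1 hbb
    linarith
  have hprod : ∀ b ∈ G', ηc / 2 ^ (F.card+1) ≤ ∏ b' ∈ G'.erase b, ch (z b) (z b') := by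
    intro b hb
    have hbF := (mem_sdiff.mp (hG' hb)).1
    have h1 := pert_nodes F z ηc h hηc hh0 (by linarith) hzF hsmall hP3 b hbF
    have h2 := hP3 b hbF
    have hsub : G'.erase b ⊆ F.erase b := erase_subset_erase _ (fun c hc => (mem_sdiff.mp (hG' hc)).1)
    have h3 : ∏ b' ∈ F.erase b, ch (z b) (z b') ≤ (∏ b' ∈ G'.erase b, ch (z b) (z b')) * 2 ^ F.card := by
      rw [← prod_sdiff hsub, mul_comm]
      gcongr
      · exact prod_nonneg (fun _ _ => ch_nonneg _ _)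
      calc ∏ b' ∈ F.erase b \ G'.erase b, ch (z b) (z b') ≤ ∏ b' ∈ F.erase b \ G'.erase b, (2:ℝ) :=
            prod_le_prod (fun _ _ => ch_nonneg _ _) (fun _ _ => ch_le_two _ _)
        _ = 2 ^ (F.erase b \ G'.erase b).card := by rw [prod_const]
        _ ≤ 2 ^ F.card := pow_le_pow_right₀ (by norm_num)
            (card_le_card (sdiff_subset.trans (erase_subset _ _)))
    rw [div_le_iff₀ (by positivity), pow_succ, ← mul_assoc]
    linarith
  have hc := prod_image_nodes x G' y hinj z (fun b hb => hzG b (hG' hb)) _ hprod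
  set G := G'.image y with hG
  have hGc : G.card = k + 1 := by rw [hG, card_image_of_injOn hinj, hG'c]
  have hv : ∀ a ∈ G, VV x (univ.erase a) k ≤ η2 := by
    intro a ha
    obtain ⟨b, hb, rfl⟩ := mem_image.mp ha
    exact hy2 b (hG' hb)
  have h1 : ∀ t ≤ k, VV x (univ \ G) t ≤ ((k:ℝ)+1) * (η2 / (ηc / 2 ^ (F.card+1))) := fun t ht =>
    nodes_small x univ G (subset_univ _) k hGc η2 _ hη2 (by positivity) hv hc t ht
  obtain ⟨j, hj, hAj⟩ := hA
  have h2 := VV_add_le x (univ \ G) G sdiff_disjoint k _ h1 j hj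
  rw [sdiff_union_of_subset (subset_univ G), hGc] at h2
  linarith

end

end Pool.Agent.TH963
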