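import Mathlib
import Pool.Agent.TH963.ESx
import Pool.Agent.TH429.J708

set_option autoImplicit false
set_option linter.unusedVariables false
set_option linter.unusedSectionVars false

namespace Pool.Agent.TH963
open Finset Pool.Agent.H704R3 MeasureTheory
open scoped ENNReal

section
variable {ι : Type*} [Fintype ι] [DecidableEq ι]

lemma card_real_of_ennreal (m B : ℕ) (c : ℝ) (hc : 0 ≤ c) (d : ℕ)
    (h : (m : ℝ≥0∞) ≤ B * (ENNReal.ofReal c + d)) : (m:ℝ) ≤ B * (c + d) := by
  have h1 : (B:ℝ≥0∞) * (ENNReal.ofReal c + d) = ENNReal.ofReal (B * (c + d)) := by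
    rw [ENNReal.ofReal_mul (by positivity), ENNReal.ofReal_add hc (by positivity),
      ENNReal.ofReal_natCast, ENNReal.ofReal_natCast]
  rw [h1, ← ENNReal.ofReal_natCast] at h
  exact (ENNReal.ofReal_le_ofReal_iff (by positivity)).mp h

open Classical in
/-- deterministic part of the core theorem -/
theorem core_det (ν : Measure ℂ) (k : ℕ) (hk : 1 ≤ k) (a : ℝ) (ha0 : 0 < a) (ha1 : a ≤ 1)
    (B x0 M0 M X0 : ℕ) (hB : 1 ≤ B) (hx0 : 656 * B ≤ x0) (hM0 : 160 * B * x0 + 20000 * B ≤ M0)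
    (hM : 2 * (3 * B * x0 + M0 + 156 * B) ≤ M) (hX0 : B * (3 * x0 + 9 * x0 ^ 2) < X0)
    (q : ℝ) (hq : 64 * ((Fintype.card ι:ℝ)+1)^2 * ((k:ℝ)+((2*(k+1)+M0+M : ℕ):ℝ)+1) *
      (256/a)^(k+(2*(k+1)+M0+M)+2) ≤ q)
    (Δ : Fin M → Set ℂ) (κ : ℝ) (hκ1 : κ ≤ 1) (hκ : 7 * (q⁻¹)^40 ≤ κ) (hκM : (q⁻¹)^2 ≤ κ^M)
    (hΔ : ∀ l l', l ≠ l' → ∀ s ∈ Δ l, ∀ t ∈ Δ l', 2 * κ ≤ ch s t)
    (H F : Finset ℂ) (hFH : F ⊆ H) (hFc : F.card ≤ 2*(k+1)+M0)
    (hnet : ∀ t, (x0:ℝ≥0∞) ≤ ν (cb t ((q⁻¹)^80)) → ∃ c ∈ H, ch t c ≤ 3 * (q⁻¹)^80)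
    (hsep : ∀ b ∈ F, ∀ b' ∈ F, b ≠ b' → 3 * (q⁻¹)^80 < ch b b')
    (hP1 : ∀ a ∈ F, ∀ c ∈ H, ∏ b ∈ F.erase a, ch c b ≤ ∏ b ∈ F.erase a, ch a b)
    (hP2 : F.card < 2*(k+1)+M0 → ∀ c ∈ H, ∏ b ∈ F, ch c b ≤ (q⁻¹)^70)
    (hP3 : ∀ a ∈ F, (q⁻¹)^70 ≤ ∏ b ∈ F.erase a, ch a b)
    (bl : Fin M → ℂ) (hbl : ∀ l, (∃ b ∈ Δ l, (x0:ℝ≥0∞) ≤ ν (cb b (2 * (q⁻¹)^40))) → bl l ∈ Δ l)
    (C : Finset ℂ) (hC : C = (univ.filter (fun l => ∃ b ∈ Δ l, (x0:ℝ≥0∞) ≤ ν (cb b (2 * (q⁻¹)^40)))).image bl)
    (x : ι → ℂ) (h1 : VV x univ k ≤ (q⁻¹)^320)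
    (h2 : k+1 ≤ (univ.filter (fun i => a < ‖x i‖)).card)
    (h3 : ∃ j ≤ k, q⁻¹ ≤ VV x univ j) (h4 : KK x univ ≤ q)
    (h5 : ∀ l, X0 ≤ (univ.filter (fun i => x i ∈ Δ l)).card)
    (hI : (univ.filter (fun i => ν (cb (x i) ((q⁻¹)^80)) < x0 ∧ (q⁻¹)^140 < VV x (univ.erase i) k)).card ≤ B * (3 * x0))
    (hN : ((F.filter (fun b => ¬ Succ k ((q⁻¹)^140) ((q⁻¹)^20/2) ((q⁻¹)^80) b x)).card : ℝ) ≤ B * (F.card * (4/x0) + (156:ℕ)))
    (hD : ((C.filter (fun b => ¬ Succ k ((q⁻¹)^140) ((q⁻¹)^20/2) (2 * (q⁻¹)^40) b x)).card : ℝ) ≤ B * (C.card * (4/x0) + (156:ℕ)))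
    (hL : (univ.filter (fun i => ν (cb (x i) (2 * (q⁻¹)^40)) < x0 ∧ ((q⁻¹)^140 < VV x (univ.erase i) k ∨
      (VV x (univ.erase i) k ≤ (q⁻¹)^140 ∧ ∃ j ∈ univ.erase i, ch (x j) (x i) < (q⁻¹)^40 ∧ (q⁻¹)^20/2 < VV x ((univ.erase i).erase j) k)))).card
        ≤ B * (3 * x0 + 9 * x0 ^ 2)) : False := by
  have hne : Nonempty ι := by
    obtain ⟨i, _⟩ := card_pos.mp (lt_of_lt_of_le (Nat.succ_pos k) h2)
    exact ⟨i⟩
  set gm := 2*(k+1)+M0+M with hgm
  set T := k + gm + 2 with hT
  set p := q⁻¹ with hp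
  -- basic numeric facts
  have hq64 : 64 * (256:ℝ)^T ≤ q := by
    refine le_trans ?_ hq
    have e0 : (0:ℝ) ≤ Fintype.card ι := by positivity
    have e1 : (1:ℝ) ≤ ((Fintype.card ι:ℝ)+1)^2 := one_le_pow₀ (by linarith)
    have e2 : (1:ℝ) ≤ (k:ℝ)+(gm:ℝ)+1 := by
      have : (0:ℝ) ≤ (k:ℝ) + gm := by positivity
      linarith
    have e3 : (256:ℝ)^T ≤ (256/a)^T := by
      apply pow_le_pow_left₀ (by norm_num)
      rw [le_div_iff₀ ha0]; nlinarith
    calc 64 * (256:ℝ)^T = 64 * 1 * 1 * 256^T := by ring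
      _ ≤ _ := by gcongr
  have hq0 : 0 < q := lt_of_lt_of_le (by positivity) hq64
  have hp0 : 0 < p := inv_pos.mpr hq0
  have hqp : q * p = 1 := mul_inv_cancel₀ hq0.ne'
  have hbig : ∀ c : ℝ, c ≤ 64 * 256^T → c * p ≤ 1 := by
    intro c hc
    calc c * p ≤ q * p := by gcongr; exact hc.trans hq64
      _ = 1 := hqp
  have hp64 : 64 * p ≤ 1 := by
    apply hbig
    have : (1:ℝ) ≤ 256^T := one_le_pow₀ (by norm_num)
    linarith
  have hp1 : p ≤ 1 := by linarith
  have pw : ∀ m n : ℕ, n ≤ m → p^m ≤ p^n := fun m n h => pow_le_pow_of_le_one hp0.le hp1 h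
  have hx0r : (656:ℝ) * B ≤ x0 := by exact_mod_cast hx0
  have hBr : (1:ℝ) ≤ B := by exact_mod_cast hB
  have hx0pos : (0:ℝ) < x0 := by linarith
  have hM0r : 160 * (B:ℝ) * x0 + 20000 * B ≤ M0 := by exact_mod_cast hM0
  have hMr : 2 * (3 * (B:ℝ) * x0 + M0 + 156 * B) ≤ M := by exact_mod_cast hM
  have hBx : (B:ℝ) * (4 / x0) ≤ 1/164 := by
    rw [mul_div_assoc', div_le_iff₀ hx0pos]; linarith
  set NF := F.filter (fun b => ¬ Succ k (p^140) (p^20/2) (p^80) b x) with hNF
  have hNFsub : NF ⊆ F := filter_subset _ _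
  have hNcard : (NF.card:ℝ) ≤ F.card / 164 + 156 * B := by
    refine hN.trans ?_
    have hF0 : (0:ℝ) ≤ F.card := by positivity
    have : (B:ℝ) * (F.card * (4/x0) + (156:ℕ)) = F.card * (B * (4/x0)) + 156 * B := by push_cast; ring
    rw [this]
    have := mul_le_mul_of_nonneg_left hBx hF0
    linarith
  have hcardsd : ((F \ NF).card : ℝ) = F.card - NF.card := by
    rw [card_sdiff_of_subset hNFsub, Nat.cast_sub (card_le_card hNFsub)]
  have hp20p : 0 < p^20 := by positivity
  have hp20 : p^20/2 ≤ p^20 := by linarith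
  have h39 : p^39 ≤ (1/64) * p^20 := by
    calc p^39 ≤ p^21 := pw 39 21 (by norm_num)
      _ = p * p^20 := by ring
      _ ≤ (1/64) * p^20 := by
        apply mul_le_mul_of_nonneg_right _ hp20p.le
        linarith
  have hq40 : q * p^40 = p^39 := by
    calc q * p^40 = (q * p) * p^39 := by ring
      _ = _ := by rw [hqp, one_mul]
  have hq40a : p^20/2 + q * (p^40 + 2 * (2 * p^40)) ≤ p^20 := by
    have e1 : q * (p^40 + 2 * (2 * p^40)) = 5 * (q * p^40) := by ring
    rw [e1, hq40]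
    linarith
  have hq80 : p^20/2 + q * (p^40 + 2 * p^80) ≤ p^20 := by
    refine le_trans ?_ hq40a
    have e1 : p^80 ≤ 2 * p^40 := by
      have := pw 80 40 (by norm_num)
      have e2 : 0 < p^40 := by positivity
      linarith
    gcongr
  -- nodes for F \ NF
  have hnode : ∀ b : ℂ, ∃ i : ι, b ∈ F \ NF → (ch (x i) b ≤ p^80 ∧ VV x (univ.erase i) k ≤ p^140 ∧
      ∀ j ∈ univ.erase i, ch (x j) (x i) < p^40 → VV x ((univ.erase i).erase j) k ≤ p^20) := by
    intro b
    by_cases hb : b ∈ F \ NF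
    · have hS : Succ k (p^140) (p^20/2) (p^80) b x := by
        by_contra hS
        exact (mem_sdiff.mp hb).2 (mem_filter.mpr ⟨(mem_sdiff.mp hb).1, hS⟩)
      obtain ⟨i, hi⟩ := node_of_succ x k hk q (p^80) (p^40) (p^140) (p^20/2) (p^20) h4
        hp20 (by positivity) (by positivity) hq80 b hS
      exact ⟨i, fun _ => hi⟩
    · exact ⟨hne.some, fun h => absurd h hb⟩
  choose y hy using hnode
  have hh0 : 0 ≤ p^80 := by positivity
  have hh1 : 4 * p^80 ≤ 1 := by
    have := pw 80 1 (by norm_num)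
    rw [pow_one] at this
    linarith
  have hηc : 0 < p^70 := by positivity
  have hη2 : 0 ≤ p^140 := by positivity
  have hFgm : F.card ≤ gm := by omega
  have hsmall : 4 * p^80 * 4 ^ F.card ≤ p^70 / 2 := by
    have e1 : (8 * 4^F.card) * p ≤ 1 := by
      apply hbig
      calc (8:ℝ) * 4^F.card = 2^(3 + 2 * F.card) := by rw [pow_add, pow_mul]; norm_num
        _ ≤ 2^(8*T) := by
            apply pow_le_pow_right₀ (by norm_num)
            omega
        _ = 256^T := by rw [pow_mul]; norm_num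
        _ ≤ 64 * 256^T := by
            have : (0:ℝ) ≤ 256^T := by positivity
            linarith
    have e2 : p^79 ≤ p^70 := pw 79 70 (by norm_num)
    have e3 : 0 < p^79 := by positivity
    calc 4 * p^80 * 4 ^ F.card = ((8 * 4^F.card) * p) * p^79 / 2 := by ring
      _ ≤ 1 * p^79 / 2 := by gcongr
      _ ≤ _ := by linarith
  -- the exceptional index set
  set I := univ.filter (fun i => ν (cb (x i) (p^80)) < x0 ∧ p^140 < VV x (univ.erase i) k) with hIdef
  have hIr : (I.card:ℝ) ≤ B * (3 * x0) := by exact_mod_cast hI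
  by_cases hfull : F.card = 2*(k+1)+M0
  · -- too many nodes
    apply case_cap x k p (p^140) (p^70) (p^80) hηc hη2 hh0 hh1 F NF hNFsub hP3 hsep y
      (fun b hb => (hy b hb).1) (fun b hb => (hy b hb).2.1) hsmall ?_ h3 ?_
    · have e0 : (F.card:ℝ) = 2 * ((k:ℝ)+1) + M0 := by rw [hfull]; push_cast; ring
      have e1 : ((k+1 : ℕ):ℝ) ≤ ((F \ NF).card : ℝ) := by
        rw [hcardsd]
        push_cast
        have hk0 : (0:ℝ) ≤ k := by positivity
        have hBx0 : 0 ≤ (B:ℝ) * x0 := by positivity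
        linarith
      exact_mod_cast e1
    · rw [hfull]
      set cap := 2*(k+1)+M0 with hcap
      have e1 : (2^(k+1) * ((k:ℝ)+1) * 2^(cap+1)) * p ≤ 1 := by
        apply hbig
        have e2 : ((k:ℝ)+1) ≤ 2^(k+1) := by
          have := @Nat.lt_two_pow_self (k+1)
          have h' : ((k+1:ℕ):ℝ) ≤ ((2^(k+1) : ℕ):ℝ) := by exact_mod_cast this.le
          push_cast at h'
          exact h'
        calc 2^(k+1) * ((k:ℝ)+1) * 2^(cap+1) ≤ 2^(k+1) * 2^(k+1) * 2^(cap+1) := by gcongr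
          _ = 2^(k+1+(k+1)+(cap+1)) := by rw [← pow_add, ← pow_add]
          _ ≤ 2^(8*T) := by
              apply pow_le_pow_right₀ (by norm_num)
              omega
          _ = 256^T := by rw [pow_mul]; norm_num
          _ ≤ 64 * 256^T := by
              have : (0:ℝ) ≤ 256^T := by positivity
              linarith
      have e3 : p^69 ≤ p^2 := pw 69 2 (by norm_num)
      have e4 : p^2 < p := by
        rw [sq]
        calc p * p ≤ (1/64) * p := by
              apply mul_le_mul_of_nonneg_right _ hp0.le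
              linarith
          _ < p := by linarith
      calc 2 ^ (k+1) * (((k:ℝ)+1) * (p^140 / (p^70 / 2 ^ (cap+1))))
          = (2^(k+1) * ((k:ℝ)+1) * 2^(cap+1)) * p * p^69 := by field_simp
        _ ≤ 1 * p^69 := by gcongr
        _ < p := by linarith
  have hflt : F.card < 2*(k+1)+M0 := lt_of_le_of_ne hFc hfull
  have hn1 : p^140 * 2^F.card ≤ p^68 := by
    have e1 : (2^F.card) * p ≤ 1 := by
      apply hbig
      calc (2:ℝ)^F.card ≤ 2^(8*T) := by
              apply pow_le_pow_right₀ (by norm_num)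
              omega
        _ = 256^T := by rw [pow_mul]; norm_num
        _ ≤ 64 * 256^T := by
              have : (0:ℝ) ≤ 256^T := by positivity
              linarith
    calc p^140 * 2^F.card = (2^F.card * p) * p^139 := by ring
      _ ≤ 1 * p^139 := by gcongr
      _ ≤ p^68 := by rw [one_mul]; exact pw 139 68 (by norm_num)
  have hn2 : 2 * q * p^70 + F.card * 2^(F.card+2) * p^140 ≤ p^68 := by
    have e1 : (F.card * 2^(F.card+2)) * p ≤ 1 := by
      apply hbig
      have e2 : (F.card:ℝ) ≤ 2^F.card := by exact_mod_cast (@Nat.lt_two_pow_self F.card).le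
      calc (F.card:ℝ) * 2^(F.card+2) ≤ 2^F.card * 2^(F.card+2) := by gcongr
        _ = 2^(F.card+(F.card+2)) := by rw [← pow_add]
        _ ≤ 2^(8*T) := by
              apply pow_le_pow_right₀ (by norm_num)
              omega
        _ = 256^T := by rw [pow_mul]; norm_num
        _ ≤ 64 * 256^T := by
              have : (0:ℝ) ≤ 256^T := by positivity
              linarith
    have e3 : 2 * q * p^70 = 2 * p^69 := by
      rw [show p^70 = p * p^69 by ring]
      calc 2 * q * (p * p^69) = (q * p) * (2 * p^69) := by ring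
        _ = _ := by rw [hqp, one_mul]
    have e4 : F.card * 2^(F.card+2) * p^140 ≤ p^139 := by
      calc F.card * 2^(F.card+2) * p^140 = ((F.card * 2^(F.card+2)) * p) * p^139 := by ring
        _ ≤ 1 * p^139 := by gcongr
        _ = _ := one_mul _
    have e5 : p^139 ≤ p^69 := pw 139 69 (by norm_num)
    have e6 : p^69 = p * p^68 := by ring
    have e7 : 0 < p^68 := by positivity
    have e8 : p * p^68 ≤ (1/64) * p^68 := by
      apply mul_le_mul_of_nonneg_right _ e7.le
      linarith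
    rw [e3]
    linarith
  have hIall := fun (N : Finset ℂ) (hNs : NF ⊆ N) (hN2 : N ⊆ F) =>
    hI_common x k q (p^70) (p^140) (p^20) (p^40) (p^80) (p^68) h4 hηc hη2 hh0 hh1 H F N hFH hN2 hP1
      (hP2 hflt) hP3 hsep y (fun b hb => (hy b (sdiff_subset_sdiff subset_rfl hNs hb)).1)
      (fun b hb => (hy b (sdiff_subset_sdiff subset_rfl hNs hb)).2.1) hsmall ν x0 hnet hn1 hn2 I
      (fun i hi1 hi2 => mem_filter.mpr ⟨mem_univ i, hi1, hi2⟩)
  have hd0 : 0 < p^40 := by positivity
  have hd1 : p^40 ≤ 1 := pow_le_one₀ hp0.le hp1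
  have h3' : 0 ≤ p^20 := by positivity
  have h23 : p^140 ≤ p^40 * p^20 := by rw [← pow_add]; exact pw 140 60 (by norm_num)
  have hη5 : 0 < p^2 := by positivity
  have hη6 : 0 ≤ p^68 := by positivity
  have hfin : ∀ (G : Finset ι) (N : Finset ℂ), G.card ≤ gm → NF ⊆ N → N ⊆ F →
      (∀ b ∈ G, VV x (univ.erase b) k ≤ p^140) →
      (∀ b ∈ G, ∀ i ∈ univ.erase b, ch (x i) (x b) < p^40 → VV x ((univ.erase b).erase i) k ≤ p^20) →
      (∀ b ∈ G, p^2 ≤ ∏ c ∈ G.erase b, ch (x b) (x c)) → I.card + N.card ≤ G.card → False := by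
    intro G N hGg hNs hN2 hG2 hG3 hGc hDG
    exact DT x k a ha0 ha1 h2 p hp0 h3 (p^40) (p^140) (p^20) (p^2) (p^68) hd0 hd1 hη2 h3' h23 hη5 hη6
      G hG2 hG3 hGc I N hDG (hIall N hNs hN2)
      (Pool.Agent.TH429.J708.hnum_of (Fintype.card ι) k G.card gm hGg a p q ha0 ha1 le_rfl hq)
  by_cases hbigF : M0 ≤ F.card
  · -- nodes from F
    set z : ℂ → ℂ := fun b => if b ∈ F \ NF then x (y b) else b with hz
    have hzG : ∀ b ∈ F \ NF, z b = x (y b) := fun b hb => by rw [hz]; simp only [hb, if_true]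
    have hzF : ∀ b ∈ F, ch (z b) b ≤ p^80 := by
      intro b hb
      by_cases h1 : b ∈ F \ NF
      · rw [hzG b h1]; exact (hy b h1).1
      · rw [hz]; simp only [h1, if_false]; rw [ch_self]; exact hh0
    obtain ⟨G', hG'1, hG'2, hG'3⟩ := color_nodes F NF hNFsub z (p^70) (p^80) hηc hh0 (by linarith) hzF hsmall hP3 40 (by norm_num)
    have hinj : Set.InjOn y G' := by
      apply node_inj x (p^80) G' y (fun b hb => (hy b (hG'1 hb)).1)
      intro b hb b' hb' hbb
      have := hsep b (mem_sdiff.mp (hG'1 hb)).1 b' (mem_sdiff.mp (hG'1 hb')).1 hbb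
      linarith
    have hexp : p^2 ≤ Real.exp (-(Real.log (2 ^ (F.card + 1) / p^70) / (40:ℕ))) := by
      have e1 : (2^(F.card+1)) * p ≤ 1 := by
        apply hbig
        calc (2:ℝ)^(F.card+1) ≤ 2^(8*T) := by
              apply pow_le_pow_right₀ (by norm_num)
              omega
          _ = 256^T := by rw [pow_mul]; norm_num
          _ ≤ 64 * 256^T := by
              have : (0:ℝ) ≤ 256^T := by positivity
              linarith
      have e2 : (2:ℝ)^(F.card+1) / p^70 ≤ (p^71)⁻¹ := by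
        rw [div_le_iff₀ hηc, inv_mul_eq_div, le_div_iff₀ (by positivity)]
        calc (2:ℝ)^(F.card+1) * p^71 = ((2^(F.card+1)) * p) * p^70 := by ring
          _ ≤ 1 * p^70 := by gcongr
          _ = p^70 := one_mul _
      have e3 : Real.log (2 ^ (F.card + 1) / p^70) ≤ -(71 * Real.log p) := by
        calc Real.log (2 ^ (F.card + 1) / p^70) ≤ Real.log ((p^71)⁻¹) := Real.log_le_log (by positivity) e2
          _ = _ := by rw [Real.log_inv, Real.log_pow]; norm_num
      have e4 : Real.log p ≤ 0 := Real.log_nonpos hp0.le hp1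
      rw [← Real.log_le_iff_le_exp (by positivity), Real.log_pow]
      push_cast
      linarith
    apply hfin (G'.image y) NF
    · rw [card_image_of_injOn hinj]
      exact (card_le_card (hG'1.trans sdiff_subset)).trans hFgm
    · exact subset_rfl
    · exact hNFsub
    · intro i hi
      obtain ⟨b, hb, rfl⟩ := mem_image.mp hi
      exact (hy b (hG'1 hb)).2.1
    · intro i hi
      obtain ⟨b, hb, rfl⟩ := mem_image.mp hi
      exact (hy b (hG'1 hb)).2.2
    · exact prod_image_nodes x G' y hinj z (fun b hb => hzG b (hG'1 hb)) _ (fun b hb => hexp.trans (hG'3 b hb))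
    · rw [card_image_of_injOn hinj]
      have e1 : (F.card:ℝ) - NF.card ≤ 40 * G'.card := by rw [← hcardsd]; exact_mod_cast hG'2
      have e2 : (M0:ℝ) ≤ F.card := by exact_mod_cast hbigF
      have e3 : ((I.card + NF.card : ℕ):ℝ) ≤ (G'.card:ℝ) := by
        push_cast
        have hBx0 : 0 ≤ (B:ℝ) * x0 := by positivity
        linarith
      exact_mod_cast e3
  · -- nodes from the discs
    push Not at hbigF
    set Lset := univ.filter (fun i => ν (cb (x i) (2 * p^40)) < x0 ∧ (p^140 < VV x (univ.erase i) k ∨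
      (VV x (univ.erase i) k ≤ p^140 ∧ ∃ j ∈ univ.erase i, ch (x j) (x i) < p^40 ∧ p^20/2 < VV x ((univ.erase i).erase j) k))) with hLset
    set hv := univ.filter (fun l : Fin M => ∃ b ∈ Δ l, (x0:ℝ≥0∞) ≤ ν (cb b (2 * p^40))) with hhv
    set bad := hv.filter (fun l => ¬ Succ k (p^140) (p^20/2) (2 * p^40) (bl l) x) with hbad
    have hblv : ∀ l ∈ hv, bl l ∈ Δ l := fun l hl => hbl l (mem_filter.mp hl).2
    have hκ0 : 0 < κ := lt_of_lt_of_le (by positivity) hκ
    have hblinj : Set.InjOn bl hv := by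
      intro l hl l' hl' hll
      by_contra hne
      have := hΔ l l' hne (bl l) (hblv l (by exact_mod_cast hl)) (bl l') (hblv l' (by exact_mod_cast hl'))
      rw [hll, ch_self] at this
      linarith
    have hCcard : (C.card:ℝ) ≤ M := by
      have : C.card ≤ M := by
        rw [hC]
        refine card_image_le.trans ((card_le_card (filter_subset _ _)).trans ?_)
        simp
      exact_mod_cast this
    have hbadc : (bad.card:ℝ) ≤ M / 164 + 156 * B := by
      have e1 : bad.card ≤ (C.filter (fun b => ¬ Succ k (p^140) (p^20/2) (2 * p^40) b x)).card := by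
        apply card_le_card_of_injOn bl
        · intro l hl
          have hl' := mem_filter.mp (by exact_mod_cast hl : l ∈ bad)
          rw [Finset.mem_coe, mem_filter, hC]
          exact ⟨mem_image_of_mem bl hl'.1, hl'.2⟩
        · exact hblinj.mono (by intro l hl; exact_mod_cast (mem_filter.mp (by exact_mod_cast hl : l ∈ bad)).1)
      have e2 : (bad.card:ℝ) ≤ ((C.filter (fun b => ¬ Succ k (p^140) (p^20/2) (2 * p^40) b x)).card:ℝ) := by exact_mod_cast e1
      refine e2.trans (hD.trans ?_)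
      have : (B:ℝ) * (C.card * (4/x0) + (156:ℕ)) = C.card * (B * (4/x0)) + 156 * B := by push_cast; ring
      rw [this]
      have hC0 : (0:ℝ) ≤ C.card := by positivity
      have := mul_le_mul_of_nonneg_left hBx hC0
      linarith
    -- node of each non-bad disc
    have hnd : ∀ l : Fin M, ∃ i : ι, l ∉ bad → ((∃ s ∈ Δ l, ch (x i) s ≤ 2 * p^40) ∧ VV x (univ.erase i) k ≤ p^140 ∧
      ∀ j ∈ univ.erase i, ch (x j) (x i) < p^40 → VV x ((univ.erase i).erase j) k ≤ p^20) := by
      intro l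
      by_cases hl : l ∈ bad
      · exact ⟨hne.some, fun h => absurd hl h⟩
      by_cases hlv : l ∈ hv
      · have hS : Succ k (p^140) (p^20/2) (2 * p^40) (bl l) x := by
          by_contra hS
          exact hl (mem_filter.mpr ⟨hlv, hS⟩)
        obtain ⟨i, hi1, hi2, hi3⟩ := node_of_succ x k hk q (2 * p^40) (p^40) (p^140) (p^20/2) (p^20) h4
          hp20 (by positivity) (by positivity) hq40a (bl l) hS
        exact ⟨i, fun _ => ⟨⟨bl l, hblv l hlv, hi1⟩, hi2, hi3⟩⟩
      · have hlight : ∀ b ∈ Δ l, ν (cb b (2 * p^40)) < x0 := by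
          intro b hb
          by_contra hc
          exact hlv (mem_filter.mpr ⟨mem_univ l, b, hb, not_lt.mp hc⟩)
        obtain ⟨i, hi, hiL⟩ : ∃ i ∈ univ.filter (fun i => x i ∈ Δ l), i ∉ Lset := by
          by_contra hcon
          push Not at hcon
          have e1 := card_le_card (fun i hi => hcon i hi : univ.filter (fun i => x i ∈ Δ l) ⊆ Lset)
          have e2 := h5 l
          omega
        have hxi : x i ∈ Δ l := (mem_filter.mp hi).2
        have hli := hlight _ hxi
        have hnot : ¬ (p^140 < VV x (univ.erase i) k ∨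
          (VV x (univ.erase i) k ≤ p^140 ∧ ∃ j ∈ univ.erase i, ch (x j) (x i) < p^40 ∧ p^20/2 < VV x ((univ.erase i).erase j) k)) := by
          intro h
          exact hiL (mem_filter.mpr ⟨mem_univ i, hli, h⟩)
        push Not at hnot
        refine ⟨i, fun _ => ⟨⟨x i, hxi, by rw [ch_self]; positivity⟩, hnot.1, ?_⟩⟩
        intro j hj hcj
        have e1 := hnot.2 hnot.1 j hj hcj
        have e2 : 0 < p^20 := by positivity
        linarith
    choose nd hnd using hnd
    set Gl := (univ : Finset (Fin M)) \ bad with hGl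
    have hGlm : ∀ l ∈ Gl, l ∉ bad := fun l hl => (mem_sdiff.mp hl).2
    have hdist : ∀ l ∈ Gl, ∀ l' ∈ Gl, l ≠ l' → κ ≤ ch (x (nd l)) (x (nd l')) := by
      intro l hl l' hl' hll
      obtain ⟨s, hs, hs1⟩ := (hnd l (hGlm l hl)).1
      obtain ⟨s', hs', hs1'⟩ := (hnd l' (hGlm l' hl')).1
      have e1 := hΔ l l' hll s hs s' hs'
      have e2 := ch_triangle s (x (nd l)) s'
      have e3 := ch_triangle (x (nd l)) (x (nd l')) s'
      rw [ch_symm s (x (nd l))] at e2
      linarith
    have hndinj : Set.InjOn nd Gl := by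
      intro l hl l' hl' hll
      by_contra hne
      have := hdist l (by exact_mod_cast hl) l' (by exact_mod_cast hl') hne
      rw [hll, ch_self] at this
      linarith
    have hGlc : ((Gl.card : ℕ):ℝ) = M - bad.card := by
      rw [hGl, card_sdiff_of_subset (subset_univ _), Nat.cast_sub (card_le_card (subset_univ _))]
      simp
    have hGlM : Gl.card ≤ M := by
      refine (card_le_card (subset_univ _)).trans ?_
      simp
    apply hfin (Gl.image nd) F
    · rw [card_image_of_injOn hndinj]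
      omega
    · exact hNFsub
    · exact subset_rfl
    · intro i hi
      obtain ⟨l, hl, rfl⟩ := mem_image.mp hi
      exact (hnd l (hGlm l hl)).2.1
    · intro i hi
      obtain ⟨l, hl, rfl⟩ := mem_image.mp hi
      exact (hnd l (hGlm l hl)).2.2
    · intro i hi
      obtain ⟨l, hl, rfl⟩ := mem_image.mp hi
      have e1 : ∀ c ∈ (Gl.image nd).erase (nd l), κ ≤ ch (x (nd l)) (x c) := by
        intro c hc
        obtain ⟨l', hl', rfl⟩ := mem_image.mp (mem_of_mem_erase hc)
        apply hdist l hl l' hl'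
        rintro rfl
        exact ne_of_mem_erase hc rfl
      calc p^2 ≤ κ^M := hκM
        _ ≤ κ^((Gl.image nd).erase (nd l)).card := by
            apply pow_le_pow_of_le_one hκ0.le hκ1
            refine (card_le_card (erase_subset _ _)).trans ?_
            rw [card_image_of_injOn hndinj]
            exact hGlM
        _ = ∏ c ∈ (Gl.image nd).erase (nd l), κ := by rw [prod_const]
        _ ≤ _ := prod_le_prod (fun _ _ => hκ0.le) e1
    · rw [card_image_of_injOn hndinj]
      have e1 : (F.card:ℝ) ≤ M0 := by exact_mod_cast hbigF.le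
      have e3 : ((I.card + F.card : ℕ):ℝ) ≤ (Gl.card:ℝ) := by
        push_cast
        rw [hGlc]
        have hM00 : (0:ℝ) ≤ M := by positivity
        linarith
      exact_mod_cast e3

end

end Pool.Agent.TH963
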