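import Mathlib
import Pool.Agent.TH963.ECT

set_option autoImplicit false
set_option linter.unusedVariables false
set_option linter.unusedSectionVars false

namespace Pool.Agent.TH963
open Finset Pool.Agent.H704R3 MeasureTheory
open scoped ENNReal

section
variable {ι : Type*} [Fintype ι] [DecidableEq ι]

/-- core probability estimate -/
theorem CT (μ : ι → Measure ℂ) [∀ i, IsProbabilityMeasure (μ i)] (θ : ι → ℝ≥0∞)
    (hθ : ∀ i A, MeasurableSet A → μ i A ≤ θ i * lam μ A) (hΘ : ∑ i, θ i ≤ 3)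
    (k : ℕ) (hk : 1 ≤ k) (a : ℝ) (ha0 : 0 < a) (ha1 : a ≤ 1)
    (ε0 : ℝ≥0∞) (B x0 M0 M X0 : ℕ) (hB : 1 ≤ B) (hBε : 4 ≤ ε0 * B) (hx0 : 656 * B ≤ x0)
    (hM0 : 160 * B * x0 + 20000 * B ≤ M0)
    (hM : 2 * (3 * B * x0 + M0 + 156 * B) ≤ M) (hX0 : B * (3 * x0 + 9 * x0 ^ 2) < X0)
    (q : ℝ) (hq : 64 * ((Fintype.card ι:ℝ)+1)^2 * ((k:ℝ)+((2*(k+1)+M0+M : ℕ):ℝ)+1) *
      (256/a)^(k+(2*(k+1)+M0+M)+2) ≤ q)
    (Δ : Fin M → Set ℂ) (κ : ℝ) (hκ1 : κ ≤ 1) (hκ : 7 * (q⁻¹)^40 ≤ κ) (hκM : (q⁻¹)^2 ≤ κ^M)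
    (hΔ : ∀ l l', l ≠ l' → ∀ s ∈ Δ l, ∀ t ∈ Δ l', 2 * κ ≤ ch s t)
    (G : Set (ι → ℂ))
    (h1 : ∀ x ∈ G, VV x univ k ≤ (q⁻¹)^320)
    (h2 : ∀ x ∈ G, k+1 ≤ (univ.filter (fun i => a < ‖x i‖)).card)
    (h3 : ∀ x ∈ G, ∃ j ≤ k, q⁻¹ ≤ VV x univ j) (h4 : ∀ x ∈ G, KK x univ ≤ q)
    (h5 : ∀ x ∈ G, ∀ l, ∀ S : Finset ι, (∀ i, x i ∈ Δ l → i ∈ S) → X0 ≤ S.card) :
    Measure.pi μ G ≤ ε0 := by
  classical
  set p := q⁻¹ with hp
  have hx0r : (656:ℝ) * B ≤ x0 := by exact_mod_cast hx0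
  have hBr : (1:ℝ) ≤ B := by exact_mod_cast hB
  have hx0pos : (0:ℝ) < x0 := by linarith
  have hx0nat : 4 ≤ x0 := by
    have : 656 * 1 ≤ 656 * B := Nat.mul_le_mul_left _ hB
    omega
  have hq64 : 64 * (256:ℝ)^(k+(2*(k+1)+M0+M)+2) ≤ q := by
    refine le_trans ?_ hq
    have e0 : (0:ℝ) ≤ Fintype.card ι := by positivity
    have e1 : (1:ℝ) ≤ ((Fintype.card ι:ℝ)+1)^2 := one_le_pow₀ (by linarith)
    have e2 : (1:ℝ) ≤ (k:ℝ)+((2*(k+1)+M0+M : ℕ):ℝ)+1 := by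
      have : (0:ℝ) ≤ (k:ℝ) + ((2*(k+1)+M0+M : ℕ):ℝ) := by positivity
      linarith
    have e3 : (256:ℝ)^(k+(2*(k+1)+M0+M)+2) ≤ (256/a)^(k+(2*(k+1)+M0+M)+2) := by
      apply pow_le_pow_left₀ (by norm_num)
      rw [le_div_iff₀ ha0]; nlinarith
    calc 64 * (256:ℝ)^(k+(2*(k+1)+M0+M)+2) = 64 * 1 * 1 * 256^(k+(2*(k+1)+M0+M)+2) := by ring
      _ ≤ _ := by gcongr
  have hq64' : 64 ≤ q := by
    have : (1:ℝ) ≤ 256^(k+(2*(k+1)+M0+M)+2) := one_le_pow₀ (by norm_num)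
    linarith
  have hq0 : 0 < q := by linarith
  have hp0 : 0 < p := inv_pos.mpr hq0
  have hp64 : 64 * p ≤ 1 := by
    rw [hp, mul_inv_le_iff₀ hq0]; linarith
  have hp1 : p ≤ 1 := by linarith
  have pw : ∀ m n : ℕ, n ≤ m → p^m ≤ p^n := fun m n h => pow_le_pow_of_le_one hp0.le hp1 h
  -- widths
  have w1 : 2 * p^320 / p^140 = 2 * p^180 := by field_simp
  have w2 : 2 * p^140 / (p^20/2) = 4 * p^120 := by field_simp; norm_num
  have s1 : 64 * p^180 ≤ p^80 := by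
    calc 64 * p^180 = (64 * p) * p^179 := by ring
      _ ≤ 1 * p^179 := by gcongr
      _ ≤ p^80 := by rw [one_mul]; exact pw _ _ (by norm_num)
  have s2 : 64 * p^120 ≤ p^80 := by
    calc 64 * p^120 = (64 * p) * p^119 := by ring
      _ ≤ 1 * p^119 := by gcongr
      _ ≤ p^80 := by rw [one_mul]; exact pw _ _ (by norm_num)
  have s3 : 64 * p^80 ≤ p^40 := by
    calc 64 * p^80 = (64 * p) * p^79 := by ring
      _ ≤ 1 * p^79 := by gcongr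
      _ ≤ p^40 := by rw [one_mul]; exact pw _ _ (by norm_num)
  have t1 : 0 < p^180 := by positivity
  have t2 : 0 < p^120 := by positivity
  have t3 : 0 < p^80 := by positivity
  have t4 : 0 < p^40 := by positivity
  -- net and Fekete points
  obtain ⟨H, hH1, hH2, hH3⟩ := exists_net (lam μ) (x0:ℝ≥0∞) (by
    have : 0 < x0 := by omega
    exact_mod_cast this) (p^80) t3
  obtain ⟨F, hFH, hFc, hP1, hP2, hP3⟩ := fekete H (p^70) (by positivity) (2*(k+1)+M0)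
  have hsepF : ∀ b ∈ F, ∀ b' ∈ F, b ≠ b' → 3 * p^80 < ch b b' :=
    fun b hb b' hb' h => hH2 b (hFH hb) b' (hFH hb') h
  -- heavy discs
  have hbl0 : ∀ l, ∃ b : ℂ, (∃ b ∈ Δ l, (x0:ℝ≥0∞) ≤ lam μ (cb b (2 * p^40))) →
      (b ∈ Δ l ∧ (x0:ℝ≥0∞) ≤ lam μ (cb b (2 * p^40))) := by
    intro l
    by_cases h : ∃ b ∈ Δ l, (x0:ℝ≥0∞) ≤ lam μ (cb b (2 * p^40))
    · obtain ⟨b, hb⟩ := h
      exact ⟨b, fun _ => hb⟩
    · exact ⟨0, fun h' => absurd h' h⟩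
  choose bl hbl using hbl0
  set hv := univ.filter (fun l : Fin M => ∃ b ∈ Δ l, (x0:ℝ≥0∞) ≤ lam μ (cb b (2 * p^40))) with hhv
  set C := hv.image bl with hC
  have hCheavy : ∀ b ∈ C, (x0:ℝ≥0∞) ≤ lam μ (cb b (2 * p^40)) := by
    intro b hb
    obtain ⟨l, hl, rfl⟩ := mem_image.mp hb
    exact (hbl l (mem_filter.mp hl).2).2
  have hCsep : ∀ b ∈ C, ∀ b' ∈ C, b ≠ b' → 2 * (2 * p^40) + p^40 < ch b b' := by
    intro b hb b' hb' hbb
    obtain ⟨l, hl, rfl⟩ := mem_image.mp hb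
    obtain ⟨l', hl', rfl⟩ := mem_image.mp hb'
    have hll : l ≠ l' := fun h => hbb (by rw [h])
    have := hΔ l l' hll _ (hbl l (mem_filter.mp hl).2).1 _ (hbl l' (mem_filter.mp hl').2).1
    linarith
  -- the four counting functions
  obtain ⟨F0, hF0m, hF0i, hF0⟩ := light_I μ θ hθ 3 hΘ k hk (p^320) (p^140) (p^80) (by positivity)
    (by rw [w1]; linarith) (x0:ℝ≥0∞)
  obtain ⟨F1, hF1m, hF1i, hF1⟩ := heavy_count μ θ hθ 3 hΘ k hk (p^320) (p^140) (p^20/2) (p^80) (p^80)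
    (by positivity) (by positivity) (by rw [w1]; linarith) (by rw [w2]; linarith) F
    (fun b hb b' hb' h => by have := hsepF b hb b' hb' h; linarith) x0 hx0nat
    (fun b hb => hH1 b (hFH hb))
  obtain ⟨F2, hF2m, hF2i, hF2⟩ := heavy_count μ θ hθ 3 hΘ k hk (p^320) (p^140) (p^20/2) (2 * p^40) (p^40)
    (by positivity) (by positivity) (by rw [w1]; linarith) (by rw [w2]; linarith) C
    hCsep x0 hx0nat hCheavy
  obtain ⟨F3, hF3m, hF3i, hF3⟩ := light_I μ θ hθ 3 hΘ k hk (p^320) (p^140) (2 * p^40) (by positivity)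
    (by rw [w1]; linarith) (x0:ℝ≥0∞)
  obtain ⟨F4, hF4m, hF4i, hF4⟩ := light_II μ θ hθ 3 hΘ k hk (p^140) (p^20/2) (p^40) (2 * p^40)
    (by positivity) (by rw [w2]; linarith) (by linarith) (x0:ℝ≥0∞)
  have h156 : (4 * 3 + 16 * 3 ^ 2 : ℝ≥0∞) = ((156:ℕ):ℝ≥0∞) := by norm_num
  rw [h156] at hF1i hF2i
  have hx0e : (0:ℝ≥0∞) < (x0:ℝ≥0∞) := by
    have : 0 < x0 := by omega
    exact_mod_cast this
  apply extract (Measure.pi μ) G ε0 B hB hBε ![F0, F1, F2, fun x => F3 x + F4 x] ?_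
    ![(3 * x0 : ℕ), ENNReal.ofReal (F.card * (4/x0)) + (156:ℕ), ENNReal.ofReal (C.card * (4/x0)) + (156:ℕ),
      (3 * x0 + 9 * x0 ^ 2 : ℕ)] ?_ ?_ ?_ ?_
  · intro j
    fin_cases j
    · exact hF0m
    · exact hF1m
    · exact hF2m
    · exact hF3m.add hF4m
  · intro j
    fin_cases j
    · show (0:ℝ≥0∞) < ((3 * x0 : ℕ):ℝ≥0∞)
      have : 0 < 3 * x0 := by omega
      exact_mod_cast this
    · show (0:ℝ≥0∞) < ENNReal.ofReal (F.card * (4/x0)) + (156:ℕ)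
      apply lt_of_lt_of_le _ le_add_self
      norm_num
    · show (0:ℝ≥0∞) < ENNReal.ofReal (C.card * (4/x0)) + (156:ℕ)
      apply lt_of_lt_of_le _ le_add_self
      norm_num
    · show (0:ℝ≥0∞) < ((3 * x0 + 9 * x0 ^ 2 : ℕ):ℝ≥0∞)
      have : 0 < 3 * x0 + 9 * x0 ^ 2 := by omega
      exact_mod_cast this
  · intro j
    fin_cases j
    · exact ENNReal.natCast_ne_top _
    · exact ENNReal.add_ne_top.mpr ⟨ENNReal.ofReal_ne_top, ENNReal.natCast_ne_top _⟩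
    · exact ENNReal.add_ne_top.mpr ⟨ENNReal.ofReal_ne_top, ENNReal.natCast_ne_top _⟩
    · exact ENNReal.natCast_ne_top _
  · intro j
    fin_cases j
    · show ∫⁻ x, F0 x ∂Measure.pi μ ≤ ((3 * x0 : ℕ):ℝ≥0∞)
      refine hF0i.trans (le_of_eq ?_)
      push_cast; rfl
    · exact hF1i
    · exact hF2i
    · show ∫⁻ x, (F3 x + F4 x) ∂Measure.pi μ ≤ ((3 * x0 + 9 * x0 ^ 2 : ℕ):ℝ≥0∞)
      rw [lintegral_add_left hF3m]
      refine (add_le_add hF3i hF4i).trans (le_of_eq ?_)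
      push_cast; norm_num
  · intro x hx hall
    have hb0 : F0 x ≤ (B:ℝ≥0∞) * ((3 * x0 : ℕ):ℝ≥0∞) := hall 0
    have hb1 : F1 x ≤ (B:ℝ≥0∞) * (ENNReal.ofReal (F.card * (4/x0)) + (156:ℕ)) := hall 1
    have hb2 : F2 x ≤ (B:ℝ≥0∞) * (ENNReal.ofReal (C.card * (4/x0)) + (156:ℕ)) := hall 2
    have hb3 : F3 x + F4 x ≤ (B:ℝ≥0∞) * ((3 * x0 + 9 * x0 ^ 2 : ℕ):ℝ≥0∞) := hall 3
    apply core_det (lam μ) k hk a ha0 ha1 B x0 M0 M X0 hB hx0 hM0 hM hX0 q hq Δ κ hκ1 hκ hκM hΔ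
      H F hFH hFc hH3 hsepF hP1 hP2 hP3 bl (fun l hl => (hbl l hl).1) C hC x (h1 x hx) (h2 x hx)
      (h3 x hx) (h4 x hx) (fun l => h5 x hx l _ (fun i hi => mem_filter.mpr ⟨mem_univ i, hi⟩))
    · have e1 := (hF0 x (h1 x hx)).trans hb0
      exact_mod_cast e1
    · have e1 := (hF1 x (h1 x hx)).trans hb1
      convert card_real_of_ennreal _ B _ (by positivity) 156 e1
    · have e1 := (hF2 x (h1 x hx)).trans hb2
      convert card_real_of_ennreal _ B _ (by positivity) 156 e1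
    · have e1 := (add_le_add (hF3 x (h1 x hx)) (hF4 x)).trans hb3
      have e2 : (univ.filter (fun i => lam μ (cb (x i) (2 * p^40)) < x0 ∧ (p^140 < VV x (univ.erase i) k ∨
          (VV x (univ.erase i) k ≤ p^140 ∧ ∃ j ∈ univ.erase i, ch (x j) (x i) < p^40 ∧ p^20/2 < VV x ((univ.erase i).erase j) k)))).card
          ≤ (univ.filter (fun i => lam μ (cb (x i) (2 * p^40)) < x0 ∧ p^140 < VV x (univ.erase i) k)).card
          + (univ.filter (fun i => lam μ (cb (x i) (2 * p^40)) < x0 ∧ VV x (univ.erase i) k ≤ p^140 ∧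
            ∃ j ∈ univ.erase i, ch (x j) (x i) < p^40 ∧ p^20/2 < VV x ((univ.erase i).erase j) k)).card := by
        refine (card_le_card ?_).trans (card_union_le _ _)
        intro i hi
        obtain ⟨hi1, hi2⟩ := (mem_filter.mp hi).2
        rcases hi2 with h | h
        · exact mem_union_left _ (mem_filter.mpr ⟨mem_univ i, hi1, h⟩)
        · exact mem_union_right _ (mem_filter.mpr ⟨mem_univ i, hi1, h⟩)
      refine le_trans (le_trans (le_of_eq ?_) e2) ?_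
      · rfl
      · exact_mod_cast e1

end

end Pool.Agent.TH963
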