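import Mathlib
import Pool.Agent.TH963.ECU
import Pool.Agent.TH883.J707

set_option autoImplicit false
set_option linter.unusedVariables false
set_option linter.unusedSectionVars false

namespace Pool.Agent.TH963
open Finset Pool.Agent.H704R3 MeasureTheory
open Pool.Agent.TH883.J707 (cls)
open scoped ENNReal

section
variable {ι : Type*} [Fintype ι] [DecidableEq ι]

theorem class_theta_one (m : Fin 3 → Measure ℂ) (v : ι → Fin 3) (i : ι) (A : Set ℂ) :
    m (v i) A ≤ ((univ.filter (fun j => v j = v i)).card : ℝ≥0∞)⁻¹ * lam (fun i => m (v i)) A := by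
  set N := univ.filter (fun j => v j = v i) with hN
  have hi : i ∈ N := mem_filter.mpr ⟨mem_univ i, rfl⟩
  have hpos : 0 < N.card := card_pos.mpr ⟨i, hi⟩
  have h1 : (N.card : ℝ≥0∞) * m (v i) A ≤ lam (fun i => m (v i)) A := by
    rw [lam_apply]
    calc (N.card : ℝ≥0∞) * m (v i) A = ∑ j ∈ N, m (v j) A := by
          rw [sum_congr rfl (fun j hj => by rw [(mem_filter.mp hj).2]), sum_const, nsmul_eq_mul]
      _ ≤ _ := sum_le_sum_of_subset (subset_univ _)
  have h2 : (N.card : ℝ≥0∞) ≠ 0 := by exact_mod_cast hpos.ne'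
  calc m (v i) A = (N.card : ℝ≥0∞)⁻¹ * ((N.card : ℝ≥0∞) * m (v i) A) := by
        rw [← mul_assoc, ENNReal.inv_mul_cancel h2 (ENNReal.natCast_ne_top _), one_mul]
    _ ≤ _ := by gcongr

theorem class_theta_sum (v : ι → Fin 3) :
    ∑ i, ((univ.filter (fun j => v j = v i)).card : ℝ≥0∞)⁻¹ ≤ 3 := by
  rw [← sum_fiberwise (s := univ) (g := v)]
  calc ∑ c : Fin 3, ∑ i ∈ univ.filter (fun i => v i = c), ((univ.filter (fun j => v j = v i)).card : ℝ≥0∞)⁻¹
      ≤ ∑ c : Fin 3, (1 : ℝ≥0∞) := by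
        apply sum_le_sum
        intro c _
        rw [sum_congr rfl (fun i hi => by rw [(mem_filter.mp hi).2]), sum_const, nsmul_eq_mul]
        exact ENNReal.mul_inv_le_one _
    _ = 3 := by simp

lemma es_const_mul (c : ℂ) (x : ι → ℂ) (S : Finset ι) (k : ℕ) :
    es S k (fun i => c * x i) = c ^ k * es S k x := by
  unfold es
  rw [mul_sum]
  apply sum_congr rfl
  intro T hT
  rw [prod_mul_distrib, prod_const, (mem_powersetCard.mp hT).2]

lemma fac_le_two (z : ℂ) : (1 + ‖z‖) / mx z ≤ 2 := by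
  rw [div_le_iff₀ (mx_pos z)]
  have h1 := one_le_mx z
  have h2 := norm_le_mx z
  linarith

lemma fac_le (z : ℂ) : (1 + ‖z‖) / mx z ≤ 1 + ‖z‖ := by
  rw [div_le_iff₀ (mx_pos z)]
  have h1 := one_le_mx z
  have h2 := norm_nonneg z
  nlinarith

lemma KK_bound (x : ι → ℂ) (S3 : Finset ι) (k : ℕ) (hk : S3.card ≤ k) (r : ℝ) (hr : 0 ≤ r)
    (h : ∀ i, i ∉ S3 → ‖x i‖ ≤ r) : KK x univ ≤ 2 ^ k * (1 + r) ^ (Fintype.card ι) := by
  unfold KK
  have h0 : ∀ i : ι, 0 ≤ (1 + ‖x i‖) / mx (x i) := fun i => by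
    have := mx_pos (x i)
    positivity
  calc ∏ i, (1 + ‖x i‖) / mx (x i) ≤ ∏ i, ((if i ∈ S3 then (2:ℝ) else 1) * (1 + r)) := by
        apply prod_le_prod (fun i _ => h0 i)
        intro i _
        split_ifs with hi
        · have := fac_le_two (x i)
          linarith
        · have := fac_le (x i)
          have := h i hi
          linarith
    _ = 2 ^ S3.card * (1 + r) ^ (Fintype.card ι) := by
        rw [prod_mul_distrib, prod_const, card_univ]
        congr 1
        rw [prod_ite_mem, univ_inter, prod_const]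
    _ ≤ _ := by
        have : (2:ℝ)^S3.card ≤ 2^k := pow_le_pow_right₀ (by norm_num) hk
        gcongr

end

theorem core_cond {n : ℕ} (μ : Measure ℂ) [IsProbabilityMeasure μ] (ε t0 : ℝ) (ht0 : 0 < t0) (L : ℝ)
    (hL4 : 4 ≤ L) (hLt : 1 ≤ L * t0) (ε0 : ℝ≥0∞) (B x0 M0 M X0 : ℕ) (hB : 1 ≤ B)
    (hBε : 4 ≤ ε0 * B) (hx0 : 656 * B ≤ x0) (hM0 : 160 * B * x0 + 20000 * B ≤ M0)
    (hM : 2 * (3 * B * x0 + M0 + 156 * B) ≤ M) (hX0 : B * (3 * x0 + 9 * x0 ^ 2) < X0)
    (k : ℕ) (hk : 1 ≤ k) (z : Fin M → ℂ) (δ R c : ℝ) (hδ : 0 < δ) (hR : 1 ≤ R)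
    (hzR : ∀ l, ∀ s ∈ Metric.closedBall (z l) δ, ‖s‖ ≤ R)
    (hzs : ∀ l l', l ≠ l' → ∀ s ∈ Metric.closedBall (z l) δ, ∀ t ∈ Metric.closedBall (z l') δ, δ ≤ ‖s - t‖)
    (hc0 : 0 < c) (hc1 : c ≤ 1) (hcδ : 2 * c * R ^ 2 ≤ δ)
    (hnum : ∀ U : ℝ, 0 ≤ U → ∀ q : ℝ, q = Real.exp ((ε * n + k * U) / 320) →
        64 * ((n:ℝ)+1)^2 * ((k:ℝ)+((2*(k+1)+M0+M : ℕ):ℝ)+1) * (256*L)^(k+(2*(k+1)+M0+M)+2) ≤ q ∧
        q⁻¹ ≤ (1/L)^k * (1-2/L)^n ∧
        2^k * (1+2/L)^n ≤ q ∧
        7 * (q⁻¹)^40 ≤ c * Real.exp (-U) ∧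
        (q⁻¹)^2 ≤ (c * Real.exp (-U))^M ∧
        Real.exp (-(ε * n)) * Real.exp (-(k * U)) = (q⁻¹)^320)
    (s : ℕ) (v : Fin n → Fin 3) (hv2 : (univ.filter (fun i => v i = 2)).card ≤ k)
    (hv0 : k + 1 ≤ (univ.filter (fun i => v i ≠ 0)).card)
    (hpos : ∀ i, μ (cls (t0 * 2 ^ s) (t0 * 2 ^ (s+1)) (v i)) ≠ 0)
    (G : Set (Fin n → ℂ)) (hG1 : ∀ y ∈ G, ‖es univ k y‖ ≤ Real.exp (-(ε * n)))
    (hG2 : ∀ y ∈ G, ∀ l, ∀ S : Finset (Fin n), (∀ i, y i ∈ Metric.closedBall (z l) δ → i ∈ S) → X0 ≤ S.card) :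
    Measure.pi (fun i => ProbabilityTheory.cond μ (cls (t0 * 2 ^ s) (t0 * 2 ^ (s+1)) (v i))) G ≤ ε0 := by
  classical
  set T1 := t0 * 2 ^ s with hT1
  set T2 := t0 * 2 ^ (s+1) with hT2
  have hT12 : T2 = 2 * T1 := by rw [hT1, hT2, pow_succ]; ring
  have hT1pos : 0 < T1 := by rw [hT1]; positivity
  have hclsm : ∀ c, MeasurableSet (cls T1 T2 c) := by
    intro c
    unfold cls
    split_ifs
    · exact measurableSet_le measurable_norm measurable_const
    · exact (measurableSet_lt measurable_const measurable_norm).inter (measurableSet_le measurable_norm measurable_const)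
    · exact measurableSet_lt measurable_const measurable_norm
  set T := L * T1 with hT
  have hLpos : 0 < L := by linarith
  have hTpos : 0 < T := by positivity
  have hT1' : 1 ≤ T := by
    rw [hT, hT1]
    have : (1:ℝ) ≤ 2 ^ s := one_le_pow₀ (by norm_num)
    calc (1:ℝ) ≤ L * t0 := hLt
      _ = L * (t0 * 1) := by ring
      _ ≤ L * (t0 * 2 ^ s) := by gcongr
  set U := Real.log T with hU
  have hU0 : 0 ≤ U := Real.log_nonneg hT1'
  have hTU : Real.exp U = T := Real.exp_log hTpos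
  set q := Real.exp ((ε * n + k * U) / 320) with hq
  obtain ⟨n1, n2, n3, n4, n5, n6⟩ := hnum U hU0 q hq
  -- the conditioned laws
  have : ∀ i, IsProbabilityMeasure (ProbabilityTheory.cond μ (cls T1 T2 (v i))) := fun i =>
    ProbabilityTheory.cond_isProbabilityMeasure (hpos i)
  set ν : Fin n → Measure ℂ := fun i => ProbabilityTheory.cond μ (cls T1 T2 (v i)) with hν
  have hνp : ∀ i, IsProbabilityMeasure (ν i) := this
  have hf : Measurable (fun w : ℂ => (T:ℂ)⁻¹ * w) := measurable_const_mul _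
  set mm : Fin 3 → Measure ℂ := fun c => (ProbabilityTheory.cond μ (cls T1 T2 c)).map (fun w : ℂ => (T:ℂ)⁻¹ * w) with hmm
  set μ' : Fin n → Measure ℂ := fun i => mm (v i) with hμ'
  have hμp : ∀ i, IsProbabilityMeasure (μ' i) := fun i =>
    Measure.isProbabilityMeasure_map (μ := ν i) hf.aemeasurable
  have hpi : (Measure.pi ν).map (fun y i => (T:ℂ)⁻¹ * y i) = Measure.pi μ' := by
    have : ∀ i, SigmaFinite ((ν i).map (fun w : ℂ => (T:ℂ)⁻¹ * w)) := fun i => by
      have := hμp i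
      exact (inferInstance : SigmaFinite (μ' i))
    exact Measure.pi_map_pi (μ := ν) (f := fun i => fun w : ℂ => (T:ℂ)⁻¹ * w) (fun i => hf.aemeasurable)
  -- the box
  set box : Set (Fin n → ℂ) := Set.univ.pi (fun i => cls T1 T2 (v i)) with hbox
  have hboxc : Measure.pi ν boxᶜ = 0 := by
    have h1 : Measure.pi ν box = 1 := by
      rw [hbox, Measure.pi_pi]
      apply prod_eq_one
      intro i _
      rw [hν]
      simp only
      rw [ProbabilityTheory.cond_apply (hclsm _), Set.inter_self]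
      exact ENNReal.inv_mul_cancel (hpos i) (measure_ne_top _ _)
    exact (prob_compl_eq_zero_iff (MeasurableSet.univ_pi (fun i => hclsm _))).mpr h1
  set G' : Set (Fin n → ℂ) := {x | (fun i => (T:ℂ) * x i) ∈ G ∩ box} with hG'
  have hTc : (T:ℂ) ≠ 0 := by exact_mod_cast hTpos.ne'
  have hsub : G ⊆ (fun y : Fin n → ℂ => fun i => (T:ℂ)⁻¹ * y i) ⁻¹' G' ∪ boxᶜ := by
    intro y hy
    by_cases hyb : y ∈ box
    · left
      show (fun i => (T:ℂ) * ((T:ℂ)⁻¹ * y i)) ∈ G ∩ box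
      have : (fun i => (T:ℂ) * ((T:ℂ)⁻¹ * y i)) = y := by
        funext i
        rw [← mul_assoc, mul_inv_cancel₀ hTc, one_mul]
      rw [this]
      exact ⟨hy, hyb⟩
    · right; exact hyb
  have hmeasf : Measurable (fun y : Fin n → ℂ => fun i => (T:ℂ)⁻¹ * y i) :=
    measurable_pi_lambda _ (fun i => hf.comp (measurable_pi_apply i))
  have hstep : Measure.pi ν G ≤ Measure.pi μ' G' := by
    calc Measure.pi ν G ≤ Measure.pi ν ((fun y : Fin n → ℂ => fun i => (T:ℂ)⁻¹ * y i) ⁻¹' G') + Measure.pi ν boxᶜ :=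
          (measure_mono hsub).trans (measure_union_le _ _)
      _ = Measure.pi ν ((fun y : Fin n → ℂ => fun i => (T:ℂ)⁻¹ * y i) ⁻¹' G') := by rw [hboxc, add_zero]
      _ ≤ (Measure.pi ν).map (fun y i => (T:ℂ)⁻¹ * y i) G' := Measure.le_map_apply hmeasf.aemeasurable _
      _ = _ := by rw [hpi]
  refine hstep.trans ?_
  have hqpos : 0 < q := Real.exp_pos _
  have hnormT : ‖(T:ℂ)‖ = T := by rw [Complex.norm_real, Real.norm_eq_abs, abs_of_pos hTpos]
  have hEU : Real.exp (-U) = T⁻¹ := by rw [Real.exp_neg, hTU]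
  have h256 : 256 / (1 / L) = 256 * L := by field_simp
  have hclass : ∀ x ∈ G', ∀ i, (v i = 2 → 2 / L < ‖x i‖) ∧ (v i ≠ 0 → 1 / L < ‖x i‖) ∧ (v i ≠ 2 → ‖x i‖ ≤ 2 / L) := by
    intro x hx i
    have h1 : (T:ℂ) * x i ∈ cls T1 T2 (v i) := hx.2 i (Set.mem_univ i)
    have h2 : ‖(T:ℂ) * x i‖ = T * ‖x i‖ := by rw [norm_mul, hnormT]
    have e1 : ∀ c : ℝ, c * T1 < T * ‖x i‖ → c / L < ‖x i‖ := by
      intro c hc
      rw [hT] at hc
      rw [div_lt_iff₀ hLpos]
      have : T1 * c < T1 * (‖x i‖ * L) := by linarith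
      exact lt_of_mul_lt_mul_left this hT1pos.le
    have e2 : T * ‖x i‖ ≤ 2 * T1 → ‖x i‖ ≤ 2 / L := by
      intro hc
      rw [hT] at hc
      rw [le_div_iff₀ hLpos]
      have : T1 * (‖x i‖ * L) ≤ T1 * 2 := by linarith
      exact le_of_mul_le_mul_left this hT1pos
    unfold cls at h1
    by_cases hv0' : v i = 0
    · rw [if_pos hv0'] at h1
      have h1' : ‖(T:ℂ) * x i‖ ≤ T1 := h1
      rw [h2] at h1'
      refine ⟨fun h => ?_, fun h => absurd hv0' h, fun _ => e2 (by linarith)⟩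
      rw [hv0'] at h; exact absurd h (by decide)
    · rw [if_neg hv0'] at h1
      by_cases hv1 : v i = 1
      · rw [if_pos hv1] at h1
        have h1' : T1 < ‖(T:ℂ) * x i‖ ∧ ‖(T:ℂ) * x i‖ ≤ T2 := h1
        rw [h2, hT12] at h1'
        refine ⟨fun h => ?_, fun _ => e1 1 (by linarith [h1'.1]), fun _ => e2 h1'.2⟩
        rw [hv1] at h; exact absurd h (by decide)
      · rw [if_neg hv1] at h1
        have h1' : T2 < ‖(T:ℂ) * x i‖ := h1
        rw [h2, hT12] at h1'
        refine ⟨fun _ => e1 2 h1', fun _ => e1 1 (by linarith), fun h => ?_⟩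
        exfalso
        have : v i = 0 ∨ v i = 1 ∨ v i = 2 := by
          generalize v i = w
          fin_cases w <;> simp
        rcases this with h' | h' | h'
        · exact hv0' h'
        · exact hv1 h'
        · exact h h'
  apply CT μ' (fun i => ((univ.filter (fun j => v j = v i)).card : ℝ≥0∞)⁻¹)
    (fun i A _ => class_theta_one mm v i A) (class_theta_sum v) k hk (1 / L) (by positivity)
    (by rw [div_le_one hLpos]; linarith) ε0 B x0 M0 M X0 hB hBε hx0 hM0 hM hX0 q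
    (by rw [h256, Fintype.card_fin]; exact n1)
    (fun l => {w : ℂ | (T:ℂ) * w ∈ Metric.closedBall (z l) δ}) (c * Real.exp (-U))
    (by
      have : Real.exp (-U) ≤ 1 := Real.exp_le_one_iff.mpr (by linarith)
      have h0 := Real.exp_pos (-U)
      nlinarith) n4 n5 ?_ G' ?_ ?_ ?_ ?_ ?_
  · -- separation of the scaled discs
    intro l l' hll w hw w' hw'
    have h1 := hzs l l' hll _ hw _ hw'
    have h2 : ‖(T:ℂ) * w - (T:ℂ) * w'‖ = T * ‖w - w'‖ := by rw [← mul_sub, norm_mul, hnormT]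
    rw [h2] at h1
    have hmxle : ∀ u : ℂ, ‖(T:ℂ) * u‖ ≤ R → mx u ≤ R := by
      intro u hu
      rw [norm_mul, hnormT] at hu
      unfold mx
      apply max_le hR
      have : ‖u‖ ≤ T * ‖u‖ := by
        have := norm_nonneg u
        nlinarith
      linarith
    have h3 := hmxle w (hzR l _ hw)
    have h4 := hmxle w' (hzR l' _ hw')
    have h5 := ch_mul w w'
    have h6 : mx w * mx w' ≤ R * R := mul_le_mul h3 h4 (mx_pos _).le (by linarith)
    have h7 : ‖w - w'‖ ≤ ch w w' * (R * R) := by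
      rw [← h5]
      exact mul_le_mul_of_nonneg_left h6 (ch_nonneg _ _)
    rw [hEU]
    have h8 : 2 * c * R^2 ≤ T * (ch w w' * (R * R)) := by
      calc 2 * c * R^2 ≤ δ := hcδ
        _ ≤ T * ‖w - w'‖ := h1
        _ ≤ _ := by gcongr
    have hR2 : 0 < R * R := by nlinarith
    have h9 : (2 * c) * (R * R) ≤ (T * ch w w') * (R * R) := by nlinarith
    have h10 : 2 * c ≤ T * ch w w' := le_of_mul_le_mul_right h9 hR2
    calc 2 * (c * T⁻¹) = (2 * c) * T⁻¹ := by ring
      _ ≤ (T * ch w w') * T⁻¹ := by gcongr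
      _ = ch w w' := by field_simp
  · intro x hx
    have h1 := hG1 _ hx.1
    rw [es_const_mul, norm_mul, norm_pow, hnormT] at h1
    rw [← n6]
    have h2 : VV x univ k ≤ ‖es univ k x‖ := by
      rw [VV_eq, div_le_iff₀ (PM_pos _ _)]
      have := one_le_PM x univ
      have h0 := norm_nonneg (es univ k x)
      nlinarith
    refine h2.trans ?_
    have h3 : Real.exp (-(k * U)) = (T^k)⁻¹ := by
      rw [Real.exp_neg, Real.exp_nat_mul, hTU]
    rw [h3, ← div_eq_mul_inv, le_div_iff₀ (by positivity), mul_comm]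
    exact h1
  · intro x hx
    refine hv0.trans (card_le_card ?_)
    intro i hi
    exact mem_filter.mpr ⟨mem_univ i, (hclass x hx i).2.1 (mem_filter.mp hi).2⟩
  · intro x hx
    obtain ⟨j, hj, hj2⟩ := lower x univ (univ.filter (fun i => v i = 2)) (subset_univ _) k hv2 (1/L) (2/L)
      (by positivity) (by rw [div_le_one hLpos]; linarith) (by positivity)
      (by rw [div_lt_one hLpos]; linarith)
      (by
        intro i hi
        apply (hclass x hx i).2.2
        intro h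
        exact (mem_sdiff.mp hi).2 (mem_filter.mpr ⟨mem_univ i, h⟩))
      (by
        intro i hi
        have := (hclass x hx i).1 (mem_filter.mp hi).2
        have h2 : (1:ℝ)/L ≤ 2/L := by gcongr; norm_num
        linarith)
    refine ⟨j, hj, ?_⟩
    rw [card_univ, Fintype.card_fin] at hj2
    exact n2.trans hj2
  · intro x hx
    have := KK_bound x (univ.filter (fun i => v i = 2)) k hv2 (2/L) (by positivity) (by
      intro i hi
      apply (hclass x hx i).2.2
      intro h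
      exact hi (mem_filter.mpr ⟨mem_univ i, h⟩))
    rw [Fintype.card_fin] at this
    exact this.trans n3
  · intro x hx l S hS
    exact hG2 _ hx.1 l S (fun i hi => hS i hi)

end Pool.Agent.TH963
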