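import Mathlib
import Pool.Agent.TH963.EV
import Pool.Agent.TH883.J706
import Pool.Agent.TH883.J709
import Pool.Agent.TH429.J710

set_option autoImplicit false
set_option linter.unusedVariables false
set_option linter.unusedSectionVars false

namespace Pool.Agent.TH963
open Finset Pool.Agent.H704R3 MeasureTheory Filter Topology
open Pool.Agent.TH883.J707 (cls)
open scoped ENNReal

open Classical in
lemma count_measurable {n : ℕ} (D : Set ℂ) (hD : MeasurableSet D) (N : ℕ) :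
    MeasurableSet {y : Fin n → ℂ | N ≤ (univ.filter (fun i => y i ∈ D)).card} := by
  have h1 : Measurable (fun y : Fin n → ℂ => (univ.filter (fun i => y i ∈ D)).card) := by
    have : (fun y : Fin n → ℂ => (univ.filter (fun i => y i ∈ D)).card)
        = fun y : Fin n → ℂ => ∑ i, (D.indicator (fun _ => (1:ℕ)) (y i)) := by
      funext y
      rw [card_filter]
      apply sum_congr rfl
      intro i _
      by_cases h : y i ∈ D
      · simp [h]
      · simp [h]
    rw [this]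
    exact Finset.measurable_sum _ (fun i _ => (measurable_const.indicator hD).comp (measurable_pi_apply i))
  exact measurableSet_le measurable_const h1

theorem main_pi (μ : Measure ℂ) [IsProbabilityMeasure μ]
    (hinf : ¬ ∃ F : Finset ℂ, ∀ᵐ z ∂μ, z ∈ F) (ε : ℝ) (hε : 0 < ε) (ε0 : ℝ≥0∞) (hε0 : 0 < ε0) :
    ∃ K0 : ℕ, ∀ k : ℕ → ℕ, Tendsto (fun n : ℕ => (k n : ℝ) / (n : ℝ)) atTop (𝓝 0) →
      ∀ᶠ n : ℕ in atTop, K0 ≤ k n →
        Measure.pi (fun _ : Fin n => μ) {y | ‖es univ (k n) y‖ ≤ Real.exp (-(ε * (n:ℝ)))}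
          ≤ ε0 + ε0 + ε0 := by
  classical
  -- constants
  obtain ⟨B, hBε⟩ := ENNReal.exists_nat_mul_gt hε0.ne' (by norm_num : (4:ℝ≥0∞) ≠ ⊤)
  have hB : 1 ≤ B := by
    rcases Nat.eq_zero_or_pos B with h | h
    · rw [h] at hBε; simp at hBε
    · exact h
  have hBε' : 4 ≤ ε0 * B := by rw [mul_comm]; exact hBε.le
  set x0 := 656 * B with hx0
  set M0 := 160 * B * x0 + 20000 * B with hM0
  set M := 2 * (3 * B * x0 + M0 + 156 * B) with hM
  set X0 := B * (3 * x0 + 9 * x0 ^ 2) + 1 with hX0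
  refine ⟨160 * M + 160, ?_⟩
  intro k hk
  -- the discs
  obtain ⟨z, δ, hδ, hzpos, hzs⟩ := Pool.Agent.TH883.J706.exists_discs μ hinf M
  set R := 1 + ∑ l, ‖z l‖ + δ with hR
  have hsumnn : ∀ l, ‖z l‖ ≤ ∑ l, ‖z l‖ := fun l =>
    single_le_sum (f := fun l => ‖z l‖) (fun _ _ => norm_nonneg _) (mem_univ l)
  have hsum0 : 0 ≤ ∑ l, ‖z l‖ := sum_nonneg (fun _ _ => norm_nonneg _)
  have hR1 : 1 ≤ R := by linarith
  have hzR : ∀ l, ∀ s ∈ Metric.closedBall (z l) δ, ‖s‖ ≤ R := by
    intro l s hs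
    rw [Metric.mem_closedBall, dist_eq_norm] at hs
    have h1 : ‖s‖ ≤ ‖s - z l‖ + ‖z l‖ := by
      calc ‖s‖ = ‖(s - z l) + z l‖ := by rw [sub_add_cancel]
        _ ≤ _ := norm_add_le _ _
    have := hsumnn l
    linarith
  set c := min 1 (δ / (2 * R ^ 2)) with hc
  have hR2 : 0 < 2 * R^2 := by positivity
  have hc0 : 0 < c := lt_min one_pos (by positivity)
  have hc1 : c ≤ 1 := min_le_left _ _
  have hcδ : 2 * c * R^2 ≤ δ := by
    have h1 : c ≤ δ / (2 * R^2) := min_le_right _ _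
    rw [le_div_iff₀ hR2] at h1
    linarith
  -- t0
  obtain ⟨t0, ht0, ht0pos⟩ : ∃ t0 : ℝ, 0 < t0 ∧ 0 < μ {w : ℂ | t0 < ‖w‖} := by
    by_contra hcon
    push Not at hcon
    apply hinf
    refine ⟨{0}, ?_⟩
    have h1 : ∀ m : ℕ, μ {w : ℂ | 1 / ((m:ℝ) + 1) < ‖w‖} = 0 := fun m =>
      le_antisymm (hcon _ (by positivity)) zero_le
    have h2 : μ (⋃ m : ℕ, {w : ℂ | 1 / ((m:ℝ) + 1) < ‖w‖}) = 0 := measure_iUnion_null h1
    rw [ae_iff]
    refine measure_mono_null ?_ h2
    intro w hw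
    have hw0 : w ≠ 0 := by
      intro h
      exact hw (by simp [h])
    have hwn : 0 < ‖w‖ := norm_pos_iff.mpr hw0
    obtain ⟨m, hm⟩ := exists_nat_one_div_lt hwn
    exact Set.mem_iUnion.mpr ⟨m, hm⟩
  set L := max (max 4 (2560 / ε)) (1 / t0) with hL
  have hL4 : 4 ≤ L := (le_max_left _ _).trans (le_max_left _ _)
  have hLε : 2560 / ε ≤ L := (le_max_right _ _).trans (le_max_left _ _)
  have hLt : 1 ≤ L * t0 := by
    have : 1 / t0 ≤ L := le_max_right _ _
    rwa [div_le_iff₀ ht0] at this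
  obtain ⟨κ0, hκ0, n0, hnum⟩ := Pool.Agent.TH883.J709.numerics ε hε L hLε hL4 c hc0 hc1 M0 M
  -- limits
  have hDm : MeasurableSet {w : ℂ | t0 < ‖w‖} := measurableSet_lt measurable_const measurable_norm
  have hinv : Tendsto (fun n : ℕ => (1:ℝ) / (n:ℝ)) atTop (𝓝 0) := tendsto_one_div_atTop_nhds_zero_nat
  have hlim1 : Tendsto (fun n : ℕ => ((k n + 1 : ℕ) : ℝ) / (n:ℝ)) atTop (𝓝 0) := by
    have := hk.add hinv
    rw [add_zero] at this
    refine this.congr (fun n => ?_)
    push_cast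
    rw [add_div]
  have hlim2 : Tendsto (fun n : ℕ => ((X0 : ℕ) : ℝ) / (n:ℝ)) atTop (𝓝 0) :=
    tendsto_const_div_atTop_nhds_zero_nat _
  have hc_1 := Pool.Agent.TH429.J710.count_tendsto μ _ hDm ht0pos (fun n => k n + 1) hlim1
  have hc_2 : Tendsto (fun n : ℕ => ∑ l : Fin M, Measure.pi (fun _ : Fin n => μ)
      {y : Fin n → ℂ | (univ.filter (fun i => y i ∈ Metric.closedBall (z l) δ)).card < X0}) atTop (𝓝 0) := by
    have : Tendsto (fun n : ℕ => ∑ l : Fin M, Measure.pi (fun _ : Fin n => μ)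
      {y : Fin n → ℂ | (univ.filter (fun i => y i ∈ Metric.closedBall (z l) δ)).card < X0}) atTop
        (𝓝 (∑ l : Fin M, 0)) :=
      tendsto_finsetSum _ (fun l _ => Pool.Agent.TH429.J710.count_tendsto μ _
        Metric.isClosed_closedBall.measurableSet (hzpos l) (fun _ => X0) hlim2)
    simpa using this
  have hev1 := hc_1.eventually (ge_mem_nhds hε0)
  have hev2 := hc_2.eventually (ge_mem_nhds hε0)
  have hev3 := hk.eventually (gt_mem_nhds hκ0)
  filter_upwards [hev1, hev2, hev3, eventually_ge_atTop n0, eventually_gt_atTop 0] with n h1 h2 h3 h4 h5 hK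
  have hn : (0:ℝ) < n := by exact_mod_cast h5
  have hkn : (k n : ℝ) ≤ κ0 * n := by
    rw [div_lt_iff₀ hn] at h3
    exact h3.le
  have hk1 : 1 ≤ k n := by omega
  set G : Set (Fin n → ℂ) := {y | ‖es univ (k n) y‖ ≤ Real.exp (-(ε * (n:ℝ)))} ∩
    ({y | k n + 1 ≤ (univ.filter (fun i => y i ∈ {w : ℂ | t0 < ‖w‖})).card} ∩
      ⋂ l : Fin M, {y | X0 ≤ (univ.filter (fun i => y i ∈ Metric.closedBall (z l) δ)).card}) with hG
  have hGm : MeasurableSet G := by
    refine (measurableSet_le (es_measurable _ _).norm measurable_const).inter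
      ((count_measurable _ hDm _).inter (MeasurableSet.iInter (fun l =>
        count_measurable _ Metric.isClosed_closedBall.measurableSet _)))
  have hGb : Measure.pi (fun _ : Fin n => μ) G ≤ ε0 := by
    apply Pool.Agent.TH883.J707.scale_sum μ (k n) t0 ht0 G hGm
    · intro y hy
      exact hy.2.1
    · intro s v hv2 hv0 hpos
      apply core_cond μ ε t0 ht0 L hL4 hLt ε0 B x0 M0 M X0 hB hBε' le_rfl le_rfl le_rfl
        (by rw [hX0]; omega) (k n) hk1 z δ R c hδ hR1 hzR hzs hc0 hc1 hcδ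
        (hnum n h4 (k n) hkn hK) s v ?_ ?_ hpos G (fun y hy => hy.1) ?_
      · convert hv2
      · convert hv0
      · intro y hy l S hS
        have e1 := Set.mem_iInter.mp hy.2.2 l
        refine le_trans e1 (card_le_card ?_)
        intro i hi
        exact hS i (mem_filter.mp hi).2
  have hsub : {y : Fin n → ℂ | ‖es univ (k n) y‖ ≤ Real.exp (-(ε * (n:ℝ)))} ⊆
      (G ∪ {y : Fin n → ℂ | (univ.filter (fun i => y i ∈ {w : ℂ | t0 < ‖w‖})).card < k n + 1}) ∪
      ⋃ l : Fin M, {y : Fin n → ℂ | (univ.filter (fun i => y i ∈ Metric.closedBall (z l) δ)).card < X0} := by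
    intro y hy
    by_cases e1 : (univ.filter (fun i => y i ∈ {w : ℂ | t0 < ‖w‖})).card < k n + 1
    · left; right; exact e1
    by_cases e2 : ∃ l : Fin M, (univ.filter (fun i => y i ∈ Metric.closedBall (z l) δ)).card < X0
    · right; exact Set.mem_iUnion.mpr e2
    · left; left
      push Not at e2
      exact ⟨hy, not_lt.mp e1, Set.mem_iInter.mpr e2⟩
  calc Measure.pi (fun _ : Fin n => μ) {y | ‖es univ (k n) y‖ ≤ Real.exp (-(ε * (n:ℝ)))}
      ≤ _ := measure_mono hsub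
    _ ≤ (Measure.pi (fun _ : Fin n => μ) G + Measure.pi (fun _ : Fin n => μ)
          {y : Fin n → ℂ | (univ.filter (fun i => y i ∈ {w : ℂ | t0 < ‖w‖})).card < k n + 1})
        + ∑ l : Fin M, Measure.pi (fun _ : Fin n => μ)
          {y : Fin n → ℂ | (univ.filter (fun i => y i ∈ Metric.closedBall (z l) δ)).card < X0} :=
        (measure_union_le _ _).trans (add_le_add (measure_union_le _ _) (measure_iUnion_fintype_le _ _))
    _ ≤ ε0 + ε0 + ε0 := add_le_add (add_le_add hGb h1) h2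

end Pool.Agent.TH963
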